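import Pool.Agent.H429P.Defs

/-!
Existence and uniqueness of the attractor; it is the set of the points with an address.
-/

namespace H429P

open scoped BigOperators

variable {d k : ℕ} {p : Fin k → EuclideanSpace ℝ (Fin d)} {lam : ℝ}

theorem norm_term_le (h0 : 0 < lam) (h1 : lam < 1) (e : ℕ → Fin k) (n : ℕ) :
    ‖((1 - lam) * lam ^ n) • p (e n)‖ ≤ lam ^ n * ∑ i, ‖p i‖ := by
  have h2 : ‖p (e n)‖ ≤ ∑ i, ‖p i‖ :=
    Finset.single_le_sum (f := fun i => ‖p i‖) (fun i _ => norm_nonneg _) (Finset.mem_univ _)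
  have h3 : 0 ≤ lam ^ n := pow_nonneg h0.le n
  have h4 : 0 ≤ ‖p (e n)‖ := norm_nonneg _
  rw [norm_smul, Real.norm_eq_abs, abs_of_nonneg (mul_nonneg (by linarith) h3)]
  have h5 : (1 - lam) * lam ^ n ≤ lam ^ n := by nlinarith
  calc (1 - lam) * lam ^ n * ‖p (e n)‖ ≤ lam ^ n * ‖p (e n)‖ :=
        mul_le_mul_of_nonneg_right h5 h4
    _ ≤ lam ^ n * ∑ i, ‖p i‖ := mul_le_mul_of_nonneg_left h2 h3

theorem summable_bound (h0 : 0 < lam) (h1 : lam < 1) (B : ℝ) :
    Summable fun n : ℕ => lam ^ n * B :=
  (summable_geometric_of_lt_one h0.le h1).mul_right B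

theorem summable_term (h0 : 0 < lam) (h1 : lam < 1) (e : ℕ → Fin k) :
    Summable fun n => ((1 - lam) * lam ^ n) • p (e n) :=
  Summable.of_norm_bounded (summable_bound h0 h1 _) (norm_term_le h0 h1 e)

/-- The point with a given address. -/
noncomputable def pnt (p : Fin k → EuclideanSpace ℝ (Fin d)) (lam : ℝ) (e : ℕ → Fin k) :
    EuclideanSpace ℝ (Fin d) := ∑' n, ((1 - lam) * lam ^ n) • p (e n)

theorem isAddress_iff (h0 : 0 < lam) (h1 : lam < 1) {e : ℕ → Fin k}
    {x : EuclideanSpace ℝ (Fin d)} : IsAddress p lam e x ↔ pnt p lam e = x := by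
  constructor
  · intro h
    exact h.tsum_eq
  · intro h
    rw [← h]
    exact (summable_term h0 h1 e).hasSum

theorem pnt_tail (h0 : 0 < lam) (h1 : lam < 1) (e : ℕ → Fin k) :
    pnt p lam e = hmt p lam (e 0) (pnt p lam (fun n => e (n + 1))) := by
  unfold pnt hmt
  rw [(summable_term h0 h1 e).tsum_eq_zero_add, ← tsum_const_smul'' (g := lam), add_comm]
  congr 1
  · congr 1
    funext n
    rw [smul_smul]
    congr 1
    ring
  · simp

theorem continuous_pnt (h0 : 0 < lam) (h1 : lam < 1) : Continuous (pnt p lam) := by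
  unfold pnt
  refine continuous_tsum (u := fun n => lam ^ n * ∑ i, ‖p i‖) ?_ (summable_bound h0 h1 _) ?_
  · intro n
    have h2 : Continuous fun e : ℕ → Fin k => e n := continuous_apply n
    have h3 : Continuous fun e : ℕ → Fin k => p (e n) :=
      (continuous_of_discreteTopology (f := p)).comp h2
    exact h3.const_smul ((1 - lam) * lam ^ n)
  · intro n e
    exact norm_term_le h0 h1 e n

theorem isAttractor_range (hk : 0 < k) (h0 : 0 < lam) (h1 : lam < 1) :
    IsAttractor p lam (Set.range (pnt p lam)) := by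
  refine ⟨?_, isCompact_range (continuous_pnt h0 h1), ?_⟩
  · exact ⟨_, ⟨fun _ => ⟨0, hk⟩, rfl⟩⟩
  · ext x
    simp only [Set.mem_range, Set.mem_iUnion, Set.mem_image, exists_exists_eq_and]
    constructor
    · rintro ⟨e, rfl⟩
      exact ⟨e 0, fun n => e (n + 1), (pnt_tail h0 h1 e).symm⟩
    · rintro ⟨i, e, rfl⟩
      exact ⟨fun n => Nat.casesOn n i e, pnt_tail h0 h1 _⟩

theorem attractor_eq (h0 : 0 < lam) (h1 : lam < 1) {S : Set (EuclideanSpace ℝ (Fin d))}
    (hS : IsAttractor p lam S) : S = Set.range (pnt p lam) := by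
  classical
  obtain ⟨hne, hcp, hinv⟩ := hS
  obtain ⟨R, hR⟩ := hcp.isBounded.exists_norm_le
  have hlim : Filter.Tendsto (fun n : ℕ => lam ^ n) Filter.atTop (nhds 0) :=
    tendsto_pow_atTop_nhds_zero_of_lt_one h0.le h1
  have hsmall : ∀ y : ℕ → EuclideanSpace ℝ (Fin d), (∀ n, y n ∈ S) →
      Filter.Tendsto (fun n => lam ^ n • y n) Filter.atTop (nhds 0) := by
    intro y hy
    have h5 : Filter.Tendsto (fun n => lam ^ n * R) Filter.atTop (nhds 0) := by
      simpa using hlim.mul_const R
    refine squeeze_zero_norm (fun n => ?_) h5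
    rw [norm_smul, Real.norm_eq_abs, abs_of_nonneg (pow_nonneg h0.le n)]
    exact mul_le_mul_of_nonneg_left (hR _ (hy n)) (pow_nonneg h0.le n)
  apply Set.Subset.antisymm
  · intro x hx
    have hstep : ∀ z ∈ S, ∃ i, ∃ z' ∈ S, hmt p lam i z' = z := by
      intro z hz
      rw [hinv] at hz
      simpa [Set.mem_iUnion, Set.mem_image] using hz
    choose I N hN hf using hstep
    let it : ℕ → S := fun n => Nat.rec ⟨x, hx⟩ (fun _ w => ⟨N w.1 w.2, hN w.1 w.2⟩) n
    let e : ℕ → Fin k := fun n => I (it n).1 (it n).2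
    have hit : ∀ n, hmt p lam (e n) (it (n + 1)).1 = (it n).1 := fun n => hf _ _
    have hs : ∀ n, ∑ j ∈ Finset.range n, ((1 - lam) * lam ^ j) • p (e j) =
        x - lam ^ n • (it n).1 := by
      intro n
      induction n with
      | zero =>
        simp only [Finset.range_zero, Finset.sum_empty, pow_zero, one_smul]
        exact (sub_self x).symm
      | succ n ih =>
        rw [Finset.sum_range_succ, ih, ← hit n]
        unfold hmt
        rw [smul_add, smul_smul, smul_smul, pow_succ, mul_comm (1 - lam) (lam ^ n)]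
        abel
    refine ⟨e, ?_⟩
    have h3 := (summable_term (p := p) h0 h1 e).hasSum.tendsto_sum_nat
    have h6 : Filter.Tendsto (fun n => ∑ j ∈ Finset.range n, ((1 - lam) * lam ^ j) • p (e j))
        Filter.atTop (nhds (x - 0)) := by
      simp only [hs]
      exact tendsto_const_nhds.sub (hsmall _ fun n => (it n).2)
    rw [sub_zero] at h6
    exact tendsto_nhds_unique h3 h6
  · rintro x ⟨e, rfl⟩
    obtain ⟨s0, hs0⟩ := hne
    have hy : ∀ (n : ℕ) (e : ℕ → Fin k),
        ∑ j ∈ Finset.range n, ((1 - lam) * lam ^ j) • p (e j) + lam ^ n • s0 ∈ S := by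
      intro n
      induction n with
      | zero =>
        intro e
        simpa using hs0
      | succ n ih =>
        intro e
        rw [hinv]
        refine Set.mem_iUnion.mpr ⟨e 0, _, ih (fun j => e (j + 1)), ?_⟩
        unfold hmt
        rw [Finset.sum_range_succ', smul_add, Finset.smul_sum, smul_smul, pow_zero, mul_one,
          mul_comm lam (lam ^ n), ← pow_succ]
        have : ∀ j, lam • ((1 - lam) * lam ^ j) • p (e (j + 1)) =
            ((1 - lam) * lam ^ (j + 1)) • p (e (j + 1)) := by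
          intro j
          rw [smul_smul]
          congr 1
          ring
        simp only [this]
        abel
    have h3 := (summable_term (p := p) h0 h1 e).hasSum.tendsto_sum_nat
    have h4 : Filter.Tendsto (fun n => ∑ j ∈ Finset.range n, ((1 - lam) * lam ^ j) • p (e j) +
        lam ^ n • s0) Filter.atTop (nhds (pnt p lam e + 0)) :=
      h3.add (hsmall (fun _ => s0) fun _ => hs0)
    rw [add_zero] at h4
    exact hcp.isClosed.mem_of_tendsto h4 (Filter.Eventually.of_forall fun n => hy n e)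

theorem existsUnique_attractor (hk : 0 < k) (h0 : 0 < lam) (h1 : lam < 1) :
    ∃! S, IsAttractor p lam S :=
  ⟨_, isAttractor_range hk h0 h1, fun _ hS => attractor_eq h0 h1 hS⟩

end H429P
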