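import Pool.Agent.H429P.Check

/-!
Words, their values, uniqueness and the coinduction principle.
-/

namespace H429P

open scoped BigOperators

/-- Infinite words over the four digits. -/
abbrev Word := ℕ → Dg

/-- The word without its first digit. -/
def tl (e : Word) : Word := fun n => e (n + 1)

/-- The word with a new first digit. -/
def cons (g : Dg) (e : Word) : Word := fun n => Nat.casesOn n g e

@[simp] theorem cons_zero (g : Dg) (e : Word) : cons g e 0 = g := rfl
@[simp] theorem cons_succ (g : Dg) (e : Word) (n : ℕ) : cons g e (n + 1) = e n := rfl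
@[simp] theorem tl_cons (g : Dg) (e : Word) : tl (cons g e) = e := rfl
theorem tl_apply (e : Word) (n : ℕ) : tl e n = e (n + 1) := rfl

theorem cons_tl (e : Word) : cons (e 0) (tl e) = e := by
  funext n
  cases n <;> rfl

/-- The value of the functional with weights `c` at the point with address `e`. -/
noncomputable def val (lam : ℝ) (c : Dg → ℝ) (e : Word) : ℝ :=
  (1 - lam) * ∑' n, lam ^ n * c (e n)

theorem bound_exists (c : Dg → ℝ) : ∃ B, ∀ g, |c g| ≤ B := by
  refine ⟨|c .A| + |c .B| + |c .D| + |c .C|, ?_⟩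
  intro g
  have h1 := abs_nonneg (c .A)
  have h2 := abs_nonneg (c .B)
  have h3 := abs_nonneg (c .D)
  have h4 := abs_nonneg (c .C)
  cases g <;> linarith

theorem summable_val {lam : ℝ} (h0 : 0 ≤ lam) (h1 : lam < 1) (c : Dg → ℝ) (e : Word) :
    Summable fun n => lam ^ n * c (e n) := by
  obtain ⟨B, hB⟩ := bound_exists c
  refine Summable.of_norm_bounded (g := fun n => lam ^ n * B)
    ((summable_geometric_of_lt_one h0 h1).mul_right B) ?_
  intro n
  rw [Real.norm_eq_abs, abs_mul, abs_of_nonneg (pow_nonneg h0 n)]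
  exact mul_le_mul_of_nonneg_left (hB _) (pow_nonneg h0 n)

theorem val_tl {lam : ℝ} (h0 : 0 ≤ lam) (h1 : lam < 1) (c : Dg → ℝ) (e : Word) :
    val lam c e = (1 - lam) * c (e 0) + lam * val lam c (tl e) := by
  unfold val
  rw [(summable_val h0 h1 c e).tsum_eq_zero_add]
  have : ∀ n, lam ^ (n + 1) * c (e (n + 1)) = lam * (lam ^ n * c (tl e n)) := by
    intro n
    rw [tl_apply]
    ring
  simp only [this, tsum_mul_left]
  ring

theorem val_cons {lam : ℝ} (h0 : 0 ≤ lam) (h1 : lam < 1) (c : Dg → ℝ) (g : Dg) (e : Word) :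
    val lam c (cons g e) = (1 - lam) * c g + lam * val lam c e := by
  rw [val_tl h0 h1]
  simp

theorem val_const {lam : ℝ} (h0 : 0 ≤ lam) (h1 : lam < 1) (a : ℝ) (e : Word) :
    val lam (fun _ => a) e = a := by
  unfold val
  rw [tsum_mul_right, tsum_geometric_of_lt_one h0 h1]
  have : (1 - lam) ≠ 0 := by linarith
  field_simp

theorem val_mono {lam : ℝ} (h0 : 0 ≤ lam) (h1 : lam < 1) (c d : Dg → ℝ) (h : ∀ g, c g ≤ d g)
    (e : Word) : val lam c e ≤ val lam d e := by
  unfold val
  apply mul_le_mul_of_nonneg_left _ (by linarith)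
  exact (summable_val h0 h1 c e).tsum_le_tsum
    (fun n => mul_le_mul_of_nonneg_left (h _) (pow_nonneg h0 n)) (summable_val h0 h1 d e)

theorem le_val {lam : ℝ} (h0 : 0 ≤ lam) (h1 : lam < 1) (c : Dg → ℝ) (m : ℝ) (h : ∀ g, m ≤ c g)
    (e : Word) : m ≤ val lam c e := by
  have := val_mono h0 h1 (fun _ => m) c h e
  rwa [val_const h0 h1] at this

theorem val_le {lam : ℝ} (h0 : 0 ≤ lam) (h1 : lam < 1) (c : Dg → ℝ) (m : ℝ) (h : ∀ g, c g ≤ m)
    (e : Word) : val lam c e ≤ m := by
  have := val_mono h0 h1 c (fun _ => m) h e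
  rwa [val_const h0 h1] at this

theorem val_lin {lam : ℝ} (h0 : 0 ≤ lam) (h1 : lam < 1) (c d : Dg → ℝ) (a b : ℝ) (e : Word) :
    val lam (fun g => a * c g + b * d g) e = a * val lam c e + b * val lam d e := by
  unfold val
  have : ∀ n, lam ^ n * (a * c (e n) + b * d (e n)) =
      a * (lam ^ n * c (e n)) + b * (lam ^ n * d (e n)) := fun n => by ring
  simp only [this]
  rw [((summable_val h0 h1 c e).mul_left a).tsum_add ((summable_val h0 h1 d e).mul_left b),
    tsum_mul_left, tsum_mul_left]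
  ring

/-! ### Coordinates -/

/-- The common denominator. -/
noncomputable def X (g : Dg) : ℝ := (wx g : ℝ) / 500000000000
noncomputable def Y (g : Dg) : ℝ := (wy g : ℝ) / 500000000000

/-- The coefficients of the two slanted edges. -/
noncomputable def al : ℝ := 22195000 / 500000000000
noncomputable def be : ℝ := 2805000 / 500000000000

theorem s_eq (g : Dg) : (ws g : ℝ) / 500000000000 = X g + Y g := by
  cases g <;> norm_num [ws, X, Y, wx, wy]
theorem a_eq (g : Dg) : (w1 g : ℝ) / 500000000000 = X g + Y g - al * X g := by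
  cases g <;> norm_num [w1, X, Y, wx, wy, al]
theorem b_eq (g : Dg) : (w2 g : ℝ) / 500000000000 = X g + Y g + be * X g := by
  cases g <;> norm_num [w2, X, Y, wx, wy, be]

/-- The affine map of a digit. -/
noncomputable def f (lam : ℝ) (g : Dg) (z : ℝ × ℝ) : ℝ × ℝ :=
  (lam * z.1 + (1 - lam) * X g, lam * z.2 + (1 - lam) * Y g)

/-- The point with address `e`. -/
noncomputable def pt (lam : ℝ) (e : Word) : ℝ × ℝ := (val lam X e, val lam Y e)

theorem pt_cons {lam : ℝ} (h0 : 0 ≤ lam) (h1 : lam < 1) (g : Dg) (e : Word) :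
    pt lam (cons g e) = f lam g (pt lam e) := by
  unfold pt f
  rw [val_cons h0 h1, val_cons h0 h1]
  ext <;> simp <;> ring

/-- The attractor. -/
def InS (lam : ℝ) (z : ℝ × ℝ) : Prop := ∃ e, pt lam e = z

/-- The word is the only address of its point. -/
def Uq (lam : ℝ) (e : Word) : Prop := ∀ e', pt lam e' = pt lam e → e' = e

theorem Uq.tl {lam : ℝ} (h0 : 0 ≤ lam) (h1 : lam < 1) {e : Word} (h : Uq lam e) :
    Uq lam (tl e) := by
  intro e' he'
  have h2 : pt lam (cons (e 0) e') = pt lam e := by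
    rw [pt_cons h0 h1, he', ← pt_cons h0 h1, cons_tl]
  have h3 := h _ h2
  rw [← h3]
  rfl

theorem Uq.alt {lam : ℝ} (h0 : 0 ≤ lam) (h1 : lam < 1) {e : Word} (h : Uq lam e) {g : Dg}
    (hg : g ≠ e 0) {z : ℝ × ℝ} (hz : InS lam z) (hf : f lam g z = pt lam e) : False := by
  obtain ⟨e', rfl⟩ := hz
  have h2 : pt lam (cons g e') = pt lam e := by rw [pt_cons h0 h1, hf]
  have h3 := h _ h2
  apply hg
  rw [← h3]
  rfl

/-- Shifts. -/
def sh (m : ℕ) (e : Word) : Word := fun n => e (n + m)

theorem sh_zero (e : Word) : sh 0 e = e := rfl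
theorem sh_succ (m : ℕ) (e : Word) : sh (m + 1) e = sh m (tl e) := by
  funext n
  simp only [sh, tl_apply]
  congr 1
theorem sh_succ' (m : ℕ) (e : Word) : sh (m + 1) e = tl (sh m e) := by
  funext n
  simp only [sh, tl_apply]
  congr 1
  ring

theorem Uq.sh {lam : ℝ} (h0 : 0 ≤ lam) (h1 : lam < 1) {e : Word} (h : Uq lam e) (m : ℕ) :
    Uq lam (sh m e) := by
  induction m with
  | zero => exact h
  | succ m ih =>
    rw [sh_succ']
    exact ih.tl h0 h1

theorem InS.f {lam : ℝ} (h0 : 0 ≤ lam) (h1 : lam < 1) {z : ℝ × ℝ} (h : InS lam z) (g : Dg) :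
    InS lam (H429P.f lam g z) := by
  obtain ⟨e, rfl⟩ := h
  exact ⟨cons g e, pt_cons h0 h1 g e⟩

/-- Coinduction: a bounded set each of whose points is an image of a point of the set consists of
points with an address. -/
theorem inS_of_closed {lam : ℝ} (h0 : 0 ≤ lam) (h1 : lam < 1) (K : Set (ℝ × ℝ)) (Bd : ℝ)
    (hb : ∀ z ∈ K, |z.1| ≤ Bd ∧ |z.2| ≤ Bd)
    (hc : ∀ z ∈ K, ∃ g, ∃ z' ∈ K, z = f lam g z') : ∀ z ∈ K, InS lam z := by
  classical
  choose G N hN hf using hc
  intro z hz
  let it : ℕ → K := fun n => Nat.rec ⟨z, hz⟩ (fun _ w => ⟨N w.1 w.2, hN w.1 w.2⟩) n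
  let e : Word := fun n => G (it n).1 (it n).2
  have hit : ∀ n, (it n).1 = f lam (e n) (it (n + 1)).1 := fun n => hf _ _
  have hlim : Filter.Tendsto (fun n : ℕ => lam ^ n) Filter.atTop (nhds 0) :=
    tendsto_pow_atTop_nhds_zero_of_lt_one h0 h1
  have key : ∀ (c : Dg → ℝ) (u : ℕ → ℝ), (∀ n, |u n| ≤ Bd) →
      (∀ n, u n = lam * u (n + 1) + (1 - lam) * c (e n)) → val lam c e = u 0 := by
    intro c u hu hrec
    have hs : ∀ n, (1 - lam) * ∑ k ∈ Finset.range n, lam ^ k * c (e k) = u 0 - lam ^ n * u n := by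
      intro n
      induction n with
      | zero => simp
      | succ n ih =>
        rw [Finset.sum_range_succ, mul_add, ih, pow_succ]
        linear_combination (-(lam ^ n)) * (hrec n)
    have h3 : Filter.Tendsto (fun n => (1 - lam) * ∑ k ∈ Finset.range n, lam ^ k * c (e k))
        Filter.atTop (nhds (val lam c e)) :=
      ((summable_val h0 h1 c e).hasSum.tendsto_sum_nat).const_mul _
    have h4 : Filter.Tendsto (fun n => lam ^ n * u n) Filter.atTop (nhds 0) := by
      have h5 : Filter.Tendsto (fun n => lam ^ n * Bd) Filter.atTop (nhds 0) := by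
        simpa using hlim.mul_const Bd
      refine squeeze_zero_norm (fun n => ?_) h5
      rw [Real.norm_eq_abs, abs_mul, abs_of_nonneg (pow_nonneg h0 n)]
      exact mul_le_mul_of_nonneg_left (hu n) (pow_nonneg h0 n)
    have h6 : Filter.Tendsto (fun n => (1 - lam) * ∑ k ∈ Finset.range n, lam ^ k * c (e k))
        Filter.atTop (nhds (u 0 - 0)) := by
      simp only [hs]
      exact tendsto_const_nhds.sub h4
    rw [sub_zero] at h6
    exact tendsto_nhds_unique h3 h6
  refine ⟨e, ?_⟩
  have hx : val lam X e = z.1 := by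
    refine key X (fun n => (it n).1.1) (fun n => (hb _ (it n).2).1) (fun n => ?_)
    have := congrArg Prod.fst (hit n)
    simpa [f] using this
  have hy : val lam Y e = z.2 := by
    refine key Y (fun n => (it n).1.2) (fun n => (hb _ (it n).2).2) (fun n => ?_)
    have := congrArg Prod.snd (hit n)
    simpa [f] using this
  exact Prod.ext hx hy

end H429P
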