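import Pool.Agent.H429P.Data

/-!
The checkers for the certificate, with their evaluation by the kernel.
-/

namespace H429P

/-! ### The search over words -/

/-- The child of a trie node along a digit. -/
def T.child : T → Dg → T
  | .n a _ _ _, .A => a
  | .n _ b _ _, .B => b
  | .n _ _ d _, .D => d
  | .n _ _ _ c, .C => c
  | .z, _ => .z
  | .k _ _, _ => .z

/-- Moving all pointers along a digit; `none` if one of them reaches a killed word. -/
def move (g : Dg) : List T → Option (List T)
  | [] => some []
  | t :: ts => match t.child g with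
    | .k _ _ => none
    | .z => move g ts
    | .n a b d c => match move g ts with
      | none => none
      | some r => some (.n a b d c :: r)

/-- Depth-first search over words. -/
def go : Nat → List T → Bool
  | 0, _ => false
  | n + 1, ps =>
    (match move .A (root :: ps) with | none => true | some q => go n q) &&
    ((match move .B (root :: ps) with | none => true | some q => go n q) &&
    ((match move .D (root :: ps) with | none => true | some q => go n q) &&
    (match move .C (root :: ps) with | none => true | some q => go n q)))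

/-- The search from two given first digits. -/
def start (g h : Dg) : Bool :=
  match move g [root] with
  | none => true
  | some q => match move h (root :: q) with
    | none => true
    | some q' => go 27 q'

/-- The search from all pairs of distinct first digits. -/
def startAll : Bool :=
  start .A .B && (start .A .D && (start .A .C && (start .B .A && (start .B .D && (start .B .C &&
  (start .D .A && (start .D .B && (start .D .C && (start .C .A && (start .C .B &&
  start .C .D))))))))))

/-! ### Weights and affine states -/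

/-- `x`-coordinates of the digits in units of `1/(5·10^11)`. -/
def wx : Dg → Nat
  | .A => 0 | .B => 500000000000 | .D => 56100000000 | .C => 0
/-- `y`-coordinates. -/
def wy : Dg → Nat
  | .A => 0 | .B => 0 | .D => 443902490279 | .C => 500000000000
/-- The functional `x + y`. -/
def ws : Dg → Nat
  | .A => 0 | .B => 500000000000 | .D => 500002490279 | .C => 500000000000
/-- The functional `x + y - α x`. -/
def w1 : Dg → Nat
  | .A => 0 | .B => 499977805000 | .D => 500000000000 | .C => 500000000000
/-- The functional `x + y + β x`. -/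
def w2 : Dg → Nat
  | .A => 0 | .B => 500002805000 | .D => 500002805000 | .C => 500000000000

/-- The affine map of a word: powers `19^m`, `30^m` and the five functionals of its translation. -/
structure St where
  pl : Nat
  pb : Nat
  x : Nat
  y : Nat
  s : Nat
  a : Nat
  b : Nat

/-- The identity. -/
def st0 : St := ⟨1, 1, 0, 0, 0, 0, 0⟩

/-- One more digit. -/
def step (t : St) (g : Dg) : St :=
  ⟨19 * t.pl, 30 * t.pb, 30 * t.x + 11 * t.pl * wx g, 30 * t.y + 11 * t.pl * wy g,
    30 * t.s + 11 * t.pl * ws g, 30 * t.a + 11 * t.pl * w1 g, 30 * t.b + 11 * t.pl * w2 g⟩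

/-- The room number `r` as `(a, b, c)`. -/
def room (r : Nat) : Nat × Nat × Nat := rooms.getD r (10000, 10000, 0)

/-- The target region number `r`: `68, 69, 70` stand for the extended rooms `7, 36, 43`. -/
def baseRoom (r : Nat) : Nat :=
  if r = 68 then 7 else if r = 69 then 36 else if r = 70 then 43 else 0

/-- Inclusion of the piece of `u` in the image of an ordinary room under the word of `v`. -/
def okRoom (u v : St) (q : Nat × Nat × Nat) : Bool :=
  Nat.ble (u.pb * (v.pl * (q.1 * 50000000) + v.x)) (v.pb * u.x) &&
  (Nat.ble (u.pb * (v.pl * (q.2.1 * 50000000) + v.y)) (v.pb * u.y) &&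
  Nat.ble (v.pb * (u.s + u.pl * 500002490279)) (u.pb * (v.pl * (q.2.2 * 50000000) + v.s)))

/-- Inclusion of the piece of `u` in the image of an extended room under the word of `v`. -/
def okPlus (u v : St) (q : Nat × Nat × Nat) : Bool :=
  Nat.ble (u.pb * (v.pl * (q.1 * 50000000) + v.x)) (v.pb * u.x) &&
  (Nat.ble (u.pb * (v.pl * (q.2.1 * 50000000) + v.y)) (v.pb * u.y) &&
  (Nat.ble (v.pb * (u.a + u.pl * 500000000000)) (u.pb * (v.pl * 500000000000 + v.a)) &&
  Nat.ble (v.pb * (u.b + u.pl * 500002805000)) (u.pb * (v.pl * 500002805000 + v.b))))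

/-- The check of one killed word. -/
def okKill (u : St) (g : Dg) (v : List Dg) (r : Nat) : Bool :=
  match v with
  | [] => false
  | h :: _ => (decide (h ≠ g)) &&
    (if r < 68 then okRoom u (v.foldl step st0) (room r)
     else okPlus u (v.foldl step st0) (room (baseRoom r)))

/-- The check of a subtree. -/
def checkT : T → Dg → St → Bool
  | .z, _, _ => true
  | .k v r, g, u => okKill u g v r
  | .n a b d c, g, u => checkT a g (step u .A) && (checkT b g (step u .B) &&
      (checkT d g (step u .D) && checkT c g (step u .C)))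

/-- The check of the whole trie. -/
def checkRoot : Bool :=
  checkT (root.child .A) .A (step st0 .A) && (checkT (root.child .B) .B (step st0 .B) &&
  (checkT (root.child .D) .D (step st0 .D) && checkT (root.child .C) .C (step st0 .C)))

/-! ### Covering of the rooms -/

/-- A hexagonal cell in units of `1/(15·10^12)`. -/
structure Cell where
  x0 : Int
  x1 : Int
  y0 : Int
  y1 : Int
  s0 : Int
  s1 : Int

def nx0 (c : Cell) : Cell := ⟨max c.x0 (c.s0 - c.y1), c.x1, c.y0, c.y1, c.s0, c.s1⟩
def ny0 (c : Cell) : Cell := ⟨c.x0, c.x1, max c.y0 (c.s0 - c.x1), c.y1, c.s0, c.s1⟩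
def ns1 (c : Cell) : Cell := ⟨c.x0, c.x1, c.y0, c.y1, c.s0, min c.s1 (c.x1 + c.y1)⟩
def nx1 (c : Cell) : Cell := ⟨c.x0, min c.x1 (c.s1 - c.y0), c.y0, c.y1, c.s0, c.s1⟩
def ny1 (c : Cell) : Cell := ⟨c.x0, c.x1, c.y0, min c.y1 (c.s1 - c.x0), c.s0, c.s1⟩
def ns0 (c : Cell) : Cell := ⟨c.x0, c.x1, c.y0, c.y1, max c.s0 (c.x0 + c.y0), c.s1⟩
/-- Normalisation of a cell. -/
def nrm (c : Cell) : Cell := ns0 (ny1 (nx1 (ns1 (ny0 (nx0 c)))))

/-- The bounds of the image of a room. -/
def la (g : Dg) (r : Nat) : Int := ((19 * ((room r).1 * 50000000) + 11 * wx g : Nat) : Int)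
def lb (g : Dg) (r : Nat) : Int := ((19 * ((room r).2.1 * 50000000) + 11 * wy g : Nat) : Int)
def lc (g : Dg) (r : Nat) : Int := ((19 * ((room r).2.2 * 50000000) + 11 * ws g : Nat) : Int)

/-- The check of a covering tree. -/
def chk : Ct → Cell → Bool
  | .e, c => let d := nrm (nrm c); decide (d.x1 < d.x0) || (decide (d.y1 < d.y0) || decide (d.s1 < d.s0))
  | .l g r, c => let d := nrm (nrm c); decide (r < 68) &&
      (decide (la g r ≤ d.x0) && (decide (lb g r ≤ d.y0) && decide (d.s1 ≤ lc g r)))
  | .x g r l t, c => chk l ⟨c.x0, min c.x1 (la g r), c.y0, c.y1, c.s0, c.s1⟩ &&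
      chk t ⟨max c.x0 (la g r), c.x1, c.y0, c.y1, c.s0, c.s1⟩
  | .y g r l t, c => chk l ⟨c.x0, c.x1, c.y0, min c.y1 (lb g r), c.s0, c.s1⟩ &&
      chk t ⟨c.x0, c.x1, max c.y0 (lb g r), c.y1, c.s0, c.s1⟩
  | .s g r l t, c => chk l ⟨c.x0, c.x1, c.y0, c.y1, max c.s0 (lc g r), c.s1⟩ &&
      chk t ⟨c.x0, c.x1, c.y0, c.y1, c.s0, min c.s1 (lc g r)⟩

/-- The cell of a room. -/
def cellOf (q : Nat × Nat × Nat) : Cell :=
  ⟨((q.1 * 1500000000 : Nat) : Int), ((q.2.2 * 1500000000 : Nat) : Int),
   ((q.2.1 * 1500000000 : Nat) : Int), ((q.2.2 * 1500000000 : Nat) : Int), 0,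
   ((q.2.2 * 1500000000 : Nat) : Int)⟩

/-- All rooms are covered. -/
def checkRooms : Nat → Bool
  | 0 => true
  | n + 1 => checkRooms n && chk (trees.getD n .e) (cellOf (room n))

theorem startAll_true : startAll = true := by decide +kernel

theorem checkRoot_true : checkRoot = true := by decide +kernel

theorem checkRooms_true : checkRooms 68 = true := by decide +kernel

end H429P
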