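import Mathlib

/-!
Data for the certificate of `MP_43eaec_an`: the four digits, the rooms, the covering trees of the
rooms and the trie of killed words.
-/

namespace H429P

/-- The four digits (vertices of the quadrilateral). -/
inductive Dg | A | B | D | C
deriving DecidableEq

/-- The trie of killed words: `z` no word, `k v r` the word is killed by the word `v` and room `r`. -/
inductive T
  | z : T
  | k : List Dg → Nat → T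
  | n : T → T → T → T → T

/-- Covering trees of rooms. -/
inductive Ct
  | e : Ct
  | l : Dg → Nat → Ct
  | x : Dg → Nat → Ct → Ct → Ct
  | y : Dg → Nat → Ct → Ct → Ct
  | s : Dg → Nat → Ct → Ct → Ct

/-- Rooms `x ≥ a, y ≥ b, x + y ≤ c`, in units of `1/10000`. -/
def rooms : List (Nat × Nat × Nat) :=
  [(0, 136, 406),
   (0, 213, 643),
   (0, 334, 1016),
   (0, 526, 1606),
   (0, 829, 2538),
   (0, 1308, 4009),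
   (0, 2064, 6331),
   (0, 3258, 10000),
   (239, 136, 643),
   (376, 136, 780),
   (376, 213, 1016),
   (526, 0, 780),
   (592, 213, 1233),
   (592, 334, 1606),
   (829, 0, 1233),
   (934, 0, 1370),
   (934, 213, 1606),
   (934, 334, 1948),
   (934, 526, 2538),
   (1171, 0, 1606),
   (1308, 0, 1948),
   (1473, 0, 2164),
   (1473, 334, 2538),
   (1473, 526, 3077),
   (1473, 829, 4009),
   (1847, 0, 2538),
   (2063, 0, 3077),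
   (2325, 0, 3419),
   (2325, 526, 4009),
   (2325, 829, 4860),
   (2325, 1308, 6331),
   (2915, 0, 4009),
   (3256, 0, 4860),
   (3669, 0, 5399),
   (3669, 829, 6331),
   (3669, 1308, 7675),
   (3669, 2064, 10000),
   (4601, 0, 6331),
   (5140, 0, 6744),
   (5140, 829, 7675),
   (5991, 0, 7085),
   (5991, 526, 7675),
   (5991, 829, 8527),
   (5991, 1308, 10000),
   (6581, 0, 7675),
   (6923, 0, 7937),
   (6923, 526, 8527),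
   (7462, 0, 8153),
   (7462, 334, 8527),
   (7462, 526, 9066),
   (7462, 829, 10000),
   (7836, 0, 8527),
   (8052, 0, 8692),
   (8052, 334, 9066),
   (8394, 0, 8829),
   (8394, 213, 9066),
   (8394, 334, 9408),
   (8394, 526, 10000),
   (8630, 0, 9066),
   (8767, 0, 9171),
   (8767, 213, 9408),
   (8984, 213, 9624),
   (8984, 334, 10000),
   (9220, 0, 9474),
   (9220, 136, 9624),
   (9357, 136, 9761),
   (9357, 213, 10000),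
   (9594, 136, 10000)]

/-- Covering trees, one for each room. -/
def trees : List Ct :=
  [(.l .A 1),
   (.l .A 2),
   (.l .A 3),
   (.l .A 4),
   (.l .A 5),
   (.l .A 6),
   (.l .A 7),
   (.y .C 7 (.s .A 7 (.x .B 7 (.y .D 6 (.x .D 30 (.l .C 29) (.y .D 30 (.x .D 33 (.x .C 33 (.l .D 29) (.y .C 33 (.l .D 32) (.l .C 33))) (.s .D 33 (.y .C 37 (.l .D 37) (.s .C 37 (.l .C 38) (.l .C 37))) (.l .D 33))) (.s .D 30 (.l .D 35) (.l .D 30)))) (.s .D 6 (.x .D 36 (.x .C 35 (.l .D 7) (.l .C 35)) (.l .D 36)) (.l .D 6))) (.l .B 7)) (.l .A 7)) (.l .C 7)),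
   (.l .A 10),
   (.l .A 12),
   (.l .A 13),
   (.l .A 14),
   (.l .A 17),
   (.l .A 18),
   (.l .A 20),
   (.l .A 21),
   (.l .A 22),
   (.l .A 23),
   (.l .A 24),
   (.l .A 25),
   (.l .A 26),
   (.l .A 27),
   (.l .A 28),
   (.l .A 29),
   (.l .A 30),
   (.l .A 31),
   (.l .A 32),
   (.l .A 33),
   (.l .A 34),
   (.l .A 35),
   (.l .A 36),
   (.l .A 37),
   (.y .A 39 (.s .A 38 (.x .A 44 (.x .A 40 (.l .B 3) (.s .A 40 (.y .A 41 (.l .B 13) (.l .A 41)) (.l .A 40))) (.l .A 44)) (.l .A 38)) (.l .A 39)),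
   (.y .B 4 (.x .A 44 (.x .A 40 (.s .A 38 (.l .B 3) (.l .A 38)) (.s .A 40 (.y .A 41 (.l .B 13) (.l .A 41)) (.l .A 40))) (.s .A 44 (.x .A 46 (.l .B 18) (.y .A 46 (.x .B 25 (.s .A 45 (.y .B 22 (.l .A 47) (.l .B 22)) (.l .A 45)) (.s .B 25 (.x .A 51 (.l .A 48) (.l .A 51)) (.l .B 25))) (.l .A 46))) (.l .A 44))) (.s .B 4 (.x .A 42 (.l .B 5) (.l .A 42)) (.l .B 4))),
   (.s .B 5 (.x .A 43 (.l .B 6) (.l .A 43)) (.l .B 5)),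
   (.l .B 6),
   (.l .B 7),
   (.x .A 50 (.y .B 24 (.s .B 21 (.l .B 22) (.l .B 21)) (.s .B 24 (.l .B 6) (.l .B 24))) (.y .A 50 (.x .B 27 (.s .A 47 (.y .A 49 (.x .B 26 (.y .A 48 (.l .B 25) (.l .A 48)) (.l .B 26)) (.l .A 49)) (.l .A 47)) (.s .B 27 (.x .B 31 (.y .B 28 (.l .A 56) (.l .B 28)) (.s .B 31 (.x .B 32 (.l .A 57) (.l .B 32)) (.l .B 31))) (.l .B 27))) (.l .A 50))),
   (.y .B 29 (.x .B 32 (.s .B 27 (.x .B 31 (.y .B 28 (.l .A 56) (.l .B 28)) (.s .B 31 (.l .A 57) (.l .B 31))) (.l .B 27)) (.l .B 32)) (.l .B 29)),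
   (.l .B 30),
   (.l .B 33),
   (.l .B 34),
   (.l .B 35),
   (.l .B 36),
   (.l .B 37),
   (.l .B 38),
   (.l .B 39),
   (.l .B 40),
   (.l .B 41),
   (.l .B 42),
   (.l .B 43),
   (.l .B 44),
   (.l .B 45),
   (.l .B 46),
   (.l .B 47),
   (.l .B 48),
   (.l .B 49),
   (.l .B 50),
   (.l .B 51),
   (.l .B 52),
   (.l .B 53),
   (.l .B 56),
   (.l .B 57),
   (.l .B 59),
   (.l .B 60),
   (.l .B 61),
   (.l .B 62),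
   (.l .B 66)]

def t01010101 : T := .n (.n (.n (.n .z .z (.n (.n .z (.k [.B, .A, .A, .A, .A] 19) .z .z) .z .z .z) .z) (.n .z (.k [.B, .A, .A, .A] 15) (.k [.B, .A, .A, .A] 15) .z) .z .z) (.n (.n (.k [.B, .A, .A, .A] 15) (.k [.B, .A, .A, .A] 19) (.n .z (.k [.B, .A, .A, .A] 19) .z .z) .z) (.n (.k [.B, .A, .A, .A] 19) (.k [.B, .A] 11) (.k [.B, .A] 11) .z) .z .z) (.n .z (.n (.k [.B, .A, .A, .A] 16) .z .z .z) .z .z) .z) (.n (.n (.n .z (.k [.B, .A] 11) (.n (.k [.B, .A, .A, .A] 19) (.k [.B, .A] 11) .z .z) .z) (.k [.B, .A] 11) (.n .z (.k [.B, .A] 11) .z .z) .z) (.n (.k [.B, .A, .A] 15) (.k [.B, .A, .A] 19) (.n (.k [.B, .A, .A] 15) .z .z .z) .z) (.n .z (.n (.k [.B, .A, .A] 15) .z .z .z) .z .z) .z) (.n (.n .z (.k [.B, .A] 9) .z .z) .z .z (.k [.B] 1)) (.n .z .z (.k [.B] 1) (.k [.B] 1))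

def t0101010 : T := .n (.n .z (.n (.n .z (.n .z (.n .z .z (.k [.B, .A, .A, .A, .A] 19) .z) .z .z) .z .z) (.n .z (.k [.B, .A, .A, .A] 15) (.n (.n .z (.k [.B, .A, .A] 11) .z .z) .z .z .z) .z) (.n .z (.n (.k [.B, .A, .A] 9) .z .z .z) .z .z) .z) .z .z) t01010101 (.n .z (.n .z .z (.k [.B] 1) (.k [.B] 1)) (.n .z (.k [.B] 1) (.n .z (.k [.B] 1) .z .z) (.n .z (.k [.B] 1) .z .z)) (.n .z (.k [.B] 1) .z .z)) (.n .z (.k [.B] 1) .z .z)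

def t01010110 : T := .n (.n (.n (.n (.k [.B, .A, .A, .A] 19) .z (.n (.k [.B, .A, .A, .A] 19) (.k [.B, .A] 11) .z .z) .z) (.k [.B, .A] 11) (.n .z (.k [.B, .A] 11) .z .z) .z) (.n (.k [.B, .A, .A] 15) (.n .z .z (.k [.B, .A, .A] 19) .z) (.n (.k [.B, .A, .A] 15) .z .z .z) .z) .z .z) (.n (.n .z .z (.n .z (.k [.B, .A, .A] 19) .z .z) (.n .z (.k [.B, .A, .A] 19) .z .z)) (.k [.B] 11) (.n (.n .z (.n (.k [.B, .A, .A] 19) .z .z .z) .z .z) (.k [.B] 11) .z .z) .z) (.n (.n .z (.k [.B, .A, .A] 16) .z .z) (.n (.n (.k [.B, .A, .A] 16) .z .z .z) .z (.k [.B] 9) (.k [.B] 9)) .z .z) (.n .z (.k [.B] 9) .z .z)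

def t0101011 : T := .n t01010110 (.n (.n (.k [.B] 11) (.k [.B, .A] 15) (.n (.k [.B] 11) (.k [.B, .A] 15) .z .z) .z) (.n (.k [.B, .A] 15) .z .z .z) (.n (.n .z (.k [.B, .A] 15) .z .z) .z .z (.k [.B] 10)) (.n .z .z (.k [.B] 10) (.k [.B] 10))) (.n (.n .z (.n (.k [.B] 9) .z .z .z) .z .z) (.n .z .z (.k [.B] 10) (.k [.B] 10)) .z .z) (.n .z (.k [.B] 10) .z .z)

def t010101 : T := .n t0101010 t0101011 (.n (.n .z (.n (.k [.B] 1) .z (.k [.B] 2) (.k [.B] 2)) (.n (.n .z (.k [.B] 1) .z .z) (.k [.B] 2) (.k [.B] 2) (.n .z (.k [.B] 2) .z .z)) (.n (.n .z (.k [.B] 1) .z .z) (.k [.B] 2) .z .z)) .z (.k [.B] 2) (.n (.n .z (.k [.B] 2) .z .z) (.k [.B] 2) .z .z)) (.n (.n .z (.k [.B] 2) .z .z) (.k [.B] 2) .z .z)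

def t01010 : T := .n .z t010101 (.n .z (.n .z .z (.n .z (.n .z .z (.n .z (.k [.B] 2) .z .z) .z) .z .z) .z) .z .z) .z

def t0101100 : T := .n (.n (.n .z (.k [.B, .A, .A, .A] 21) .z (.n (.k [.B, .A] 9) .z .z .z)) (.n .z (.k [.B, .A, .A, .A] 26) (.n (.n .z (.k [.B, .A, .A] 19) .z .z) (.n (.n (.k [.B, .A, .A] 19) .z .z .z) .z .z .z) .z .z) (.n (.k [.B, .A, .A] 16) .z .z .z)) (.n .z (.n (.k [.B, .A, .A] 16) .z .z .z) .z .z) .z) (.n (.n (.n .z .z (.n (.k [.B, .A, .A] 19) .z .z .z) (.n (.k [.B, .A, .A] 19) .z .z .z)) (.k [.B] 11) (.k [.B] 11) .z) (.n (.k [.B, .A] 15) .z (.n (.k [.B, .A] 15) .z .z .z) .z) (.n .z (.n (.k [.B, .A] 15) .z .z .z) .z .z) .z) (.n (.n .z (.k [.B] 9) .z .z) .z .z .z) .z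

def t0101101 : T := .n (.n (.n (.k [.B, .A] 15) .z (.n (.k [.B, .A] 15) .z .z .z) (.n (.k [.B, .A] 15) .z .z .z)) .z (.n .z (.n (.k [.B, .A] 19) .z .z (.n (.n .z (.n (.k [.B, .A] 16) .z .z .z) .z .z) .z .z .z)) .z .z) (.n .z (.n (.k [.B, .A] 16) .z .z .z) .z .z)) (.n (.k [.B] 14) .z (.n (.k [.B] 14) (.k [.B] 15) .z .z) (.n .z (.k [.B] 15) .z .z)) (.n .z .z (.k [.B] 13) (.k [.B] 13)) (.n .z .z (.k [.B] 13) (.k [.B] 13))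

def t010110 : T := .n t0101100 t0101101 (.n (.n .z (.n (.k [.B] 10) (.n (.k [.B] 10) .z .z .z) .z .z) .z .z) (.n (.n (.n (.k [.B] 10) .z .z .z) .z .z .z) .z (.n .z (.k [.B] 13) .z .z) (.n .z (.k [.B] 13) .z .z)) .z .z) .z

def t010111 : T := .n (.n (.n (.k [.B] 14) (.k [.B] 15) (.n (.k [.B] 14) (.k [.B] 15) .z .z) .z) (.n .z .z (.n .z .z .z (.k [.B] 16)) (.n .z .z (.k [.B] 16) (.k [.B] 16))) (.n (.n .z (.k [.B] 15) .z .z) (.n .z .z (.k [.B] 16) (.k [.B] 16)) .z .z) (.n .z (.k [.B] 16) .z .z)) (.n (.n .z .z (.n .z (.k [.B] 20) .z .z) (.n .z (.k [.B] 20) .z .z)) (.k [.B] 20) (.n (.n .z (.k [.B] 20) .z .z) (.k [.B] 20) .z .z) (.n .z (.k [.B] 20) .z .z)) (.n (.n .z (.n (.k [.B] 16) .z .z .z) .z .z) .z (.k [.B] 17) (.n .z (.k [.B] 17) .z .z)) (.n .z (.k [.B] 17) .z .z)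

def t01011 : T := .n t010110 t010111 (.n (.n .z (.n (.n .z (.k [.B] 13) .z .z) (.k [.B] 13) .z .z) .z .z) (.n (.n (.k [.B] 13) .z .z .z) .z (.n .z (.n .z .z (.n .z (.k [.B] 17) .z .z) .z) .z .z) .z) .z .z) .z

def t0101201 : T := .n (.n .z (.n (.n .z (.k [.B] 2) (.n .z (.k [.B] 2) (.n .z (.k [.B] 2) .z .z) (.n .z (.k [.B] 2) .z .z)) (.n .z (.k [.B] 2) .z .z)) (.k [.B] 3) (.n (.n .z (.k [.B] 2) .z .z) (.k [.B] 3) .z .z) (.n (.n .z (.k [.B] 2) .z .z) (.k [.B] 3) .z .z)) .z .z) (.k [.B] 3) (.n (.n .z (.n .z (.k [.B] 3) .z .z) .z .z) (.k [.B] 3) .z .z) (.n (.n .z (.n .z (.n .z (.k [.B] 3) .z .z) .z .z) .z .z) (.n (.n .z (.k [.B] 3) .z .z) .z .z .z) .z .z)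

def t010120 : T := .n .z t0101201 .z .z

def t01012 : T := .n t010120 (.n (.k [.B] 3) .z (.k [.B] 4) (.k [.B] 4)) .z .z

def t0101310 : T := .n (.n (.n .z (.k [.B] 3) (.n (.n .z (.n .z (.k [.B] 3) .z .z) .z .z) (.k [.B] 3) .z .z) .z) (.k [.B] 3) .z .z) (.k [.B] 3) (.n (.n .z .z (.n (.n .z (.k [.B] 3) .z .z) (.k [.B] 3) (.n .z (.k [.B] 3) .z .z) (.n .z (.k [.B] 3) .z .z)) (.n (.n .z (.k [.B] 3) .z .z) (.k [.B] 3) .z .z)) .z (.n (.n .z (.k [.B] 3) .z .z) .z .z .z) (.n (.n .z (.k [.B] 3) .z .z) .z .z .z)) (.n (.n .z (.k [.B] 3) .z .z) .z .z .z)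

def t010131 : T := .n t0101310 .z .z .z

def t01013 : T := .n (.n .z (.n .z (.n (.n .z (.k [.B] 3) (.n (.n .z (.k [.B] 3) .z .z) (.k [.B] 3) .z .z) (.n .z (.k [.B] 3) .z .z)) (.k [.B] 3) .z .z) .z .z) .z .z) t010131 .z .z

def t0101 : T := .n t01010 t01011 t01012 t01013

def t010 : T := .n (.n .z (.n .z (.n .z (.n .z (.n .z .z (.n .z (.n .z .z (.n (.k [.B] 0) .z .z .z) (.n (.k [.B] 0) .z .z .z)) .z .z) (.n .z (.n .z .z (.n (.k [.B] 0) .z .z .z) (.n (.k [.B] 0) .z .z .z)) .z .z)) .z .z) .z .z) .z .z) .z .z) t0101 .z .z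

def t0110000 : T := .n (.n .z .z (.n .z .z (.k [.B] 1) (.k [.B] 1)) (.n .z .z (.k [.B] 1) (.k [.B] 1))) (.n .z .z (.n (.n .z (.n .z .z .z (.k [.B] 9)) (.k [.B] 9) (.k [.B] 9)) .z .z .z) (.n (.k [.B] 9) .z .z .z)) (.n (.n .z .z (.n (.k [.B] 1) .z .z .z) (.n (.k [.B] 1) .z .z .z)) (.n (.k [.B, .A] 12) .z .z .z) .z .z) (.n (.n .z .z (.n (.k [.B] 1) .z .z .z) (.n (.k [.B] 1) .z .z .z)) .z .z .z)

def t011000 : T := .n t0110000 (.n (.n .z .z (.n .z .z (.k [.B] 10) (.k [.B] 10)) (.n .z .z (.k [.B] 10) (.k [.B] 10))) (.n .z (.k [.B] 14) (.n .z (.k [.B] 14) .z .z) .z) (.n (.n .z .z (.k [.B] 12) (.k [.B] 12)) .z .z .z) (.n (.n .z .z (.n (.k [.B] 10) .z .z .z) (.n (.k [.B] 10) .z .z .z)) .z .z .z)) (.n (.n .z (.k [.B] 10) (.k [.B] 2) (.k [.B] 2)) (.n (.n (.k [.B] 10) (.n (.k [.B] 10) .z .z .z) .z .z) .z .z .z) (.k [.B]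 3) (.k [.B] 3)) (.n (.k [.B] 2) .z (.k [.B] 3) (.k [.B] 3))

def t011001 : T := .n (.n (.n .z (.k [.B] 14) (.n (.n .z (.k [.B] 14) .z .z) (.k [.B] 14) .z .z) .z) (.n .z (.k [.B] 19) (.n (.k [.B] 15) .z .z .z) (.n (.k [.B] 15) .z .z .z)) (.n .z (.n (.k [.B] 15) .z .z .z) (.k [.B] 13) (.k [.B] 13)) (.n .z .z (.k [.B] 13) (.k [.B] 13))) (.n (.n (.n .z (.k [.B] 19) (.k [.B] 19) .z) (.k [.B] 19) (.k [.B] 19) .z) (.k [.B] 20) (.n (.n .z (.n .z (.k [.B] 20) .z .z) .z .z) (.k [.B] 20) .z .z) .z) (.n (.n .z (.k [.B] 16) (.k [.B] 13) (.k [.B] 13)) (.n (.n (.k [.B] 16) .z .z .z) .z .z .z) .z .z) (.n (.k [.B] 13) .z .z .z)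

def t01100 : T := .n t011000 t011001 (.n (.n .z (.n .z (.k [.B] 13) .z .z) .z (.k [.B] 3)) (.n (.k [.B] 13) .z .z .z) .z .z) (.n (.k [.B] 3) .z .z .z)

def t01101021 : T := .n (.n (.k [.B] 20) (.k [.B] 21) (.n (.k [.B] 17) (.k [.B] 21) (.n .z (.n .z .z (.n .z (.k [.B] 21) .z .z) (.n .z (.k [.B] 21) .z .z)) .z .z) .z) (.n (.k [.B] 17) (.n (.n .z (.k [.B] 21) .z .z) .z (.k [.B] 21) .z) .z .z)) .z (.n (.n .z (.k [.B] 21) .z .z) (.k [.B] 21) (.k [.B] 18) (.k [.B] 18)) (.n (.n .z (.n (.n .z (.k [.B] 21) (.k [.B, .A, .A] 33) (.n (.n .z (.k [.B] 21) .z .z) (.k [.B] 21) .z .z)) .z .z .z) .z .z) (.k [.B] 21) (.k [.B] 18) (.k [.B] 18))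

def t0110102 : T := .n (.n .z (.k [.B] 20) (.k [.B] 17) (.k [.B] 17)) t01101021 (.k [.B] 18) (.k [.B] 18)

def t011010 : T := .n (.n (.n (.n .z (.k [.B] 19) (.n .z (.k [.B] 19) .z .z) .z) (.k [.B] 19) (.n (.n .z (.k [.B] 19) .z .z) (.k [.B] 19) (.k [.B] 16) (.k [.B] 16)) (.n .z .z (.k [.B] 16) (.k [.B] 16))) (.k [.B] 20) (.n (.n .z .z .z (.n (.k [.B] 16) .z .z .z)) (.k [.B, .A] 26) .z .z) (.n (.n .z .z (.n (.k [.B] 16) .z .z .z) (.n (.k [.B] 16) .z .z .z)) .z .z .z)) (.k [.B] 21) t0110102 (.n (.k [.B] 17) (.n (.n (.k [.B] 17) (.n (.k [.B] 17) .z .z .z) (.n (.k [.B] 17) .z (.n (.n .z (.n (.k [.B] 17) .z .z .z) .z .z) .z .z .z) (.n (.n .z (.n (.k [.B] 17) .z .z .z) .z .z) .z .z .z)) (.n (.k [.B] 17) .z .z (.k [.B] 18))) .z .z .z) (.k [.B] 18) (.k [.B] 18))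

def t01101 : T := .n t011010 (.n (.n (.k [.B] 21) (.k [.B] 25) (.n (.n .z (.n (.k [.B] 21) (.k [.B] 25) .z .z) .z .z) (.k [.B] 25) .z .z) (.n .z (.k [.B] 25) .z .z)) (.k [.B] 26) (.n (.n .z (.k [.B] 25) .z .z) (.n (.n (.k [.B] 25) .z .z .z) .z (.n .z (.k [.B] 26) .z .z) (.n .z (.k [.B] 26) .z .z)) .z .z) .z) (.n (.n .z (.n (.n .z (.k [.B] 22) (.k [.B] 18) (.k [.B] 18)) (.k [.B] 22) (.k [.B] 18) (.k [.B] 18)) (.k [.B] 18) (.k [.B] 18)) (.n (.k [.B] 22) .z (.k [.B] 23) (.k [.B] 23)) (.n (.k [.B] 4) (.k [.B] 23) .z .z) (.n (.k [.B] 4) (.n (.n (.k [.B] 4) .z .z .z) .z .z .z) .z .z)) (.n (.k [.B] 18) (.k [.B] 23) (.n (.k [.B] 4) .z .z .z) (.n (.k [.B] 4) .z .z .z))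

def t01102 : T := .n (.n .z (.n (.n .z (.n .z (.k [.B, .A, .A, .A, .D] 37) (.k [.B] 4) (.k [.B] 4)) (.k [.B] 4) (.k [.B] 4)) (.n (.n (.k [.B, .A, .A, .A, .D] 37) (.k [.B] 18) (.k [.B] 4) (.k [.B] 4)) (.k [.B] 18) (.k [.B] 4) (.k [.B] 4)) (.k [.B] 4) (.k [.B] 4)) (.k [.B] 4) (.k [.B] 4)) (.n (.n (.n (.n .z (.k [.B] 18) (.k [.B] 4) (.k [.B] 4)) (.k [.B] 18) (.k [.B] 4) (.k [.B] 4)) (.k [.B] 18) (.k [.B] 4) (.k [.B] 4)) .z (.n (.k [.B] 4) (.n .z .z (.n .z .z .z (.k [.B] 5)) (.k [.B] 5)) (.k [.B] 5) (.k [.B] 5)) (.n (.k [.B] 4) (.n (.n (.k [.B] 4) .z .z .z) .z (.k [.B] 5) (.k [.B] 5)) (.k [.B] 5) (.k [.B] 5))) (.k [.B] 5) (.k [.B] 5)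

def t0110 : T := .n t01100 t01101 t01102 (.n (.k [.B] 4) (.n (.k [.B] 4) .z (.n (.k [.B] 4) .z .z .z) (.n (.k [.B] 4) .z .z .z)) (.k [.B] 5) (.k [.B] 5))

def t0111021 : T := .n (.k [.B] 26) .z (.n (.n .z (.n (.k [.B] 23) .z .z (.n (.n .z (.n (.k [.B] 23) .z .z .z) .z .z) .z .z .z)) .z .z) (.n .z .z (.n .z (.k [.B] 27) .z (.k [.B] 24)) (.k [.B, .A] 30)) (.k [.B] 24) (.k [.B] 24)) (.n (.n .z (.n (.k [.B] 23) .z .z .z) .z .z) (.n (.n (.n (.n (.k [.B] 23) .z .z (.n (.k [.B] 23) .z .z .z)) .z .z .z) .z .z .z) .z (.k [.B] 24) (.k [.B] 24)) (.k [.B] 24) (.k [.B] 24))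

def t011102 : T := .n (.n .z (.n (.n .z (.k [.B] 26) (.k [.B] 23) (.k [.B] 23)) (.k [.B] 26) (.k [.B] 23) (.k [.B] 23)) (.k [.B] 23) (.k [.B] 23)) t0111021 (.k [.B] 24) (.k [.B] 24)

def t01110 : T := .n (.n (.n (.k [.B] 21) (.k [.B] 25) (.n (.n .z (.k [.B, .A, .A, .A] 46) (.k [.B, .A, .A, .A] 42) (.k [.B, .A, .A, .A] 42)) (.k [.B, .A] 31) (.k [.B] 22) (.k [.B] 22)) (.n (.k [.B, .A, .A, .A] 42) .z (.k [.B] 22) (.k [.B] 22))) (.n (.k [.B] 25) (.k [.B] 26) (.k [.B] 26) (.n (.k [.B, .A, .A] 37) .z .z .z)) (.n (.n .z (.k [.B] 25) .z (.k [.B] 22)) (.n (.k [.B, .A, .A] 37) .z .z .z) .z .z) (.n (.k [.B] 22) .z .z .z)) (.n (.k [.B] 26) (.k [.B] 27) (.n (.k [.B] 26) (.k [.B] 27) (.k [.B] 27) (.n (.n .z (.k [.B] 27) .z .z) (.k [.B] 27) .z .z)) (.n (.k [.B] 26) (.k [.B] 27) (.n (.n .z .z (.n (.k [.B] 23) .z .z .z) .z) .z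 .z .z) (.n (.n .z .z (.n (.k [.B] 23) .z .z .z) (.n (.k [.B] 23) .z .z .z)) .z .z .z))) t011102 (.n (.k [.B] 23) (.n (.k [.B] 23) .z .z .z) (.k [.B] 24) (.k [.B] 24))

def t011110 : T := .n (.k [.B] 27) (.k [.B] 31) (.n (.k [.B] 27) (.n (.n (.k [.B] 27) (.k [.B] 31) (.n (.k [.B] 27) (.k [.B] 31) (.n .z (.k [.B] 31) (.n .z (.k [.B] 31) .z .z) .z) (.n .z (.k [.B] 31) .z .z)) (.n (.k [.B] 27) (.k [.B] 31) .z .z)) .z (.n (.n .z (.k [.B] 31) .z .z) (.k [.B] 31) (.k [.B] 28) (.k [.B] 28)) (.n (.n .z (.k [.B] 31) .z .z) (.k [.B] 31) (.k [.B] 28) (.k [.B] 28))) (.k [.B] 28) (.k [.B] 28)) (.n (.k [.B] 27) (.n (.n (.k [.B] 27) (.k [.B] 31) (.n (.k [.B] 27) .z (.n (.n .z (.n (.k [.B] 27) .z .z .z) .z .z) .z .z .z) (.n (.n .z (.n (.k [.B] 27) .z .z .z) .z .z) .z .z .z)) (.n (.k [.B] 27) .z .z (.k [.B] 28))) .z .z .z) (.k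 [.B] 28) (.k [.B] 28))

def t0111121 : T := .n (.k [.B] 31) .z (.n (.n .z (.n (.k [.B] 28) .z .z (.n (.n .z (.n (.k [.B] 28) .z .z .z) .z .z) .z .z .z)) .z .z) (.n .z .z (.n .z (.k [.B] 32) (.k [.B] 29) (.k [.B] 29)) (.k [.B, .A] 35)) (.k [.B] 29) (.k [.B] 29)) (.n (.n .z (.n (.k [.B] 28) .z .z .z) .z .z) (.n (.n (.n (.n (.k [.B] 28) .z .z (.n (.k [.B] 28) .z .z .z)) .z .z .z) .z .z .z) .z (.k [.B] 29) (.k [.B] 29)) (.k [.B] 29) (.k [.B] 29))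

def t011112 : T := .n (.n .z (.n (.n .z (.k [.B] 31) (.k [.B] 28) (.k [.B] 28)) (.k [.B] 31) (.k [.B] 28) (.k [.B] 28)) (.k [.B] 28) (.k [.B] 28)) t0111121 (.k [.B] 29) (.k [.B] 29)

def t01111 : T := .n t011110 (.n (.k [.B] 31) (.k [.B] 32) (.n (.k [.B] 31) (.k [.B] 32) (.k [.B] 32) (.n (.n .z (.k [.B] 32) .z .z) (.k [.B] 32) .z .z)) (.n (.k [.B] 31) (.k [.B] 32) (.n (.n .z .z (.n (.k [.B] 28) .z .z .z) .z) .z .z .z) (.n (.n .z .z (.n (.k [.B] 28) .z .z .z) (.n (.k [.B] 28) .z .z .z)) .z .z .z))) t011112 (.n (.k [.B] 28) (.n (.k [.B] 28) .z .z .z) (.k [.B] 29) (.k [.B] 29))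

def t0111 : T := .n t01110 t01111 (.n (.n .z (.n (.n .z (.n (.n .z (.k [.B] 27) (.k [.B] 24) (.k [.B] 24)) (.k [.B] 27) (.k [.B] 24) (.k [.B] 24)) (.k [.B] 24) (.k [.B] 24)) (.k [.B] 28) (.k [.B] 24) (.k [.B] 24)) (.k [.B] 24) (.k [.B] 24)) (.n (.k [.B] 28) .z (.k [.B] 29) (.k [.B] 29)) (.n (.k [.B] 5) (.n (.k [.B] 5) .z .z .z) .z .z) (.n (.k [.B] 5) (.n (.k [.B] 5) .z .z .z) .z .z)) (.n (.k [.B] 24) (.n (.k [.B] 24) .z (.n (.k [.B] 24) .z .z .z) (.n (.k [.B] 24) .z .z .z)) (.n (.k [.B] 5) .z .z .z) (.n (.k [.B] 5) .z .z .z))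

def t0112 : T := .n (.n .z (.n (.n .z (.n (.k [.B, .A, .A, .D] 33) (.k [.B, .A, .A, .D] 37) (.k [.B] 5) (.k [.B] 5)) (.k [.B] 5) (.k [.B] 5)) (.n (.n (.n (.k [.B, .A, .A, .D] 33) (.k [.B, .A, .A, .D] 37) (.k [.B] 5) (.k [.B] 5)) (.k [.B] 23) (.k [.B] 5) (.k [.B] 5)) (.k [.B] 24) (.k [.B] 5) (.k [.B] 5)) (.k [.B] 5) (.k [.B] 5)) (.k [.B] 5) (.k [.B] 5)) (.n (.n (.n (.n (.n (.k [.B, .A, .A, .D] 33) (.k [.B, .A, .A, .D] 37) (.k [.B] 5) (.k [.B] 5)) (.k [.B, .A, .A, .D] 37) (.k [.B] 5) (.k [.B] 5)) (.k [.B] 24) (.k [.B] 5) (.k [.B] 5)) (.k [.B] 24) (.k [.B] 5) (.k [.B] 5)) .z (.n (.k [.B] 5) (.n .z .z (.n .z (.n .z .z (.k [.B] 6) (.k [.B] 6)) (.k [.B] 6) (.k [.B] 6)) (.k [.B] 6)) (.k [.B] 6) (.k [.B] 6)) (.n (.k [.B] 5) (.n (.k [.B] 5) .z (.k [.B] 6) (.k [.B] 6)) (.k [.B] 6) (.k [.B] 6))) (.k [.B] 6) (.k [.B] 6)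

def t011 : T := .n t0110 t0111 t0112 (.n (.k [.B] 5) (.n (.k [.B] 5) .z (.n (.k [.B] 5) .z .z .z) (.n (.k [.B] 5) .z .z .z)) (.k [.B] 6) (.k [.B] 6))

def t01210 : T := .n (.n (.n .z (.n .z (.n (.n .z .z (.k [.B] 4) .z) (.k [.B] 4) (.k [.B] 4) .z) .z .z) .z .z) (.n (.n (.n .z (.k [.B] 4) (.n (.n .z (.k [.B] 4) .z .z) (.k [.B] 4) .z .z) .z) (.k [.B] 4) (.n .z (.k [.B] 4) (.k [.B] 4) .z) .z) .z (.k [.B] 5) .z) .z .z) (.k [.B] 5) (.n (.n .z (.n .z (.k [.B] 5) .z .z) .z .z) (.k [.B] 5) (.n .z (.n .z .z (.n .z (.k [.B] 5) .z .z) (.n .z (.k [.B] 5) .z .z)) .z .z) .z) (.n (.n .z (.n .z (.n .z (.k [.B] 5) .z .z) .z .z) .z .z) (.n (.n .z (.k [.B] 5) .z .z) .z (.k [.B] 5) .z) .z .z)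

def t0121 : T := .n t01210 .z (.n (.n .z (.k [.B] 5) .z .z) (.k [.B] 6) (.n .z (.k [.B] 6) .z .z) (.n .z (.k [.B] 6) .z .z)) (.n (.n .z (.n (.n .z (.k [.B] 5) (.n (.n .z (.k [.B] 5) .z .z) .z .z .z) (.n (.n .z (.k [.B] 5) .z .z) (.k [.B] 5) .z .z)) .z .z .z) .z .z) (.k [.B] 6) .z .z)

def t012 : T := .n (.n .z (.n .z (.n (.n .z (.n .z (.k [.B] 4) (.n .z (.k [.B] 4) .z .z) .z) .z .z) (.k [.B] 5) .z .z) .z .z) .z .z) t0121 .z .z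

def t01 : T := .n t010 t011 t012 (.n (.n .z (.n .z (.n .z (.n .z (.k [.B] 5) .z .z) .z .z) .z .z) .z .z) (.n (.n .z (.n (.n .z (.k [.B] 5) (.n (.n .z (.k [.B] 5) .z .z) (.k [.B] 5) .z .z) (.n (.n .z (.k [.B] 5) .z .z) (.k [.B] 5) .z .z)) .z .z .z) .z .z) .z .z .z) .z .z)

def t022 : T := .n (.n .z (.n (.n .z (.n (.k [.D] 20) (.k [.D] 21) (.n (.n .z (.n (.k [.D] 17) .z .z .z) .z .z) (.k [.D] 21) .z .z) (.n (.n .z (.n (.k [.D] 17) (.k [.D] 21) .z .z) .z .z) (.k [.D] 21) .z .z)) (.n (.k [.D] 17) .z .z .z) (.k [.D] 18)) (.n (.n (.k [.D] 21) .z (.k [.D] 22) (.k [.D] 22)) .z (.n (.k [.D] 22) .z .z .z) (.k [.D] 23)) .z .z) .z .z) (.n (.n (.n (.n (.k [.D] 21) .z (.k [.D] 22) (.k [.D] 22)) .z (.n (.k [.D] 22) .z .z .z) (.k [.D] 23)) .z .z .z) .z (.n .z (.n .z .z (.n .z (.k [.D] 29) (.k [.C] 29) (.k [.C] 29)) (.n .z (.k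 [.D] 29) (.k [.C] 29) (.k [.C] 29))) (.n .z (.k [.C] 29) (.k [.C] 29) .z) (.n .z (.k [.C] 29) .z .z)) (.n .z (.n .z .z .z (.k [.C] 29)) .z .z)) (.n .z (.n .z .z (.n .z (.n .z .z (.k [.D] 6) (.k [.D] 6)) (.k [.D] 6) (.k [.D] 6)) (.k [.D] 6)) (.k [.D] 6) (.k [.D] 6)) (.n .z (.n .z .z (.k [.D] 6) (.k [.D] 6)) (.k [.D] 6) .z)

def t023 : T := .n (.n .z (.n (.n .z (.n (.k [.D] 17) (.n (.n (.k [.D] 17) .z .z .z) .z .z .z) .z .z) .z .z) (.n (.n .z (.k [.D] 22) .z .z) (.n (.k [.D] 22) .z .z .z) .z .z) .z .z) .z .z) (.n (.n (.n (.n (.n (.k [.D] 17) .z .z .z) (.n (.n .z .z (.k [.D] 22) (.k [.D] 18)) .z (.k [.D] 18) (.k [.D] 18)) .z .z) (.n (.k [.D] 22) .z .z .z) .z .z) .z .z .z) .z .z .z) (.n .z .z .z (.n .z .z (.k [.C] 6) .z)) .z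

def t02 : T := .n (.n .z .z (.n .z (.n .z .z (.n .z (.n .z .z (.k [.D] 20) (.n .z .z (.k [.D] 20) .z)) (.n .z (.n .z .z (.k [.D] 17) (.k [.D] 17)) (.k [.D] 17) .z) (.n .z .z (.k [.D] 17) .z)) .z) .z .z) .z) (.n .z .z (.n .z (.n .z .z (.n .z (.n .z .z (.k [.D] 32) (.k [.D] 32)) (.k [.D] 32) (.n .z (.k [.D] 32) .z .z)) (.n .z (.k [.D] 32) .z .z)) (.n .z .z .z (.k [.D] 29)) (.n .z (.n .z .z (.k [.C] 32) .z) .z .z)) .z) t022 t023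

def t0303 : T := .n (.n .z .z (.n (.n .z .z (.n .z .z (.k [.C] 1) (.k [.C] 1)) (.n .z .z (.k [.C] 1) (.k [.C] 1))) .z (.n .z .z (.k [.C] 2) (.k [.C] 2)) (.n .z .z (.k [.C] 2) .z)) (.n (.n .z .z (.n .z .z (.k [.C] 1) (.k [.C] 1)) (.n .z .z (.k [.C] 1) (.k [.C] 1))) .z (.n (.n .z .z (.k [.C] 2) .z) .z .z (.k [.C] 2)) (.n .z .z (.k [.C] 2) .z))) .z (.n (.n .z .z .z (.k [.C] 3)) .z .z .z) (.n (.n .z .z (.k [.C] 3) (.k [.C] 3)) .z .z (.k [.C] 4))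

def t030 : T := .n .z .z (.n .z .z .z (.n .z .z (.n .z .z .z (.k [.C] 4)) .z)) t0303

def t03 : T := .n t030 (.n (.n .z .z .z (.n (.n .z .z (.n (.n .z .z (.n .z .z (.k [.D] 20) (.k [.D] 20)) (.n .z .z (.k [.D] 20) (.k [.D] 20))) .z (.n .z .z (.k [.D] 21) (.k [.D] 21)) (.k [.D] 21)) (.n (.n .z .z (.n .z .z (.k [.D] 20) (.k [.D] 20)) (.n .z .z (.k [.D] 20) (.k [.D] 20))) .z (.k [.D] 21) (.k [.D] 21))) .z .z .z)) .z .z .z) (.n (.n .z .z (.n .z .z .z (.k [.C] 5)) (.n (.k [.C] 4) .z (.k [.C] 5) (.k [.C] 5))) .z .z (.n (.k [.C] 5) .z (.k [.C] 6) .z)) (.n (.n .z .z (.n (.k [.C] 4) .z (.k [.C] 5) (.k [.C] 5)) (.n (.k [.C] 4) .z (.k [.C] 5) (.k [.C] 5))) .z (.n (.k [.C] 5) .z .z (.k [.C] 6)) (.n (.k [.C] 5) .z (.k [.C] 6) (.k [.C] 6)))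

def t0 : T := .n .z t01 t02 t03

def t100001 : T := .n (.k [.A] 40) (.k [.A] 44) (.n (.n .z (.n (.k [.A] 40) (.k [.A] 44) (.k [.A] 44) (.n (.n .z (.k [.A] 44) .z .z) (.k [.A] 44) .z .z)) (.n (.k [.A] 40) (.n .z .z (.n .z .z (.k [.A] 41) (.k [.A] 41)) (.k [.A, .B, .A] 43)) (.k [.A] 41) (.k [.A] 41)) (.n (.k [.A] 40) (.n (.n (.k [.A] 40) .z .z .z) .z (.k [.A] 41) (.k [.A] 41)) (.k [.A] 41) (.k [.A] 41))) (.k [.A] 44) (.k [.A] 41) (.k [.A] 41)) (.n (.n .z (.n (.k [.A] 40) (.k [.A] 44) .z .z) (.n (.k [.A] 40) .z (.k [.A] 41) (.k [.A] 41)) (.n (.k [.A] 40) .z (.k [.A] 41) .z)) (.k [.A] 44) (.k [.A] 41) (.k [.A] 41))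

def t1000020 : T := .n .z (.k [.A] 40) (.n (.n .z (.n (.n .z (.k [.A] 40) (.n .z (.k [.A] 40) (.n .z (.k [.A] 40) .z .z) (.n .z (.k [.A] 40) .z .z)) (.n .z (.k [.A] 40) .z .z)) .z (.n (.n .z (.k [.A] 40) .z .z) (.k [.A] 40) .z .z) (.n (.n .z (.k [.A] 40) .z .z) (.k [.A] 40) .z .z)) .z .z) (.k [.A] 40) (.k [.A] 39) (.k [.A] 39)) (.n (.n .z (.n (.n .z (.n .z (.k [.A] 40) .z .z) .z .z) (.k [.A] 40) .z .z) .z .z) (.k [.A] 40) (.k [.A] 39) (.k [.A] 39))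

def t100002 : T := .n t1000020 (.n (.n (.k [.A] 40) (.n (.k [.A] 40) .z .z (.k [.A] 41)) (.k [.A] 41) (.k [.A] 41)) .z (.k [.A] 41) (.k [.A] 41)) (.k [.A] 39) (.k [.A] 39)

def t10000 : T := .n (.n (.k [.A] 38) (.k [.A] 40) (.n (.k [.A] 38) (.k [.A] 40) (.n (.k [.A] 38) (.k [.A] 40) (.n .z (.n .z .z (.n .z (.k [.A] 40) .z .z) .z) .z .z) .z) (.n (.k [.A] 38) (.n (.k [.A] 38) .z (.k [.A] 40) .z) .z .z)) (.n (.k [.A] 38) (.k [.A] 40) (.n (.k [.A] 38) .z .z .z) (.n (.k [.A] 38) .z .z .z))) t100001 t100002 (.n (.n .z (.k [.A] 40) (.n (.n .z .z (.k [.A] 39) (.k [.A] 39)) .z (.k [.A] 39) (.k [.A] 39)) (.n (.n .z .z (.k [.A] 39) (.k [.A] 39)) .z (.k [.A] 39) (.k [.A] 39))) (.k [.A] 41) (.k [.A] 39) (.k [.A] 39))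

def t1000120 : T := .n .z (.n (.k [.A] 45) (.n (.k [.A] 45) .z (.k [.A] 46) (.k [.A] 46)) (.k [.A] 46) (.k [.A] 46)) (.n (.n .z (.n (.n .z (.k [.A] 45) (.n .z (.k [.A] 45) (.n .z (.k [.A] 45) .z .z) (.n .z (.k [.A] 45) .z .z)) (.n .z (.k [.A] 45) .z .z)) .z (.n (.n .z (.k [.A] 45) .z .z) (.k [.A] 45) .z .z) (.n (.n .z (.k [.A] 45) .z .z) (.k [.A] 45) .z .z)) .z .z) (.k [.A] 46) (.k [.A] 42) (.k [.A] 42)) (.n (.n .z (.n (.n .z (.n .z (.k [.A] 45) .z .z) .z .z) (.k [.A] 45) .z .z) .z .z) (.k [.A] 46) (.k [.A] 42) (.k [.A] 42))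

def t100012 : T := .n t1000120 (.n (.n (.n (.k [.A] 45) (.n (.k [.A] 45) .z .z (.k [.A] 46)) (.k [.A] 46) (.k [.A] 46)) .z (.k [.A] 46) (.k [.A] 46)) .z (.k [.A] 46) (.k [.A] 46)) (.k [.A] 42) (.k [.A] 42)

def t10001 : T := .n (.n (.k [.A] 44) (.k [.A] 45) (.n (.k [.A] 44) (.k [.A] 45) (.n (.k [.A] 41) (.k [.A] 45) (.n .z (.n .z .z (.n .z (.k [.A] 45) .z .z) .z) .z .z) .z) (.n (.k [.A] 41) (.n (.k [.A] 41) .z (.k [.A] 45) .z) .z .z)) (.n (.k [.A] 44) (.k [.A] 45) (.n (.k [.A] 41) .z .z .z) (.n (.k [.A] 41) .z .z .z))) (.n (.n (.k [.A] 45) (.k [.A] 47) (.n (.k [.A] 45) (.k [.A] 47) .z .z) (.n .z (.k [.A, .B, .B] 33) .z .z)) (.n (.k [.A] 47) (.k [.A] 51) (.n (.n .z (.n (.k [.A] 47) .z .z .z) .z .z) (.k [.A] 51) (.k [.A] 48) (.k [.A] 48)) (.n .z (.k [.A, .B, .B, .B] 24) (.k [.A] 48) (.k [.A] 48))) (.n (.n .z (.k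 [.A] 47) .z .z) (.n (.n (.k [.A] 47) .z .z .z) .z (.k [.A] 48) (.k [.A] 48)) .z .z) (.n .z (.k [.A] 48) .z .z)) t100012 (.n (.n .z (.k [.A] 46) (.n (.n .z .z (.k [.A] 42) (.k [.A] 42)) .z (.k [.A] 42) (.k [.A] 42)) (.n (.n .z .z (.k [.A] 42) .z) .z (.k [.A] 42) .z)) (.k [.A] 46) (.k [.A] 42) (.k [.A] 42))

def t10002 : T := .n (.n .z (.n (.k [.A] 41) (.n (.k [.A] 41) (.n (.k [.A] 41) .z (.k [.A] 42) (.k [.A] 42)) (.k [.A] 42) (.k [.A] 42)) (.k [.A] 42) (.k [.A] 42)) (.n (.k [.A] 39) (.k [.A] 42) (.n .z (.k [.A] 42) .z .z) (.n .z (.k [.A] 42) .z .z)) (.n (.k [.A] 39) (.k [.A] 42) .z .z)) (.n (.n (.n (.k [.A] 41) (.n (.k [.A] 41) .z (.k [.A] 42) (.k [.A] 42)) (.k [.A] 42) (.k [.A] 42)) (.n (.n (.k [.A, .B, .B, .A, .D] 33) .z .z (.k [.A] 42)) .z .z (.k [.A] 42)) (.k [.A] 42) (.k [.A] 42)) .z (.k [.A] 42) (.k [.A]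 42)) (.n (.n .z (.k [.A] 42) .z .z) (.k [.A] 42) (.k [.A] 42) (.n .z (.k [.A] 42) .z .z)) (.n (.n .z (.k [.A] 42) .z .z) (.k [.A] 42) .z .z)

def t1000 : T := .n t10000 t10001 t10002 (.n (.n .z (.k [.A] 42) (.n (.k [.A] 39) .z (.n (.k [.A] 35) .z .z .z) (.n (.k [.A] 35) .z .z .z)) (.n (.k [.A] 39) .z (.n (.k [.A] 35) .z .z .z) (.n (.k [.A] 35) .z .z .z))) (.k [.A] 42) .z .z)

def t10010120 : T := .n .z (.n (.n .z (.k [.A] 52) (.n (.k [.A] 48) (.k [.A] 52) (.k [.A] 52) (.n (.k [.A] 48) (.k [.A] 52) (.k [.A, .B] 45) .z)) (.n (.k [.A] 48) (.k [.A] 52) (.n (.k [.A] 48) .z .z .z) .z)) .z (.k [.A] 52) (.n (.n .z (.k [.A] 52) .z .z) (.k [.A] 52) .z .z)) (.n (.n .z (.n (.k [.A] 48) .z (.n (.k [.A] 48) (.n (.k [.A] 48) .z .z .z) .z .z) (.n (.k [.A] 48) (.n (.k [.A] 48) .z .z .z) .z .z)) .z .z) (.n .z .z (.n .z .z (.k [.A]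 49) (.k [.A] 49)) (.k [.A, .B, .B] 35)) (.k [.A] 49) (.k [.A] 49)) (.n (.n .z (.n (.k [.A] 48) (.n (.k [.A] 48) .z .z .z) .z .z) .z .z) (.n (.n (.n (.k [.A] 48) .z .z .z) .z .z .z) .z (.k [.A] 49) (.k [.A] 49)) (.k [.A] 49) (.k [.A] 49))

def t1001012 : T := .n t10010120 .z (.k [.A] 49) (.k [.A] 49)

def t1001013 : T := .n (.n .z (.n (.n .z (.k [.A] 52) (.n (.k [.A] 48) .z (.n (.k [.A] 48) (.n (.k [.A] 48) .z .z .z) .z .z) .z) (.n (.k [.A] 48) (.n (.k [.A] 48) .z (.n (.k [.A] 48) .z .z .z) (.n (.k [.A] 48) .z .z .z)) .z .z)) (.k [.A] 52) .z .z) (.n (.n .z .z (.k [.A] 49) (.k [.A] 49)) .z (.k [.A] 49) (.k [.A] 49)) (.n (.n .z .z (.k [.A] 49) .z) .z (.k [.A] 49) .z)) (.k [.A] 53) (.k [.A] 49) (.k [.A] 49)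

def t100101 : T := .n (.k [.A] 51) (.n (.k [.A] 52) (.n (.k [.A] 54) (.n (.k [.A] 54) .z (.n (.k [.A] 54) .z .z .z) .z) (.n (.k [.A] 54) .z .z (.k [.A] 55)) (.n .z .z (.k [.A] 55) (.k [.A] 55))) (.n (.n .z (.n (.k [.A] 52) .z .z .z) .z .z) (.n (.k [.A] 54) .z (.k [.A] 55) (.k [.A] 55)) .z .z) .z) t1001012 t1001013

def t10010 : T := .n (.n (.k [.A] 45) (.n (.k [.A] 47) (.k [.A] 51) (.n (.k [.A] 47) (.n (.n (.k [.A] 47) .z .z .z) .z .z .z) .z .z) (.n (.k [.A] 47) .z .z .z)) (.n (.n .z (.n .z (.k [.A] 47) .z .z) .z .z) (.n (.k [.A] 47) .z .z .z) .z .z) .z) t100101 (.n (.n .z (.k [.A] 48) (.k [.A] 46) (.k [.A] 46)) (.n (.n (.k [.A] 48) (.n (.n (.k [.A] 48) .z .z (.k [.A] 49)) .z .z (.k [.A] 49)) (.k [.A] 49) (.k [.A] 49)) .z (.k [.A] 49) (.k [.A] 49)) (.n (.n .z (.k [.A] 49) .z .z) (.k [.A] 49) (.n .z (.k [.A] 49)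 .z .z) (.n .z (.k [.A] 49) .z .z)) (.n (.n .z (.k [.A] 49) .z .z) (.k [.A] 49) .z .z)) (.n (.k [.A] 46) (.k [.A] 49) .z .z)

def t100110 : T := .n (.n (.k [.A] 52) (.n (.k [.A] 52) (.n (.k [.A] 54) .z (.n (.k [.A] 54) .z .z .z) .z) (.n (.k [.A] 54) (.n (.k [.A] 54) .z .z .z) .z .z) .z) (.n (.k [.A] 52) .z .z .z) .z) (.n (.n (.k [.A] 54) .z (.n .z (.k [.A] 58) .z .z) (.n .z (.k [.A] 58) .z .z)) (.n (.k [.A] 58) .z (.n (.k [.A] 59) (.n (.k [.A] 59) .z .z .z) .z .z) .z) (.n (.n .z (.k [.A] 58) .z .z) .z (.k [.A] 56) (.k [.A] 56)) (.n .z .z (.k [.A] 56) (.k [.A] 56))) (.n (.n .z (.n (.n .z (.k [.A] 55) .z .z) (.k [.A] 55) .z .z) .z .z) (.n (.k [.A] 55) .z (.k [.A] 56) (.k [.A] 56)) .z .z) (.n .z (.k [.A] 56) .z .z)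

def t1001111 : T := .n (.n .z .z (.n .z (.n (.n .z .z (.k [.A] 64) (.k [.A] 64)) .z (.k [.A] 64) (.k [.A] 64)) .z .z) (.n .z (.k [.A] 64) .z .z)) (.n .z .z (.n .z .z .z (.k [.A] 66)) (.n .z .z (.k [.A] 66) (.k [.A] 66))) (.n (.n .z (.n (.k [.A] 64) .z .z .z) .z .z) (.n .z .z (.n (.n .z (.k [.A] 65) .z .z) (.k [.A] 66) .z .z) (.n (.n .z (.k [.A] 65) .z .z) (.k [.A] 66) .z .z)) .z .z) .z

def t100111 : T := .n (.n (.n (.k [.A] 58) .z (.n (.k [.A] 59) .z .z .z) .z) (.n .z .z (.n .z .z .z (.k [.A] 61)) (.n .z .z (.k [.A] 61) (.k [.A] 61))) (.n .z (.n .z .z (.n (.k [.A] 60) (.k [.A] 61) .z .z) (.n (.k [.A] 60) (.k [.A] 61) .z .z)) .z .z) (.n .z (.n .z .z (.n (.k [.A] 60) .z .z .z) (.n (.k [.A] 60) .z .z .z)) .z .z)) t1001111 (.n (.n .z (.n (.n .z (.k [.A] 61) .z .z) .z .z .z) .z .z) .z (.k [.A] 57) (.k [.A] 57)) (.n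 .z (.k [.A] 62) (.k [.A] 57) (.k [.A] 57))

def t10011 : T := .n t100110 t100111 (.n (.n .z (.n (.k [.A] 56) (.n (.k [.A] 56) .z .z .z) .z .z) .z .z) (.n (.n (.n (.k [.A] 56) .z .z .z) .z .z .z) .z (.k [.A] 57) (.k [.A] 57)) .z .z) (.n .z (.k [.A] 57) .z .z)

def t1001 : T := .n t10010 t10011 (.n (.n .z (.n (.k [.A] 49) (.n (.k [.A] 49) .z (.k [.A] 50) (.k [.A] 50)) (.k [.A] 50) (.k [.A] 50)) (.n (.n .z (.k [.A] 49) .z .z) (.k [.A] 50) (.k [.A] 43) (.k [.A] 43)) (.n (.n .z (.k [.A] 49) .z .z) (.k [.A] 50) (.k [.A] 43) (.k [.A] 43))) (.n (.n (.n (.k [.A] 49) (.n (.k [.A, .B, .B, .B, .D] 32) .z .z (.k [.A] 50)) (.k [.A] 50) (.k [.A] 50)) .z (.k [.A] 50) (.k [.A] 50)) .z (.k [.A] 50) (.k [.A] 50)) (.k [.A] 43) (.k [.A] 43)) (.n (.n .z (.k [.A] 50) (.n (.n .z .z (.k [.A] 43) (.k [.A] 43)) .z (.k [.A] 43) (.k [.A]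 43)) (.n (.n .z .z (.k [.A] 43) .z) .z (.k [.A] 43) .z)) (.k [.A] 50) (.k [.A] 43) (.k [.A] 43))

def t1002 : T := .n (.n .z (.n (.k [.A] 42) (.n (.n (.k [.A] 42) (.k [.A, .B, .B, .D] 32) (.k [.A] 43) (.k [.A] 43)) (.n (.k [.A, .B, .B, .D] 33) .z (.k [.A] 43) (.k [.A] 43)) (.k [.A] 43) (.k [.A] 43)) (.k [.A] 43) (.k [.A] 43)) (.k [.A] 43) (.n (.n .z (.k [.A] 42) .z .z) (.k [.A] 43) (.k [.A] 36) (.k [.A] 36))) (.n (.n (.n (.n (.k [.A] 42) (.k [.A, .B, .B, .D] 32) (.k [.A] 43) (.k [.A] 43)) (.n (.k [.A, .B, .B, .D] 32) .z (.k [.A] 43) (.k [.A] 43)) (.k [.A] 43) (.k [.A] 43)) (.n (.n (.k [.A, .B, .B, .D] 33) .z .z (.k [.A] 43)) .z .z (.k [.A] 43)) (.k [.A] 43) (.k [.A] 43)) .z (.k [.A] 43) (.k [.A] 43)) (.k [.A] 36) (.k [.A] 36)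

def t100 : T := .n t1000 t1001 t1002 (.n (.n .z (.k [.A] 43) (.n (.n .z .z (.k [.A] 36) (.k [.A] 36)) .z (.k [.A] 36) (.k [.A] 36)) (.n (.n .z .z (.k [.A] 36) (.k [.A] 36)) .z (.k [.A] 36) (.k [.A] 36))) (.k [.A] 43) (.k [.A] 36) (.k [.A] 36))

def t101000 : T := .n (.n (.k [.A] 51) (.n .z .z (.n (.k [.A] 52) .z .z .z) (.n (.k [.A] 52) .z .z .z)) (.n (.k [.A] 52) (.n (.k [.A] 52) .z .z .z) .z .z) (.n (.k [.A] 52) .z .z .z)) (.n (.n .z .z (.n .z .z (.k [.A] 55) (.k [.A] 55)) (.n .z .z (.k [.A] 55) (.k [.A] 55))) (.n (.k [.A] 58) (.k [.A] 59) (.n (.k [.A] 58) (.k [.A] 59) .z .z) .z) (.n (.n .z (.n .z (.k [.A] 58) .z .z) (.k [.A] 55) (.k [.A] 55)) (.n (.k [.A] 58) .z .z .z) .z .z) (.n (.k [.A] 55) .z .z .z)) (.n (.n .z (.n .z (.k [.A] 55) .z .z) (.k [.A] 53) (.k [.A] 53)) (.n (.n (.n .z (.k [.A] 55) .z .z) (.k [.A]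 55) .z .z) .z .z .z) (.n (.k [.A] 49) .z .z .z) (.n (.k [.A] 49) .z .z .z)) (.n (.k [.A] 53) .z (.n (.k [.A] 49) .z .z .z) (.n (.k [.A] 49) .z .z .z))

def t1010010 : T := .n (.n .z (.k [.A] 59) (.n (.k [.A] 58) (.k [.A] 59) .z .z) (.n (.k [.A] 58) .z .z .z)) (.n .z (.n .z (.k [.A, .B] 58) (.n (.n .z (.k [.A, .B] 58) .z .z) (.k [.A, .B] 58) .z .z) (.n .z (.k [.A, .B] 58) .z .z)) (.n (.n .z (.k [.A, .B] 54) (.n (.n .z (.k [.A, .B] 54) .z .z) (.k [.A, .B] 54) .z .z) (.n (.n .z (.n .z (.k [.A, .B] 54) .z .z) .z .z) (.k [.A, .B] 54) .z .z)) .z .z .z) (.n (.n .z (.k [.A, .B] 54) .z .z) .z .z .z)) (.n .z .z (.k [.A] 56) (.k [.A] 56)) (.n .z .z (.k [.A] 56) (.k [.A] 56))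

def t1010011 : T := .n (.n (.n .z (.k [.A, .B] 58) (.n .z (.k [.A, .B] 58) .z .z) .z) (.n (.k [.A] 63) (.n .z .z (.n .z (.k [.A, .B, .B] 54) .z .z) (.n .z (.k [.A, .B, .B] 54) .z .z)) (.n (.k [.A] 63) .z .z .z) .z) (.n (.n .z (.k [.A, .B] 58) .z .z) .z .z .z) .z) (.n (.n (.k [.A, .B, .B, .B] 45) .z (.n (.n .z (.k [.A, .B, .B] 54) .z .z) (.n .z .z (.k [.A, .B, .B] 55) (.k [.A, .B, .B] 55)) .z .z) (.n .z (.k [.A, .B, .B] 55) .z .z)) (.n (.k [.A, .B, .B, .B] 51) .z (.n (.n .z (.k [.A, .B] 63) .z .z) (.n .z .z (.k [.A, .B] 64) (.k [.A, .B] 64)) .z .z) (.n .z (.k [.A, .B] 64) .z .z)) (.n (.n .z (.k [.A, .B, .B, .B] 48) .z .z) .z .z .z) .z) (.n (.n .z (.n .z (.k [.A] 64) .z .z) .z .z) (.n (.k [.A, .B, .B, .B] 46) .z .z .z) .z .z) .z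

def t101001 : T := .n t1010010 t1010011 (.n (.n .z (.n .z (.k [.A] 61) .z .z) (.n (.k [.A] 56) .z .z .z) (.n (.k [.A] 56) .z .z .z)) (.n (.n (.n .z (.k [.A] 61) .z .z) .z .z .z) .z .z .z) .z .z) (.n (.n .z .z (.n (.k [.A] 56) .z .z .z) (.n (.k [.A] 56) .z .z .z)) .z .z .z)

def t10100 : T := .n t101000 t101001 (.n (.n .z (.k [.A] 56) .z .z) (.n (.n (.k [.A] 56) (.n (.k [.A] 56) .z .z .z) .z .z) .z .z .z) .z .z) .z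

def t10101001 : T := .n (.n (.k [.A] 63) (.n .z (.n .z .z (.n (.k [.A, .B, .B] 54) .z .z .z) .z) (.n (.k [.A, .B, .B] 54) .z .z .z) (.n (.k [.A, .B, .B] 54) .z .z .z)) (.n .z (.n (.n .z (.k [.A, .B, .B] 54) .z .z) .z .z .z) .z .z) .z) (.n (.n .z (.k [.A, .B, .B] 58) (.n .z (.k [.A, .B, .B] 58) .z .z) .z) (.n (.k [.A, .B] 63) (.n .z (.k [.A, .B, .B, .B] 54) (.n (.k [.A, .B] 63) (.k [.A, .B, .B, .B] 54) .z .z) .z) (.n (.k [.A, .B] 63) .z .z .z) .z) .z .z) (.n (.n .z (.k [.A, .B, .B] 55) (.k [.A] 64) (.k [.A] 64)) (.n (.n (.k [.A, .B, .B] 55) .z .z .z) .z .z .z) .z .z) (.n (.k [.A] 64) .z .z .z)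

def t1010100 : T := .n (.n (.n .z (.k [.A, .B] 58) .z .z) (.n (.k [.A, .B] 58) (.k [.A] 63) (.n (.k [.A, .B] 58) (.k [.A] 63) .z .z) .z) (.n .z (.n (.k [.A, .B] 58) .z .z .z) (.k [.A] 61) (.k [.A] 61)) (.n .z .z (.k [.A] 61) (.k [.A] 61))) t10101001 (.n (.n .z .z .z (.k [.A] 61)) (.n (.k [.A, .B] 60) .z .z .z) .z .z) (.n (.k [.A] 61) .z .z .z)

def t10101010 : T := .n (.n (.n (.k [.A, .B, .B] 54) (.k [.A, .B, .B] 58) (.n .z (.k [.A, .B, .B] 58) .z .z) .z) (.n (.k [.A, .B] 63) (.n (.k [.A, .B] 63) .z (.n (.k [.A, .B] 63) (.k [.A, .B, .B, .B] 54) .z .z) .z) (.n (.k [.A, .B] 63) .z .z .z) .z) .z .z) (.n (.n (.n (.k [.A, .B] 63) (.k [.A, .B, .B, .B] 54) (.n (.k [.A, .B] 63) (.k [.A, .B, .B, .B] 54) .z .z) .z) (.n (.k [.A, .B, .B, .B] 54) (.k [.A, .B, .B, .B] 58) (.n .z (.k [.A, .B, .B, .B] 58) .z .z) .z) (.n (.n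 .z (.k [.A, .B, .B, .B] 54) .z .z) .z .z .z) .z) (.n (.n (.k [.A, .B, .B, .B] 58) .z (.n (.k [.A, .B, .B, .B] 58) .z .z .z) .z) .z (.n (.n .z (.k [.A, .B, .B] 63) .z .z) .z .z .z) .z) .z .z) (.n (.n .z (.n .z (.k [.A, .B] 64) .z .z) .z .z) (.n (.n (.k [.A, .B] 64) .z .z .z) .z .z .z) (.k [.A] 66) (.k [.A] 66)) (.n .z .z (.k [.A] 66) (.k [.A] 66))

def t1010101 : T := .n t10101010 (.n (.n (.n (.k [.A, .B, .B, .B] 58) .z .z .z) .z .z .z) .z .z .z) (.n (.n .z .z (.k [.A] 66) (.k [.A] 66)) .z .z (.n (.k [.A] 62) .z .z .z)) (.n (.k [.A] 66) .z (.n (.k [.A] 62) .z .z .z) (.n (.k [.A] 62) .z .z .z))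

def t1010102 : T := .n (.n .z (.n .z (.n .z (.k [.A] 66) (.k [.A] 62) (.k [.A] 62)) (.k [.A] 62) (.k [.A] 62)) (.k [.A] 62) (.k [.A] 62)) (.n (.n (.n .z (.k [.A] 66) (.k [.A] 62) (.k [.A] 62)) (.k [.A] 66) (.k [.A] 62) (.k [.A] 62)) .z (.n (.k [.A] 62) .z .z .z) (.n (.k [.A] 62) (.n (.n (.k [.A] 62) .z .z .z) .z .z .z) .z .z)) (.n (.k [.A] 57) (.n (.k [.A] 57) .z .z .z) .z .z) (.n (.k [.A] 57) (.n (.k [.A] 57) .z .z .z) .z .z)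

def t101010 : T := .n t1010100 t1010101 t1010102 (.n (.k [.A] 62) (.n (.k [.A] 62) .z (.n (.k [.A] 62) .z .z .z) (.n (.k [.A] 62) .z .z .z)) (.n (.k [.A] 57) .z .z .z) (.n (.k [.A] 57) .z .z .z))

def t10101 : T := .n t101010 .z .z .z

def t101020 : T := .n .z (.n (.k [.A] 57) (.n (.k [.A] 57) (.n (.k [.A] 57) .z (.n (.n .z (.n (.k [.A] 50) .z .z .z) .z .z) .z .z .z) .z) (.n (.k [.A] 50) .z .z .z) .z) (.n (.k [.A] 50) (.n (.k [.A] 50) .z .z .z) .z .z) (.n (.k [.A] 50) (.n (.k [.A] 50) .z .z .z) .z .z)) (.n (.k [.A] 50) .z .z .z) (.n (.k [.A] 50) (.n (.k [.A] 50) .z .z .z) .z .z)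

def t10102 : T := .n t101020 (.n (.n (.n (.k [.A] 57) (.n (.k [.A] 57) .z (.n (.k [.A] 50) (.n (.n (.k [.A] 50) .z .z .z) .z .z .z) .z .z) (.n (.k [.A] 50) .z .z .z)) (.n (.k [.A] 50) .z .z .z) (.n (.k [.A] 50) .z .z .z)) (.n (.n (.n (.k [.A] 57) .z .z (.n (.k [.A] 50) .z .z .z)) .z .z .z) .z .z .z) .z .z) .z .z .z) .z .z

def t10103 : T := .n (.n .z (.n (.k [.A] 50) (.n (.k [.A] 50) (.n (.k [.A] 50) .z .z .z) .z .z) (.n (.k [.A] 50) .z .z .z) .z) (.n (.k [.A] 50) .z (.n (.k [.A] 43) .z .z .z) (.n (.k [.A] 43) .z .z .z)) (.n (.k [.A] 50) .z (.n (.k [.A] 43) .z .z .z) (.n (.k [.A] 43) .z .z .z))) (.n (.n (.n (.k [.A] 50) (.n (.k [.A] 50) (.n (.k [.A] 50) .z .z .z) .z .z) .z .z) (.n (.n (.n (.k [.A] 50) .z .z .z) .z .z .z) .z .z .z) .z .z) .z .z .z) .z .z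

def t1010 : T := .n t10100 t10101 t10102 t10103

def t101 : T := .n t1010 (.n (.n (.n (.n (.n .z .z (.n (.n .z .z (.k [.A] 67) (.k [.A] 67)) .z .z .z) .z) .z .z .z) .z .z .z) .z .z .z) .z .z .z) .z .z

def t10201 : T := .n (.n .z (.n (.k [.A] 43) (.n (.k [.A] 43) (.n (.k [.A] 43) .z .z .z) (.n (.k [.A] 36) .z .z .z) .z) (.n (.k [.A] 36) .z .z .z) (.n (.k [.A] 36) (.n (.k [.A] 36) .z .z .z) .z .z)) (.n (.k [.A] 36) .z (.n (.k [.A] 36) .z .z .z) (.n (.k [.A] 36) .z .z .z)) (.n (.k [.A] 36) .z (.n (.k [.A] 36) .z .z .z) .z)) (.n (.n (.n (.k [.A] 43) (.n (.k [.A] 43) (.n (.k [.A] 43) .z .z .z) (.n (.k [.A] 36) .z .z .z) .z) (.n (.k [.A] 36) .z .z .z) .z) (.n (.n (.n (.k [.A] 43) .z (.n (.k [.A] 36) .z .z .z) (.n (.k [.A] 36) .z .z .z)) .z .z .z) .z .z .z) .z .z) .z .z .z) .z .z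

def t1020 : T := .n .z t10201 (.n (.n .z (.n (.k [.A] 36) .z (.n (.k [.A] 36) (.n (.k [.A] 36) .z .z .z) .z .z) (.n (.k [.A] 36) (.n (.k [.A] 36) .z .z .z) .z .z)) .z .z) .z .z .z) (.n (.n .z (.n (.k [.A] 36) (.n (.k [.A] 36) .z .z .z) .z .z) .z .z) (.n (.n (.n (.k [.A] 36) .z .z .z) .z .z .z) .z .z .z) .z .z)

def t102 : T := .n t1020 (.n (.n (.n (.n (.k [.A] 43) .z .z .z) .z .z .z) .z .z .z) .z .z .z) .z .z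

def t1030 : T := .n .z (.n (.n .z (.n (.k [.A] 36) (.n (.k [.A] 36) .z .z .z) .z .z) (.n (.k [.A] 36) .z (.n (.k [.A] 36) (.n (.k [.A] 36) .z .z .z) .z .z) .z) (.n (.k [.A] 36) (.n (.k [.A] 36) .z (.n (.k [.A] 36) .z .z .z) (.n (.k [.A] 36) .z .z .z)) .z .z)) (.n (.n (.n (.k [.A] 36) .z .z .z) .z .z .z) .z .z .z) .z .z) (.n (.n .z .z (.n (.k [.A] 7) .z .z .z) (.n (.k [.A] 7) .z .z .z)) .z .z .z) (.n (.n .z .z (.n (.k [.A] 7) .z (.n (.k [.A] 7) .z .z .z) (.n (.k [.A] 7) .z .z .z)) (.n (.k [.A] 7) .z (.n (.k [.A] 7) .z .z .z) (.n (.k [.A] 7) .z .z .z))) .z .z .z)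

def t103 : T := .n t1030 (.n (.n (.n (.n (.k [.A] 36) .z .z .z) .z .z .z) .z .z .z) .z .z .z) .z .z

def t10 : T := .n t100 t101 t102 t103

def t121 : T := .n .z .z (.n .z (.n .z .z (.n .z (.n .z .z (.n .z .z (.k [.D, .B, .B, .B, .B] 70) (.k [.D, .B, .B, .B, .B] 70)) (.n .z .z .z (.k [.D, .B, .B, .B, .B] 70))) (.n .z .z (.k [.D, .B, .B, .B] 70) .z) .z) (.n .z (.n .z .z (.k [.D] 66) .z) (.k [.D, .B, .B, .B] 70) .z)) (.n .z (.n .z .z (.k [.D, .B, .B] 70) (.k [.D, .B, .B] 70)) .z (.k [.D, .B] 70)) (.n .z (.n .z .z (.k [.D, .B, .B] 70) .z) (.k [.D, .B] 70) .z)) (.n .z .z (.n .z .z .z (.k [.D] 50)) .z)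

def t122 : T := .n (.n .z (.n (.n .z (.n (.k [.D] 45) (.n (.k [.D] 45) .z (.k [.D, .B, .B, .A, .B, .A] 69) (.k [.D, .B, .B, .A, .B, .A] 69)) (.k [.D, .B, .B, .A, .B, .A] 68) (.k [.D, .B, .B, .A, .B, .A] 68)) (.n .z (.k [.D, .B, .B, .A, .B, .A] 68) .z .z) (.n .z (.k [.D] 46) .z .z)) (.n (.n (.k [.D] 45) .z .z .z) .z .z (.k [.D, .B, .B, .A] 69)) .z .z) .z .z) (.n (.n (.n (.n (.k [.D] 45) .z .z .z) .z .z (.k [.D] 46)) .z .z .z) .z (.n .z (.k [.D, .B] 70) (.k [.D] 70) (.k [.D] 70)) (.n .z (.k [.D, .B] 70) (.k [.D] 70) (.k [.D] 70))) (.n .z (.k [.D] 70) (.k [.D] 69) (.k [.D] 69)) (.n .z (.k [.D] 70) (.k [.D] 69) .z)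

def t123 : T := .n (.n .z (.n (.n .z (.n (.n .z (.k [.D] 45) .z .z) (.k [.D, .B, .B, .A, .B, .A] 7) .z .z) .z .z) (.n (.n (.k [.D] 45) .z .z .z) .z .z .z) .z .z) .z .z) (.n (.n (.n (.n (.k [.D] 45) (.n (.n .z .z (.n .z .z (.k [.D] 46) (.k [.D] 46)) (.k [.D] 46)) .z (.k [.D] 46) (.k [.D] 46)) .z .z) .z .z .z) .z .z .z) .z .z (.k [.D] 43)) (.n .z .z .z (.k [.D] 69)) .z

def t12 : T := .n (.n .z .z (.n .z (.n .z .z (.n .z (.n .z .z (.k [.D] 45) (.k [.D] 45)) (.n .z (.k [.D] 45) (.k [.D, .B, .A, .B] 70) .z) (.n .z (.k [.D] 45) (.k [.D, .B, .A] 70) .z)) (.n .z (.k [.D] 45) (.k [.D, .B, .A, .B] 70) .z)) (.n .z (.n .z .z (.k [.D, .B, .A] 70) .z) .z .z) .z) .z) t121 t122 t123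

def t13 : T := .n (.n .z .z (.n (.n .z .z (.n (.k [.D] 38) .z (.k [.D, .B, .A, .B, .A] 7) (.k [.D, .B, .A, .B, .A] 7)) (.n (.k [.D] 38) .z (.k [.D, .B, .A, .B, .A] 7) (.k [.D, .B, .A, .B, .A] 7))) .z (.n .z .z (.k [.D, .B, .A] 36) (.k [.D, .B, .A] 36)) (.n .z .z (.k [.D, .B, .A] 36) .z)) (.n (.n .z .z (.n (.k [.D] 38) .z (.k [.D] 39) (.k [.D] 39)) (.k [.D, .B, .A, .B, .A] 7)) .z (.n (.n .z .z (.k [.D] 39) (.k [.D] 39)) .z .z (.k [.D, .B, .A] 7)) (.k [.D, .B, .A] 36))) (.n (.n .z .z .z (.n (.n .z .z (.n (.n .z .z (.n .z .z (.k [.D] 45) (.k [.D] 45)) (.n .z .z (.k [.D] 45) (.k [.D] 45))) .z (.n .z .z (.k [.D] 47) (.k [.D] 47)) (.k [.D] 47)) (.n (.n .z .z (.n .z .z (.k [.D] 45) (.k [.D] 45)) (.n .z .z (.k [.D] 45) (.k [.D] 45))) .z (.k [.D] 47) (.k [.D] 47))) .z .z .z)) .z .z .z) (.n (.n .z .z (.n .z .z .z (.k [.C]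 43)) (.n (.k [.C] 42) .z (.k [.C] 43) (.k [.D] 36))) .z .z (.n (.k [.C] 43) .z (.k [.D] 36) .z)) (.n (.n .z .z (.n (.n .z .z (.n .z .z (.k [.D] 36) (.k [.D] 36)) (.n (.n .z (.k [.C] 42) .z .z) .z (.k [.D] 36) (.k [.D] 36))) .z (.k [.D] 36) (.k [.D] 36)) (.n (.n .z .z (.k [.D] 36) (.k [.D] 36)) .z (.k [.D] 36) (.k [.D] 36))) .z (.k [.D] 36) (.k [.D] 36))

def t1 : T := .n t10 .z t12 t13

def t201010 : T := .n (.k [.A] 7) (.n (.k [.A] 7) (.n (.k [.A] 7) (.n (.k [.A] 7) .z .z .z) (.n (.k [.A] 7) .z .z .z) .z) (.n (.k [.A] 7) .z .z (.n (.k [.A] 7) .z .z .z)) (.n (.k [.A] 7) .z (.n (.k [.A] 7) .z .z .z) (.n (.k [.A] 7) .z .z .z))) (.n (.k [.A] 7) (.n (.k [.A] 7) .z (.n (.k [.A] 7) .z .z .z) (.n (.k [.A] 7) (.n (.n (.k [.A] 7) .z .z .z) .z .z .z) .z .z)) (.n (.k [.A] 7) (.n (.k [.A] 7) .z (.n .z (.n .z .z (.k [.C] 32)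 (.k [.C] 32)) (.k [.C] 32) (.k [.C] 32)) (.n .z (.n .z .z (.k [.C] 32) .z) (.k [.C] 32) (.k [.C] 32))) (.k [.C] 32) (.k [.C] 32)) (.n (.k [.A] 7) (.n (.k [.A] 7) .z (.k [.C] 32) (.k [.C] 32)) (.k [.C] 32) .z)) (.n (.k [.A] 7) (.n (.k [.A] 7) .z (.n (.k [.A] 7) .z .z .z) (.n (.k [.A] 7) .z .z .z)) (.n (.k [.A] 7) .z .z (.k [.C] 32)) (.n (.k [.A] 7) .z (.k [.C] 32) (.k [.C] 32)))

def t20101 : T := .n t201010 (.n (.n (.n (.k [.A] 7) (.n (.k [.A] 7) .z (.n (.k [.A] 7) .z .z .z) .z) (.n (.k [.A] 7) .z .z .z) .z) .z .z .z) .z .z .z) (.n (.n .z (.n (.n .z .z (.n (.n .z .z (.n .z .z (.k [.C] 32) (.k [.C] 32)) (.n .z .z (.k [.C] 32) (.k [.C] 32))) (.n .z .z .z (.n .z .z .z (.k [.C] 32))) (.k [.C] 32) (.k [.C] 32)) (.n (.n .z .z (.k [.C] 32) (.k [.C] 32)) (.n .z .z (.k [.C] 32) (.k [.C] 32)) (.k [.C] 32) (.k [.C] 32)))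 .z (.k [.C] 32) (.k [.C] 32)) (.k [.C] 32) (.k [.C] 32)) .z (.k [.C] 33) (.k [.C] 33)) (.n (.n .z (.n (.n .z .z (.k [.C] 32) (.k [.C] 32)) (.n (.n .z .z .z (.k [.C] 32)) .z .z .z) (.k [.C] 32) .z) (.k [.C] 32) (.k [.C] 32)) (.n (.n (.n (.n .z .z .z (.k [.C] 32)) .z .z .z) .z (.k [.C] 32) (.k [.C] 32)) .z (.k [.C] 33) (.k [.C] 33)) (.k [.C] 33) (.k [.C] 33))

def t20102 : T := .n (.n .z (.k [.C] 32) (.n (.k [.A] 7) (.k [.C] 32) (.n .z (.k [.C] 32) .z .z) (.n .z (.k [.C] 32) .z .z)) (.n (.k [.A] 7) (.k [.C] 32) .z .z)) (.n (.k [.C] 32) .z (.k [.C] 33) (.n (.k [.C] 32) (.k [.C] 33) (.k [.C] 33) .z)) (.n (.n .z (.k [.C] 32) .z .z) (.n (.k [.C] 32) .z (.n .z (.k [.C] 33) .z .z) (.n .z (.n .z .z (.k [.C] 33) .z) .z .z)) .z .z) (.n (.n .z (.k [.C] 32) .z .z) (.n (.k [.C] 32) .z .z .z) (.n .z .z .z (.k [.C] 30)) .z)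

def t2010 : T := .n (.k [.A] 7) t20101 t20102 (.n (.n .z (.k [.C] 32) (.n (.k [.A] 7) .z (.n (.k [.A] 7) .z (.k [.C] 29) (.k [.C] 29)) (.k [.C] 29)) (.n (.k [.A] 7) .z (.k [.C] 29) (.k [.C] 29))) (.n (.k [.C] 32) .z (.n (.k [.C] 32) .z .z .z) (.n (.k [.C] 32) .z .z .z)) (.n (.n .z .z (.k [.C] 29) (.k [.C] 29)) .z .z .z) (.n (.k [.C] 29) .z .z .z))

def t2011 : T := .n (.n (.n (.n (.k [.A] 7) .z .z .z) .z .z .z) (.n .z .z (.n .z .z (.n .z .z (.k [.C] 37) (.k [.C] 37)) (.n .z (.n .z .z (.k [.C] 37) .z) (.k [.C] 37) .z)) (.n .z .z (.n .z .z .z (.k [.C] 37)) .z)) (.n .z (.n .z .z (.k [.C] 37) (.k [.C] 37)) .z .z) (.n .z (.n .z .z (.k [.C] 37) (.k [.C] 37)) .z .z)) (.n .z (.k [.B] 7) (.n .z (.k [.B] 7) (.k [.C] 38) (.k [.C] 38)) (.n .z (.n .z .z (.k [.C] 38) (.k [.C] 38)) (.k [.C] 38) (.k [.C] 38))) (.n (.n .z (.k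 [.C] 37) .z .z) (.n (.k [.C] 37) .z (.k [.C] 38) (.n .z (.k [.C] 38) .z .z)) .z .z) .z

def t20120 : T := .n .z (.n (.k [.C] 33) (.n (.k [.C] 33) .z (.k [.C] 34) (.k [.C] 34)) (.k [.C] 34) (.k [.C] 34)) (.n (.n .z (.n (.n .z .z (.n .z (.n .z .z .z (.n .z .z .z (.k [.C] 30))) (.k [.C] 30) (.k [.C] 30)) (.n .z (.n .z .z (.k [.C] 30) (.k [.C] 30)) (.k [.C] 30) (.k [.C] 30))) .z (.k [.C] 30) (.k [.C] 30)) .z .z) (.n .z .z (.k [.C] 30) (.k [.C] 30)) (.k [.C] 30) (.k [.C] 30)) (.n (.n .z (.n (.n .z .z (.k [.C] 30) (.k [.C] 30)) (.n (.n .z .z .z (.k [.C, .A, .B, .D] 32)) .z .z .z) .z .z) .z .z) (.n (.n (.n (.n .z .z .z (.k [.C, .A, .B, .D] 32)) .z .z .z) .z .z .z) .z (.k [.C] 30) (.k [.C] 30)) (.k [.C] 30) (.k [.C] 30))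

def t2012 : T := .n t20120 (.n (.n (.k [.C] 33) .z (.k [.C] 34) (.k [.C] 34)) .z (.n (.k [.C] 34) .z (.k [.C] 35) (.k [.C] 35)) (.n (.k [.C] 34) .z (.k [.C] 35) (.k [.C] 35))) (.n (.k [.C] 30) (.k [.C] 35) .z .z) (.n (.k [.C] 30) (.k [.C] 35) .z .z)

def t2013010 : T := .n .z (.k [.C] 33) (.n (.n .z (.k [.C] 33) (.n .z (.n .z .z (.n .z (.k [.C] 33) (.n .z (.k [.C] 33) .z .z) (.n .z (.k [.C] 33) .z .z)) (.n .z (.k [.C] 33) .z .z)) .z .z) .z) .z (.n (.n .z (.n (.n .z (.k [.C] 33) .z .z) (.k [.C] 33) .z .z) .z .z) (.k [.C] 33) .z .z) .z) (.n (.n .z (.n .z (.k [.C] 33) .z .z) .z .z) (.k [.C] 33) .z .z)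

def t201301 : T := .n t2013010 (.n (.k [.C] 33) (.n (.k [.C] 33) .z .z .z) .z .z) .z .z

def t20130 : T := .n .z t201301 (.k [.C] 30) (.k [.C] 30)

def t2013 : T := .n t20130 (.n (.n (.k [.C] 33) (.n (.n (.k [.C] 33) .z (.k [.C] 34) (.k [.C] 34)) .z .z .z) (.k [.C] 34) (.k [.C] 34)) .z (.k [.C] 35) (.k [.C] 35)) (.n (.k [.C] 30) .z .z .z) (.n (.k [.C] 30) .z .z .z)

def t201 : T := .n t2010 t2011 t2012 t2013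

def t20201 : T := .n (.n .z (.n (.k [.A] 7) (.k [.C] 29) (.n (.k [.A] 7) (.k [.C] 29) .z .z) (.n (.k [.A] 7) (.k [.C] 29) .z .z)) (.n (.k [.A] 7) .z (.n (.k [.A] 7) (.n .z .z (.n .z .z (.k [.C] 6) (.k [.C] 6)) (.n .z .z (.k [.C] 6) (.k [.C] 6))) (.k [.C] 6) (.k [.C] 6)) (.n (.k [.A] 7) (.n .z .z (.k [.C] 6) (.k [.C] 6)) (.k [.C] 6) .z)) (.n (.k [.A] 7) .z (.n (.k [.A] 7) .z .z (.k [.C] 6)) (.n .z .z (.k [.C] 6) (.k [.C] 6)))) (.k [.C] 30) (.n (.n .z .z (.k [.C] 6) (.k [.C] 6)) (.n .z .z (.k [.C] 6) (.k [.C] 6)) (.k [.C] 6) (.k [.C] 6)) (.n (.n .z (.n (.n .z .z (.k [.C] 6) (.k [.C] 6)) (.n .z (.k [.C, .A, .B] 6) .z .z) (.k [.C] 6) .z) .z .z) (.n (.n .z (.k [.C] 29) .z .z) .z .z .z) (.k [.C] 6) (.k [.C] 6))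

def t2020 : T := .n .z t20201 (.k [.C] 6) (.k [.C] 6)

def t202 : T := .n t2020 (.n (.k [.C] 30) .z (.n (.k [.C] 6) .z .z .z) (.n (.k [.C] 6) (.n (.k [.C] 6) .z .z .z) .z .z)) (.n (.k [.C] 6) (.n (.k [.C] 6) .z (.n .z (.n .z .z (.k [.C] 7) (.k [.C] 7)) (.k [.C] 7) (.k [.C] 7)) (.k [.C] 7)) (.k [.C] 7) (.k [.C] 7)) (.n (.k [.C] 6) (.n (.k [.C] 6) .z (.k [.C] 7) (.k [.C] 7)) (.k [.C] 7) .z)

def t2030 : T := .n .z (.n (.n .z (.n (.k [.A] 7) (.n (.k [.A] 7) .z .z .z) .z .z) (.n (.k [.A] 7) .z (.k [.C] 6) .z) (.n (.k [.A] 7) (.n (.k [.A] 7) .z (.k [.C] 6) (.k [.C] 6)) .z .z)) (.n (.n (.n (.k [.A] 7) .z .z .z) (.k [.C] 29) (.n (.n .z (.n (.n .z (.k [.C] 29) .z .z) (.k [.C] 29) .z .z) .z .z) (.k [.C] 29) .z .z) .z) (.k [.C] 30) .z .z) (.k [.C] 6) .z) (.k [.C] 6) (.k [.C] 6)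

def t203 : T := .n t2030 (.n (.n (.n (.n (.k [.A] 7) (.k [.C] 29) (.n (.n .z (.n .z (.n .z (.k [.C] 29) .z .z) .z .z) .z .z) (.n (.n (.n .z (.k [.C] 29) .z .z) (.k [.C] 29) .z .z) .z .z .z) .z .z) .z) (.k [.C] 29) .z .z) (.k [.C] 30) (.k [.C] 6) (.k [.C] 6)) .z (.n (.k [.C] 6) .z .z .z) (.n (.k [.C] 6) .z .z .z)) (.n (.k [.C] 6) .z .z (.k [.C] 7)) (.n (.k [.C] 6) .z (.k [.C] 7) (.k [.C] 7))

def t20 : T := .n (.k [.A] 7) t201 t202 t203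

def t21001 : T := .n (.n .z (.n .z (.k [.B] 6) (.n .z (.k [.B] 6) .z .z) .z) (.n .z .z (.n .z .z (.k [.C] 37) (.k [.C] 37)) (.n .z .z (.k [.C] 37) .z)) (.n .z .z (.n (.n .z .z (.k [.C] 37) (.k [.C] 37)) .z .z (.k [.C] 37)) (.n (.n .z .z (.k [.C] 37) (.k [.C] 37)) .z (.k [.C] 37) (.k [.C] 37)))) (.k [.B] 6) (.n (.n .z .z (.k [.C] 37) (.k [.C] 37)) .z .z .z) (.n (.n .z .z (.k [.C] 37) (.k [.C] 37)) .z .z .z)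

def t2100 : T := .n (.n .z .z (.n (.n .z .z (.k [.C] 33) (.k [.C] 33)) .z (.k [.C] 33) (.k [.C] 33)) (.n (.n .z .z (.k [.C] 33) (.k [.C] 33)) .z (.k [.C] 33) (.k [.C] 33))) t21001 (.n (.n .z (.k [.C] 37) .z (.n (.k [.C] 33) .z .z .z)) (.k [.C] 37) .z .z) (.n (.n .z .z (.n (.k [.C] 33) .z .z .z) (.n (.k [.C] 33) .z .z .z)) .z .z .z)

def t2101 : T := .n (.n (.n (.n (.n .z (.k [.B] 6) (.k [.B] 6) .z) (.k [.B] 6) (.k [.B] 6) (.n .z .z (.k [.B] 6) (.n .z .z (.k [.B] 6) .z))) (.k [.B] 6) (.k [.B] 6) (.n (.n .z .z (.k [.B] 6) .z) .z .z .z)) (.k [.B] 7) (.k [.B] 7) (.n (.n .z (.k [.B] 7) (.k [.B] 7) (.k [.C] 38)) (.k [.B] 7) (.k [.B] 7) (.n (.k [.C] 38) .z (.k [.B] 7) .z))) (.k [.B] 7) (.k [.B] 7) (.n (.n .z (.k [.B] 7) (.k [.B] 7) (.n (.n .z .z (.k [.B] 7) .z) .z (.k [.B] 7) .z)) (.k [.B] 7) (.k [.B] 7) (.n (.k [.C]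 39) .z .z .z))

def t210201 : T := .n (.n .z (.k [.C] 38) (.n .z (.k [.C] 38) (.n .z (.k [.C] 38) (.n .z (.k [.C] 38) .z .z) (.n .z (.k [.C] 38) .z .z)) (.n .z (.k [.C] 38) .z .z)) (.n .z (.k [.C] 38) .z .z)) (.n (.k [.C] 38) (.n (.k [.C] 38) .z (.n (.k [.C] 38) .z .z .z) .z) (.k [.C] 39) (.k [.C] 39)) (.n (.n .z (.k [.C] 38) (.n (.n .z (.k [.C] 38) .z .z) (.k [.C] 38) .z .z) (.n (.n .z (.k [.C] 38) .z .z) (.k [.C] 38) .z .z)) (.k [.C] 39) (.k [.C, .B] 30) (.n .z .z (.k [.C] 35) .z)) (.n (.n .z (.k [.C] 38) .z .z) (.k [.C] 39) (.n .z .z .z (.k [.C] 35)) .z)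

def t21020 : T := .n .z t210201 (.n (.n .z (.n .z .z (.k [.C] 35) (.k [.C] 35)) .z .z) (.n .z .z (.k [.C] 35) (.k [.C] 35)) (.k [.C] 35) (.k [.C] 35)) (.n .z (.n .z .z (.k [.C] 35) (.k [.C] 35)) (.k [.C] 35) (.k [.C] 35))

def t2102 : T := .n t21020 (.n (.n (.k [.C] 38) (.n (.n (.k [.C] 38) .z .z (.n .z .z .z (.k [.C] 39))) .z .z (.k [.C] 39)) (.k [.C] 39) (.k [.C] 39)) .z (.n (.k [.C] 39) (.k [.B] 7) .z .z) (.n (.k [.C] 39) (.n (.k [.C] 39) .z (.k [.B] 7) .z) .z .z)) (.n (.k [.C] 35) (.n (.k [.C] 35) .z (.n .z .z (.n .z .z .z (.k [.C] 36)) (.n .z .z (.k [.C] 36) .z)) (.n .z .z (.k [.C] 36) (.k [.C] 36))) (.n .z (.n .z .z (.k [.C] 36) .z) .z .z) (.k [.C] 36)) (.n (.k [.C] 35) (.n (.k [.C] 35) .z .z .z) (.k [.C] 36) .z)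

def t2103 : T := .n (.n .z (.n (.n .z (.k [.C] 38) .z .z) (.n (.k [.C] 38) (.n (.k [.C] 38) .z .z .z) .z .z) .z .z) (.k [.C] 35) (.k [.C] 35)) (.n (.n (.k [.C] 38) (.n (.n (.k [.C] 38) (.n (.n .z .z (.k [.C] 39) (.k [.C] 39)) .z (.k [.C] 39) (.k [.C] 39)) (.k [.C] 39) (.k [.C] 39)) .z .z .z) (.k [.C] 39) (.k [.C] 39)) .z (.n (.k [.C] 35) .z .z .z) (.n (.k [.C] 35) .z .z .z)) (.n (.k [.C] 35) .z .z (.k [.C] 36)) (.n (.k [.C] 35) .z (.k [.C] 36) (.k [.C] 36))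

def t210 : T := .n t2100 t2101 t2102 t2103

def t21201 : T := .n (.n .z (.k [.B] 7) (.n .z .z (.n .z (.n .z .z (.n .z .z (.k [.C] 36) (.k [.C] 36)) (.n .z .z (.k [.C] 36) (.k [.C] 36))) (.k [.C] 36) (.k [.C] 36)) (.n .z (.n .z .z (.k [.C] 36) (.k [.C] 36)) (.k [.C] 36) .z)) (.n .z .z (.n .z .z .z (.k [.C] 36)) (.n .z .z (.k [.C] 36) (.k [.C] 36)))) (.k [.B] 7) (.n (.n .z (.k [.B] 7) (.k [.C] 36) (.k [.C] 36)) (.k [.B] 7) (.k [.C] 36) (.k [.C] 36)) (.n (.n .z (.n (.n .z .z (.k [.C] 36) (.k [.C] 36)) (.k [.B] 7) (.k [.C] 36) .z) .z .z) (.k [.B] 7) (.k [.C] 36) (.k [.C] 36))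

def t2120 : T := .n .z t21201 (.k [.C] 36) (.k [.C] 36)

def t212 : T := .n t2120 (.n (.k [.B] 7) .z (.n (.k [.B] 7) (.n .z .z (.n .z (.k [.B] 68) (.n .z (.k [.B] 68) .z .z) (.n .z (.k [.B] 68) .z .z)) (.n .z (.k [.B] 68) .z .z)) .z .z) (.n (.k [.B] 7) (.n (.k [.B] 7) .z .z .z) .z .z)) (.n (.k [.C] 36) (.n (.k [.C] 36) .z .z .z) .z .z) (.n (.k [.C] 36) (.n (.k [.C] 36) .z .z .z) .z .z)

def t213 : T := .n (.n .z (.n (.n .z (.n (.n .z (.n .z (.k [.B] 7) .z .z) .z .z) (.k [.B] 7) .z .z) (.n (.n .z (.n .z .z (.k [.C] 36) (.k [.C] 36)) (.k [.C] 36) (.k [.C] 36)) .z (.k [.C] 36) .z) (.n (.n .z (.n .z .z (.k [.C] 36) .z) (.k [.C] 36) (.k [.C] 36)) (.n (.n .z .z (.k [.C] 36) (.k [.C] 36)) .z (.k [.C] 36) (.k [.C] 36)) .z .z)) (.k [.B] 7) (.k [.C] 36) .z) (.k [.C] 36) (.k [.C] 36)) (.n (.n (.n (.n .z (.k [.B] 7) (.k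 [.B] 7) .z) (.k [.B] 7) .z .z) (.k [.B] 7) (.k [.B] 7) (.k [.C] 36)) .z (.n (.k [.B] 7) .z .z .z) (.n (.k [.C] 36) .z .z .z)) (.n (.k [.C] 36) .z .z .z) (.n (.k [.C] 36) .z .z .z)

def t21 : T := .n t210 (.k [.B] 68) t212 t213

def t220101 : T := .n (.n .z (.n .z (.n .z (.n .z (.n .z .z (.k [.C, .B] 6) .z) .z .z) .z .z) .z .z) .z .z) (.n (.n .z (.n (.n .z .z (.n .z (.k [.C] 35) .z .z) (.n .z (.k [.C] 35) .z .z)) (.k [.C] 35) (.n (.n .z (.k [.C] 35) .z .z) (.k [.C] 35) .z .z) .z) .z .z) (.k [.C] 35) (.n .z (.k [.C] 35) .z .z) .z) .z .z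

def t22010 : T := .n .z t220101 (.n (.n .z .z (.k [.C] 7) (.k [.C] 7)) (.n .z .z .z (.k [.C] 7)) (.k [.C] 7) (.k [.C] 7)) (.n (.n .z .z (.k [.C] 7) (.k [.C] 7)) (.n .z .z (.k [.C] 7) (.k [.C] 7)) (.k [.C] 7) (.k [.C] 7))

def t22011 : T := .n (.n (.n (.n .z (.n .z (.k [.C] 35) (.n (.n .z (.n .z (.k [.C] 35) .z .z) .z .z) (.k [.C] 35) .z .z) .z) .z .z) (.k [.C] 35) .z .z) (.k [.C] 35) (.n (.n .z (.n (.n .z (.k [.C] 35) .z .z) (.k [.C] 35) .z .z) .z .z) (.k [.C] 35) .z .z) (.n .z (.k [.C] 35) .z .z)) (.k [.C] 36) (.n .z (.k [.C] 36) .z .z) (.n .z (.k [.C] 36) .z .z)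

def t2201 : T := .n t22010 t22011 (.k [.C] 7) (.k [.C] 7)

def t220 : T := .n .z t2201 (.k [.C] 7) (.k [.C] 7)

def t221000 : T := .n (.n .z (.n .z .z (.n (.n .z (.k [.C] 35) (.n .z (.k [.C] 35) .z .z) (.n .z (.k [.C] 35) .z .z)) .z .z .z) (.n (.n .z (.k [.C] 35) .z .z) .z .z .z)) .z .z) (.k [.C] 35) (.n (.n .z (.n .z (.k [.C] 35) .z .z) .z .z) (.n (.n (.n .z (.k [.C] 35) .z .z) (.k [.C] 35) .z .z) .z .z .z) .z .z) .z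

def t22100 : T := .n t221000 (.k [.C] 35) (.n (.n .z .z .z (.k [.C] 7)) .z .z .z) (.n (.n .z .z (.k [.C] 7) (.k [.C] 7)) .z .z .z)

def t2210 : T := .n t22100 (.k [.C] 36) (.k [.C] 7) (.k [.C] 7)

def t221 : T := .n t2210 .z (.n (.k [.C] 7) .z .z .z) (.n (.k [.C] 7) (.n (.k [.C] 7) .z .z .z) .z .z)

def t22 : T := .n t220 t221 (.n (.k [.C] 7) (.n (.k [.C] 7) .z .z .z) .z .z) (.n (.k [.C] 7) (.n (.k [.C] 7) .z .z .z) .z .z)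

def t23100 : T := .n (.n .z (.n (.n .z .z (.n .z .z (.n .z .z (.k [.C] 7) (.k [.C] 7)) (.n .z .z (.k [.C] 7) .z)) (.n .z .z (.n .z .z .z (.k [.C] 7)) (.k [.C] 7))) .z (.n (.n .z .z (.k [.C] 7) (.k [.C] 7)) .z .z .z) (.n (.n .z .z (.k [.C] 7) (.k [.C] 7)) .z .z .z)) (.k [.C] 7) (.k [.C] 7)) (.n (.n .z (.k [.C] 35) .z .z) (.k [.C] 35) .z .z) .z .z

def t2310 : T := .n t23100 (.k [.C] 36) (.k [.C] 7) (.k [.C] 7)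

def t231 : T := .n t2310 .z (.n (.k [.C] 7) .z .z .z) (.n (.k [.C] 7) .z .z .z)

def t23 : T := .n (.n .z (.n (.n .z .z (.k [.C] 7) (.k [.C] 7)) (.n (.n .z .z (.k [.C] 7) (.k [.C] 7)) (.n (.n .z (.k [.C] 35) .z .z) (.k [.C] 36) .z .z) .z .z) (.k [.C] 7) .z) (.k [.C] 7) (.k [.C] 7)) t231 (.n (.k [.C] 7) .z .z (.n (.k [.C] 7) .z (.n .z .z .z (.n .z .z (.n .z .z .z (.k [.C] 68)) .z)) .z)) (.k [.C] 68)

def t2 : T := .n t20 t21 t22 t23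

def t30102 : T := .n (.n .z (.n (.k [.A] 7) (.k [.D] 29) (.n (.k [.A] 7) (.k [.D] 29) .z .z) (.n (.k [.A] 7) (.n (.k [.A] 7) .z .z .z) .z .z)) (.n (.k [.A] 7) (.n .z .z .z (.n .z .z (.n .z .z .z (.k [.D] 6)) .z)) (.n .z (.n .z .z (.k [.D] 6) .z) .z .z) .z) (.n (.k [.A] 7) (.n (.k [.A] 7) .z .z .z) .z (.k [.D] 6))) (.k [.D] 30) (.n (.n .z (.n (.n .z .z (.k [.D] 6) .z) (.n .z .z (.k [.D] 6) .z) .z .z) .z .z) (.n (.n (.n .z .z (.k [.D] 6) .z) .z .z .z) .z (.k [.D] 6) (.k [.D] 6)) (.k [.D] 6) (.k [.D] 6)) (.k [.D] 6)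

def t3010310 : T := .n (.n (.k [.A] 7) (.k [.D] 29) .z .z) (.k [.D] 29) (.n (.n .z .z (.n (.n .z (.k [.D] 29) .z .z) (.k [.D] 29) (.n .z (.k [.D] 29) .z .z) (.n .z (.k [.D] 29) .z .z)) (.n (.n .z (.k [.D] 29) .z .z) (.k [.D] 29) .z .z)) .z (.n (.n .z (.k [.D] 29) .z .z) .z .z .z) (.n (.n .z (.k [.D] 29) .z .z) .z .z .z)) (.n (.n .z (.k [.D] 29) .z .z) .z .z .z)

def t301031 : T := .n t3010310 .z .z .z

def t30103 : T := .n (.n .z (.n (.k [.A] 7) (.n (.k [.A] 7) (.k [.D] 29) .z .z) (.n (.k [.A] 7) .z .z .z) .z) (.n (.k [.A] 7) .z (.k [.D] 6) (.k [.D] 6)) (.n (.k [.A] 7) .z (.k [.D] 6) (.k [.D] 6))) t301031 (.k [.D] 6) (.k [.D] 6)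

def t3010 : T := .n (.k [.A] 7) (.n (.n (.k [.A] 7) (.n (.k [.A] 7) (.n (.k [.A] 7) (.k [.D] 32) (.n (.k [.A] 7) (.k [.D] 32) .z .z) .z) (.k [.D] 29) (.k [.D] 29)) (.k [.D] 29) (.k [.D] 29)) (.n (.n (.n (.k [.A] 7) (.k [.D] 32) (.n (.k [.A] 7) (.k [.D] 32) .z .z) .z) (.k [.D] 32) (.k [.D] 29) (.k [.D] 29)) (.k [.D, .A, .B, .A] 36) (.k [.D, .A, .B, .A] 7) (.k [.D, .A, .B, .A] 7)) (.k [.D, .A, .B, .A] 7) (.k [.D, .A, .B, .A] 7)) t30102 t30103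

def t301 : T := .n t3010 (.n (.n (.n (.n (.k [.A] 7) (.k [.D] 32) (.k [.D] 29) (.k [.D] 29)) (.k [.D] 32) (.k [.D] 29) (.k [.D] 29)) (.n (.k [.D] 33) (.k [.D, .A, .B, .B, .A] 7) (.k [.D] 34) (.k [.D] 34)) (.n .z (.n .z .z (.k [.D] 30) (.k [.D] 30)) .z .z) (.n .z (.n .z .z (.k [.D] 30) (.k [.D] 30)) .z .z)) (.n (.n (.k [.D] 33) (.n .z .z (.k [.D] 34) (.k [.D] 34)) (.k [.D] 34) (.k [.D] 34)) (.n (.k [.D] 37) (.k [.D, .A] 50) (.k [.D, .A] 43) (.k [.D, .A] 43)) (.k [.D, .A] 43) (.k [.D, .A] 43)) (.k [.D, .A] 36) (.k [.D, .A] 36)) (.n (.n .z (.k [.D] 30) (.k [.D] 6) (.k [.D] 6)) (.k [.D, .A] 36) (.k [.D, .A] 7) (.k [.D, .A] 7)) (.k [.D, .A] 7)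

def t302 : T := .n (.n .z (.k [.D] 6) (.n (.n .z (.k [.D] 6) .z .z) (.k [.D] 6) (.n .z (.k [.D] 6) .z .z) (.n .z (.k [.D] 6) .z .z)) (.n (.n .z (.n (.k [.A] 7) (.k [.D] 6) .z .z) .z .z) (.k [.D] 6) .z .z)) (.k [.D, .A] 7) (.n (.n .z (.k [.D] 6) .z .z) (.k [.D] 7) (.n .z (.k [.D] 7) .z .z) (.n .z (.k [.D] 7) .z .z)) (.n (.n .z (.k [.D] 6) .z .z) (.k [.D] 7) .z .z)

def t30 : T := .n (.k [.A] 7) t301 t302 (.n (.n .z (.k [.D] 6) (.n (.n .z .z (.n (.k [.A] 7) .z .z .z) (.n (.k [.A] 7) .z .z .z)) .z .z .z) (.n (.n .z .z (.n (.k [.A] 7) .z (.n (.k [.A] 7) .z .z .z) (.n (.k [.A] 7) .z .z .z)) (.n (.k [.A] 7) .z (.n (.k [.A] 7) .z .z .z) (.n (.k [.A] 7) .z .z .z))) .z .z .z)) (.k [.D, .A] 7) .z .z)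

def t31000 : T := .n (.n (.n .z .z (.k [.D] 29) (.k [.D] 29)) (.k [.D] 32) (.k [.D] 29) (.k [.D] 29)) (.n (.n .z .z (.n .z .z (.n .z .z (.n .z (.k [.D] 33) .z .z) (.n .z (.k [.D] 33) .z .z)) (.n .z (.k [.D] 33) .z .z)) .z) (.k [.D] 33) (.n (.n .z (.k [.D] 33) (.n (.n .z (.k [.D] 33) .z .z) .z .z .z) (.n (.n .z (.k [.D] 33) .z .z) .z .z .z)) (.k [.D] 33) .z .z) .z) (.n (.n .z .z (.k [.D] 30) (.k [.D] 30)) .z (.k [.D] 30) (.k [.D] 30)) (.n (.n .z .z (.k [.D] 30) (.k [.D] 30)) .z (.k [.D] 30) (.k [.D] 30))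

def t3100 : T := .n t31000 (.n (.n (.k [.D] 33) (.n .z (.n .z (.k [.D] 37) (.n (.n .z (.k [.D] 37) .z .z) (.k [.D] 37) .z .z) (.n .z (.k [.D] 37) .z .z)) (.k [.D] 34) (.k [.D] 34)) (.k [.D] 34) (.k [.D] 34)) (.n (.n (.n .z (.k [.D] 37) (.n .z (.k [.D] 37) .z .z) .z) (.k [.D] 37) (.k [.D] 34) (.k [.D] 34)) (.k [.D] 37) (.k [.D] 34) (.k [.D] 34)) (.k [.D] 34) (.k [.D] 34)) (.k [.D] 30) (.k [.D] 30)

def t310101 : T := .n (.n (.k [.D] 37) (.k [.B] 7) (.n (.k [.D] 34) (.k [.B] 7) (.n .z (.k [.B] 7) (.n .z (.k [.B] 7) .z .z) (.n .z (.k [.B] 7) .z .z)) (.n .z (.k [.B] 7) .z .z)) (.n .z (.k [.B] 7) .z .z)) (.k [.B] 7) (.n (.n .z (.k [.B] 7) (.n (.n .z (.k [.B] 7) .z .z) (.k [.B] 7) (.k [.B] 7) (.n .z (.k [.B] 7) .z .z)) (.n (.n .z (.k [.B] 7) .z .z) (.k [.B] 7) .z .z)) (.k [.B] 7) (.k [.B] 7) (.n (.n .z (.k [.B] 7)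 .z .z) (.k [.B] 7) (.k [.D] 35) .z)) (.n (.n .z (.k [.B] 7) .z .z) (.k [.B] 7) (.n (.n .z .z (.k [.D] 35) (.k [.D] 35)) .z .z (.k [.D] 35)) (.n (.n .z .z (.k [.D] 35) (.k [.D] 35)) .z .z .z))

def t310103101031010 : T := .n .z (.n .z .z .z (.n (.n .z .z (.n .z .z .z (.k [.D, .B, .A, .D] 33)) (.n .z .z (.k [.D, .B, .A, .D] 33) .z)) .z .z (.k [.D, .B, .A, .D] 33))) (.n (.n .z (.n .z (.n .z .z (.k [.D, .B, .A, .D] 33) (.k [.D, .B, .A, .D] 33)) .z .z) .z .z) (.n (.n (.n .z .z (.k [.D, .B, .A, .D] 33) (.k [.D, .B, .A, .D] 33)) (.n (.n .z .z .z (.n .z .z .z (.k [.D, .B, .A, .D] 33))) .z .z (.k [.D, .B, .A, .D] 33)) .z .z) .z .z .z) .z .z) (.n .z (.n (.n .z (.n (.n .z (.n (.n .z .z (.k [.D, .B, .A, .D] 33) (.k [.D, .B, .A, .D] 33)) .z (.k [.D, .B, .A, .D] 33) (.k [.D, .B, .A, .D] 33)) (.k [.D, .B, .A, .D] 33) (.k [.D,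 .B, .A, .D] 33)) .z .z .z) .z .z) .z .z .z) .z .z)

def t31010310103101 : T := .n t310103101031010 .z .z .z

def t3101031010310 : T := .n .z t31010310103101 .z .z

def t310103101031 : T := .n t3101031010310 .z .z .z

def t31010310103 : T := .n .z t310103101031 .z .z

def t3101031010 : T := .n .z .z (.n (.n .z (.n .z (.n .z .z .z (.n .z (.n .z .z (.k [.D, .B, .A, .D] 33) .z) .z .z)) .z .z) .z .z) (.n (.n .z .z (.k [.D, .B, .A, .D] 33) .z) .z .z .z) .z .z) t31010310103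

def t310103101 : T := .n t3101031010 .z .z .z

def t31010310 : T := .n .z t310103101 (.k [.D] 35) (.k [.D] 35)

def t3101031 : T := .n t31010310 .z (.k [.D] 35) (.k [.D] 35)

def t310103 : T := .n (.n .z (.n .z .z (.k [.D] 35) .z) (.k [.D] 35) (.k [.D] 35)) t3101031 (.k [.D] 35) (.k [.D] 35)

def t31010 : T := .n (.n (.n (.n .z (.k [.D] 37) (.n .z (.k [.D, .B, .A] 29) .z .z) .z) (.k [.D] 37) (.k [.D] 34) (.k [.D] 34)) (.k [.D] 37) (.k [.D] 34) (.k [.D] 34)) t310101 (.n (.n .z (.n .z (.n .z .z .z (.n .z (.n .z .z .z (.k [.D, .B, .A, .D] 33)) .z .z)) (.k [.D, .B, .A, .D] 33) (.k [.D] 35)) (.k [.D] 35) (.k [.D] 35)) (.n (.n .z (.n .z .z .z (.n (.n .z .z .z (.k [.D, .B, .A, .D] 33)) .z .z (.k [.D] 35))) (.n (.k [.D, .B, .A, .D] 33) (.k [.D, .B, .A, .D] 37) (.k [.D] 35) (.k [.D] 35)) (.k [.D] 35)) .z (.k [.D] 35)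 (.k [.D] 35)) (.k [.D] 35) (.k [.D] 35)) t310103

def t3101 : T := .n t31010 (.k [.B] 7) (.k [.D, .B, .A] 7) (.k [.D, .B, .A] 7)

def t3102 : T := .n (.n .z (.k [.D] 35) (.n .z (.n .z .z (.n .z (.k [.D] 35) (.n .z (.k [.D] 35) .z .z) (.n .z (.k [.D] 35) .z .z)) (.n .z (.k [.D] 35) .z .z)) .z .z) .z) (.k [.D, .B, .A] 7) (.n (.n .z (.n (.n .z (.k [.D] 35) (.k [.D] 35) .z) (.k [.D] 35) .z .z) .z .z) (.k [.D] 36) (.k [.D] 7) (.k [.D] 7)) (.n (.n .z (.n (.n .z (.k [.D] 35) .z .z) (.k [.D] 35) .z .z) .z .z) (.k [.D] 36) (.k [.D] 7) .z)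

def t310 : T := .n t3100 t3101 t3102 (.n (.n .z (.n (.n .z (.k [.D] 35) (.n .z .z (.n .z (.k [.D] 35) .z .z) .z) (.n .z (.k [.D] 35) .z .z)) (.k [.D] 35) .z .z) .z (.n .z .z (.n .z .z .z (.k [.D] 7)) (.n .z .z (.k [.D] 7) .z))) (.k [.D] 36) (.n (.n .z .z (.k [.D] 7) (.k [.D] 7)) .z .z (.k [.D] 7)) (.n (.n .z .z (.k [.D] 7) (.k [.D] 7)) .z (.k [.D] 7) (.k [.D] 7)))

def t31 : T := .n t310 (.k [.B] 68) (.n (.n .z (.k [.D] 36) (.k [.D] 7) (.k [.D] 7)) (.k [.D] 36) (.k [.D] 68) (.k [.D] 7)) (.n (.n .z (.k [.D] 36) (.k [.D] 7) (.k [.D] 7)) (.k [.D] 36) (.k [.D] 7) (.k [.D] 7))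

def t3 : T := .n t30 t31 (.n (.n .z (.k [.D] 7) (.n (.n .z (.k [.D] 7) .z .z) (.k [.D] 7) (.k [.D] 7) (.n .z (.k [.D] 7) .z .z)) (.n (.n .z (.k [.D] 7) .z .z) (.k [.D] 7) .z .z)) (.k [.D] 68) (.k [.D] 68) (.n (.n .z (.k [.D] 7) .z .z) (.k [.D] 68) (.n .z .z .z (.n .z .z (.n .z .z .z (.n .z .z (.k [.D] 68) .z)) .z)) .z)) (.n (.n .z (.k [.D] 7) .z .z) (.k [.D] 7) .z .z)

def root : T := .n t0 t1 t2 t3

end H429P
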