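import Mathlib

/-!
# Self-similar sets spanned by the vertices of a polytope

The definitions used in the statement of the result on `MP_43eaec_an`.
-/

namespace H429P

/-- The points `p i` are distinct and they are exactly the vertices (the extreme points) of the
convex polytope which they span. -/
def IsVertices {d k : ℕ} (p : Fin k → EuclideanSpace ℝ (Fin d)) : Prop :=
  Function.Injective p ∧ (convexHull ℝ (Set.range p)).extremePoints ℝ = Set.range p

/-- The homothety `x ↦ lam x + (1 - lam) p i`. -/
noncomputable def hmt {d k : ℕ} (p : Fin k → EuclideanSpace ℝ (Fin d)) (lam : ℝ) (i : Fin k)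
    (x : EuclideanSpace ℝ (Fin d)) : EuclideanSpace ℝ (Fin d) :=
  lam • x + (1 - lam) • p i

/-- `S` is a nonempty compact set which is the union of its images under the homotheties. -/
def IsAttractor {d k : ℕ} (p : Fin k → EuclideanSpace ℝ (Fin d)) (lam : ℝ)
    (S : Set (EuclideanSpace ℝ (Fin d))) : Prop :=
  S.Nonempty ∧ IsCompact S ∧ S = ⋃ i, hmt p lam i '' S

/-- The sequence `e` is an address of `x`: `x = (1 - lam) ∑ lam ^ n p (e n)`. -/
def IsAddress {d k : ℕ} (p : Fin k → EuclideanSpace ℝ (Fin d)) (lam : ℝ) (e : ℕ → Fin k)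
    (x : EuclideanSpace ℝ (Fin d)) : Prop :=
  HasSum (fun n => ((1 - lam) * lam ^ n) • p (e n)) x

/-- The number `ls` is a threshold for `p`: above it every point of the attractor which is not a
vertex has uncountably many addresses, below it some point of the attractor which is not a vertex
has exactly one address. -/
def IsThreshold {d k : ℕ} (p : Fin k → EuclideanSpace ℝ (Fin d)) (ls : ℝ) : Prop :=
  (∀ lam, ls < lam → lam < 1 → ∀ S, IsAttractor p lam S → ∀ x ∈ S, x ∉ Set.range p →
    ¬ {e | IsAddress p lam e x}.Countable) ∧
  (∀ lam, 0 < lam → lam < ls → ∀ S, IsAttractor p lam S → ∃ x ∈ S, x ∉ Set.range p ∧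
    ∃! e, IsAddress p lam e x)

end H429P
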