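import Pool.Agent.H429P.Kill

/-!
For the ratio `7/11` the periodic word `A B A C B A B A C B ...` is a unique address.
-/

namespace H429P

theorem pt_of_rec {lam : ℝ} (h0 : 0 ≤ lam) (h1 : lam < 1) (e : Word) (u : ℕ → ℝ × ℝ) (Bd : ℝ)
    (hb : ∀ n, |(u n).1| ≤ Bd ∧ |(u n).2| ≤ Bd) (hu : ∀ n, u n = f lam (e n) (u (n + 1))) :
    pt lam e = u 0 := by
  have hlim : Filter.Tendsto (fun n : ℕ => lam ^ n) Filter.atTop (nhds 0) :=
    tendsto_pow_atTop_nhds_zero_of_lt_one h0 h1
  have key : ∀ (c : Dg → ℝ) (u : ℕ → ℝ), (∀ n, |u n| ≤ Bd) →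
      (∀ n, u n = lam * u (n + 1) + (1 - lam) * c (e n)) → val lam c e = u 0 := by
    intro c u hu hrec
    have hs : ∀ n, (1 - lam) * ∑ k ∈ Finset.range n, lam ^ k * c (e k) = u 0 - lam ^ n * u n := by
      intro n
      induction n with
      | zero => simp
      | succ n ih =>
        rw [Finset.sum_range_succ, mul_add, ih, pow_succ]
        linear_combination (-(lam ^ n)) * (hrec n)
    have h3 : Filter.Tendsto (fun n => (1 - lam) * ∑ k ∈ Finset.range n, lam ^ k * c (e k))
        Filter.atTop (nhds (val lam c e)) :=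
      ((summable_val h0 h1 c e).hasSum.tendsto_sum_nat).const_mul _
    have h4 : Filter.Tendsto (fun n => lam ^ n * u n) Filter.atTop (nhds 0) := by
      have h5 : Filter.Tendsto (fun n => lam ^ n * Bd) Filter.atTop (nhds 0) := by
        simpa using hlim.mul_const Bd
      refine squeeze_zero_norm (fun n => ?_) h5
      rw [Real.norm_eq_abs, abs_mul, abs_of_nonneg (pow_nonneg h0 n)]
      exact mul_le_mul_of_nonneg_left (hu n) (pow_nonneg h0 n)
    have h6 : Filter.Tendsto (fun n => (1 - lam) * ∑ k ∈ Finset.range n, lam ^ k * c (e k))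
        Filter.atTop (nhds (u 0 - 0)) := by
      simp only [hs]
      exact tendsto_const_nhds.sub h4
    rw [sub_zero] at h6
    exact tendsto_nhds_unique h3 h6
  have hx : val lam X e = (u 0).1 := by
    refine key X (fun n => (u n).1) (fun n => (hb n).1) (fun n => ?_)
    have := congrArg Prod.fst (hu n)
    simpa [f] using this
  have hy : val lam Y e = (u 0).2 := by
    refine key Y (fun n => (u n).2) (fun n => (hb n).2) (fun n => ?_)
    have := congrArg Prod.snd (hu n)
    simpa [f] using this
  exact Prod.ext hx hy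

theorem XA : X .A = 0 := by norm_num [X, wx]
theorem XB : X .B = 1 := by norm_num [X, wx]
theorem XD : X .D = 561 / 5000 := by norm_num [X, wx]
theorem XC : X .C = 0 := by norm_num [X, wx]
theorem YA : Y .A = 0 := by norm_num [Y, wy]
theorem YB : Y .B = 0 := by norm_num [Y, wy]
theorem YD : Y .D = 443902490279 / 500000000000 := by norm_num [Y, wy]
theorem YC : Y .C = 1 := by norm_num [Y, wy]

/-- The digits of the periodic word. -/
def wd : ℕ → Dg
  | 0 => .A
  | 1 => .B
  | 2 => .A
  | 3 => .C
  | _ => .B

/-- The points of its shifts. -/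
noncomputable def zz : ℕ → ℝ × ℝ
  | 0 => (11718 / 36061, 3773 / 36061)
  | 1 => (18414 / 36061, 5929 / 36061)
  | 2 => (8330 / 36061, 9317 / 36061)
  | 3 => (13090 / 36061, 14641 / 36061)
  | _ => (20570 / 36061, 2401 / 36061)

/-- The periodic word. -/
def w0 : Word := fun n => wd (n % 5)

theorem zz_rec (n : ℕ) : zz (n % 5) = f (7 / 11) (wd (n % 5)) (zz ((n + 1) % 5)) := by
  have h5 : n % 5 = 0 ∨ n % 5 = 1 ∨ n % 5 = 2 ∨ n % 5 = 3 ∨ n % 5 = 4 := by omega
  rcases h5 with h | h | h | h | h
  · have h' : (n + 1) % 5 = 1 := by omega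
    rw [h, h']
    simp only [zz, wd, f, XA, YA]
    norm_num
  · have h' : (n + 1) % 5 = 2 := by omega
    rw [h, h']
    simp only [zz, wd, f, XB, YB]
    norm_num
  · have h' : (n + 1) % 5 = 3 := by omega
    rw [h, h']
    simp only [zz, wd, f, XA, YA]
    norm_num
  · have h' : (n + 1) % 5 = 4 := by omega
    rw [h, h']
    simp only [zz, wd, f, XC, YC]
    norm_num
  · have h' : (n + 1) % 5 = 0 := by omega
    rw [h, h']
    simp only [zz, wd, f, XB, YB]
    norm_num

theorem zz_bd (m : ℕ) : |(zz m).1| ≤ 1 ∧ |(zz m).2| ≤ 1 := by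
  unfold zz
  split <;> constructor <;> rw [abs_le] <;> constructor <;> norm_num

theorem pt_w0 : pt (7 / 11) w0 = zz 0 :=
  pt_of_rec (by norm_num) (by norm_num) w0 (fun n => zz (n % 5)) 1 (fun n => zz_bd _)
    (fun n => zz_rec n)

theorem dec {e : Word} {z : ℝ × ℝ} (h : pt (7 / 11) e = z) :
    pt (7 / 11) (tl e) = ((11 * z.1 - 4 * X (e 0)) / 7, (11 * z.2 - 4 * Y (e 0)) / 7) := by
  have hp : pt (7 / 11) e = f (7 / 11) (e 0) (pt (7 / 11) (tl e)) := by
    rw [← pt_cons (by norm_num) (by norm_num), cons_tl]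
  rw [h] at hp
  have e1 := congrArg Prod.fst hp
  have e2 := congrArg Prod.snd hp
  simp only [f] at e1 e2
  refine Prod.ext ?_ ?_
  · simp only
    linarith
  · simp only
    linarith

/-- A point outside the quadrilateral has no address. -/
theorem out {e : Word} {z : ℝ × ℝ} (h : pt (7 / 11) e = z)
    (ho : z.1 < 0 ∨ z.2 < 0 ∨ 500002490279 < 500000000000 * (z.1 + z.2)) : False := by
  have hb := pt_inP (lam := 7 / 11) (by norm_num) (by norm_num) e
  rw [h] at hb
  obtain ⟨b1, b2, b3, _, _⟩ := hb
  rcases ho with ho | ho | ho <;> linarith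

theorem step0 {e : Word} (h : pt (7 / 11) e = zz 0) : e 0 = .A := by
  have hd := dec h
  cases h0 : e 0 with
  | A => rfl
  | B =>
    exfalso; rw [h0, XB, YB] at hd; simp only [zz] at hd
    exact out hd (Or.inl (by norm_num))
  | D =>
    exfalso; rw [h0, XD, YD] at hd; simp only [zz] at hd
    exact out hd (Or.inr (Or.inl (by norm_num)))
  | C =>
    exfalso; rw [h0, XC, YC] at hd; simp only [zz] at hd
    exact out hd (Or.inr (Or.inl (by norm_num)))

theorem step1 {e : Word} (h : pt (7 / 11) e = zz 1) : e 0 = .B := by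
  have hd := dec h
  cases h0 : e 0 with
  | A =>
    exfalso; rw [h0, XA, YA] at hd; simp only [zz] at hd
    exact out hd (Or.inr (Or.inr (by norm_num)))
  | B => rfl
  | D =>
    exfalso; rw [h0, XD, YD] at hd; simp only [zz] at hd
    exact out hd (Or.inr (Or.inl (by norm_num)))
  | C =>
    exfalso; rw [h0, XC, YC] at hd; simp only [zz] at hd
    exact out hd (Or.inr (Or.inl (by norm_num)))

theorem step2 {e : Word} (h : pt (7 / 11) e = zz 2) : e 0 = .A := by
  have hd := dec h
  cases h0 : e 0 with
  | A => rfl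
  | B =>
    exfalso; rw [h0, XB, YB] at hd; simp only [zz] at hd
    exact out hd (Or.inl (by norm_num))
  | D =>
    exfalso; rw [h0, XD, YD] at hd; simp only [zz] at hd
    exact out hd (Or.inr (Or.inl (by norm_num)))
  | C =>
    exfalso; rw [h0, XC, YC] at hd; simp only [zz] at hd
    exact out hd (Or.inr (Or.inl (by norm_num)))

theorem step4 {e : Word} (h : pt (7 / 11) e = zz 4) : e 0 = .B := by
  have hd := dec h
  cases h0 : e 0 with
  | A =>
    exfalso; rw [h0, XA, YA] at hd; simp only [zz] at hd
    exact out hd (Or.inr (Or.inr (by norm_num)))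
  | B => rfl
  | D =>
    exfalso; rw [h0, XD, YD] at hd; simp only [zz] at hd
    exact out hd (Or.inr (Or.inl (by norm_num)))
  | C =>
    exfalso; rw [h0, XC, YC] at hd; simp only [zz] at hd
    exact out hd (Or.inr (Or.inl (by norm_num)))

theorem step3 {e : Word} (h : pt (7 / 11) e = zz 3) : e 0 = .C := by
  have hd := dec h
  cases h0 : e 0 with
  | A =>
    exfalso; rw [h0, XA, YA] at hd; simp only [zz] at hd
    exact out hd (Or.inr (Or.inr (by norm_num)))
  | B =>
    exfalso; rw [h0, XB, YB] at hd; simp only [zz] at hd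
    exact out hd (Or.inl (by norm_num))
  | C => rfl
  | D =>
    exfalso
    rw [h0, XD, YD] at hd; simp only [zz] at hd
    have hd1 := dec hd
    cases h1 : (tl e) 0 with
    | A =>
      rw [h1, XA, YA] at hd1; simp only at hd1
      exact out hd1 (Or.inr (Or.inr (by norm_num)))
    | D =>
      rw [h1, XD, YD] at hd1; simp only at hd1
      exact out hd1 (Or.inr (Or.inl (by norm_num)))
    | C =>
      rw [h1, XC, YC] at hd1; simp only at hd1
      exact out hd1 (Or.inr (Or.inl (by norm_num)))
    | B =>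
      rw [h1, XB, YB] at hd1; simp only at hd1
      have hd2 := dec hd1
      cases h2 : (tl (tl e)) 0 with
      | B =>
        rw [h2, XB, YB] at hd2; simp only at hd2
        exact out hd2 (Or.inl (by norm_num))
      | D =>
        rw [h2, XD, YD] at hd2; simp only at hd2
        exact out hd2 (Or.inr (Or.inl (by norm_num)))
      | C =>
        rw [h2, XC, YC] at hd2; simp only at hd2
        exact out hd2 (Or.inr (Or.inl (by norm_num)))
      | A =>
        rw [h2, XA, YA] at hd2; simp only at hd2
        have hd3 := dec hd2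
        cases h3 : (tl (tl (tl e))) 0 with
        | A =>
          rw [h3, XA, YA] at hd3; simp only at hd3
          exact out hd3 (Or.inr (Or.inr (by norm_num)))
        | B =>
          rw [h3, XB, YB] at hd3; simp only at hd3
          exact out hd3 (Or.inl (by norm_num))
        | D =>
          rw [h3, XD, YD] at hd3; simp only at hd3
          exact out hd3 (Or.inr (Or.inl (by norm_num)))
        | C =>
          rw [h3, XC, YC] at hd3; simp only at hd3
          exact out hd3 (Or.inr (Or.inl (by norm_num)))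

theorem step_all (n : ℕ) {e : Word} (h : pt (7 / 11) e = zz (n % 5)) : e 0 = wd (n % 5) := by
  have h5 : n % 5 = 0 ∨ n % 5 = 1 ∨ n % 5 = 2 ∨ n % 5 = 3 ∨ n % 5 = 4 := by omega
  rcases h5 with h' | h' | h' | h' | h' <;> rw [h'] at h ⊢
  · exact step0 h
  · exact step1 h
  · exact step2 h
  · exact step3 h
  · exact step4 h

theorem pt_sh {e : Word} (h : pt (7 / 11) e = zz 0) : ∀ n, pt (7 / 11) (sh n e) = zz (n % 5) := by
  intro n
  induction n with
  | zero => exact h
  | succ n ih =>
    rw [sh_succ']
    have h1 := dec ih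
    have h2 := step_all n ih
    rw [h1, h2, zz_rec n]
    simp only [f]
    ext <;> simp <;> ring

theorem uniq_w0 : Uq (7 / 11) w0 := by
  intro e he
  rw [pt_w0] at he
  funext n
  have h1 := step_all n (pt_sh he n)
  simp only [sh, zero_add] at h1
  exact h1

end H429P
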