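import Pool.Agent.H429P.Words
import Pool.Agent.H429P.Univ
import Pool.Agent.H429P.Attr

/-!
The quadrilateral and the final statement.
-/

namespace H429P

/-- The four digits in order. -/
def dg : Fin 4 → Dg := ![.A, .B, .D, .C]

/-- The index of a digit. -/
def ix : Dg → Fin 4
  | .A => 0
  | .B => 1
  | .D => 2
  | .C => 3

theorem dg_ix (g : Dg) : dg (ix g) = g := by cases g <;> rfl
theorem ix_dg (i : Fin 4) : ix (dg i) = i := by fin_cases i <;> rfl

/-- The four vertices. -/
noncomputable def vtx (i : Fin 4) : EuclideanSpace ℝ (Fin 2) := !₂[X (dg i), Y (dg i)]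

theorem vtx_0 (i : Fin 4) : vtx i 0 = X (dg i) := rfl
theorem vtx_1 (i : Fin 4) : vtx i 1 = Y (dg i) := rfl

theorem dg0 : dg 0 = .A := rfl
theorem dg1 : dg 1 = .B := rfl
theorem dg2 : dg 2 = .D := rfl
theorem dg3 : dg 3 = .C := rfl

theorem ext2 {x y : EuclideanSpace ℝ (Fin 2)} (h0 : x 0 = y 0) (h1 : x 1 = y 1) : x = y := by
  ext i
  fin_cases i
  · exact h0
  · exact h1

/-- The coordinates of a point. -/
noncomputable def co (x : EuclideanSpace ℝ (Fin 2)) : ℝ × ℝ := (x 0, x 1)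

theorem co_inj {x y : EuclideanSpace ℝ (Fin 2)} (h : co x = co y) : x = y :=
  ext2 (congrArg Prod.fst h) (congrArg Prod.snd h)

theorem co_pnt {lam : ℝ} (h0 : 0 < lam) (h1 : lam < 1) (e : ℕ → Fin 4) :
    co (pnt vtx lam e) = pt lam (fun n => dg (e n)) := by
  have hs := (summable_term (p := vtx) h0 h1 e).hasSum
  have hc : ∀ i : Fin 2, HasSum (fun n => ((1 - lam) * lam ^ n) * (vtx (e n) i))
      (pnt vtx lam e i) := by
    intro i
    have := hs.mapL (EuclideanSpace.proj (𝕜 := ℝ) i)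
    simpa [pnt] using this
  unfold co pt
  refine Prod.ext ?_ ?_
  · have h2 := (hc 0).tsum_eq
    simp only [vtx_0, mul_assoc, tsum_mul_left] at h2
    exact h2.symm
  · have h2 := (hc 1).tsum_eq
    simp only [vtx_1, mul_assoc, tsum_mul_left] at h2
    exact h2.symm

/-- The sequence of indices of a word. -/
def un (e : Word) : ℕ → Fin 4 := fun n => ix (e n)

theorem co_pnt_un {lam : ℝ} (h0 : 0 < lam) (h1 : lam < 1) (e : Word) :
    co (pnt vtx lam (un e)) = pt lam e := by
  rw [co_pnt h0 h1]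
  congr 1
  funext n
  exact dg_ix _

theorem tight {a b u v c : ℝ} (ha : 0 < a) (hb : 0 < b) (hab : a + b = 1) (hu : u ≤ c)
    (hv : v ≤ c) (h : a * u + b * v = c) : u = c ∧ v = c := by
  have h1 : 0 ≤ a * (c - u) := mul_nonneg ha.le (by linarith)
  have h2 : 0 ≤ b * (c - v) := mul_nonneg hb.le (by linarith)
  have h3 : a * (c - u) + b * (c - v) = 0 := by
    have : a * (c - u) + b * (c - v) = (a + b) * c - (a * u + b * v) := by ring
    rw [this, hab, h]
    ring
  have h4 : a * (c - u) = 0 := by linarith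
  have h5 : b * (c - v) = 0 := by linarith
  have h6 := (mul_eq_zero.mp h4).resolve_left ha.ne'
  have h7 := (mul_eq_zero.mp h5).resolve_left hb.ne'
  constructor <;> linarith

/-- The quadrilateral. -/
def Quad : Set (EuclideanSpace ℝ (Fin 2)) := {x | 0 ≤ x 0 ∧ 0 ≤ x 1 ∧
  (1 - al) * x 0 + x 1 ≤ 1 ∧ (1 + be) * x 0 + x 1 ≤ 1 + be}

theorem quad_convex : Convex ℝ Quad := by
  intro x hx y hy a b ha hb hab
  obtain ⟨x1, x2, x3, x4⟩ := hx
  obtain ⟨y1, y2, y3, y4⟩ := hy
  have e0 : (a • x + b • y) 0 = a * x 0 + b * y 0 := by simp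
  have e1 : (a • x + b • y) 1 = a * x 1 + b * y 1 := by simp
  refine ⟨?_, ?_, ?_, ?_⟩
  · rw [e0]; positivity
  · rw [e1]; positivity
  · rw [e0, e1]
    have h1 := mul_le_mul_of_nonneg_left x3 ha
    have h2 := mul_le_mul_of_nonneg_left y3 hb
    nlinarith
  · rw [e0, e1]
    have h1 := mul_le_mul_of_nonneg_left x4 ha
    have h2 := mul_le_mul_of_nonneg_left y4 hb
    have h3 : (a + b) * (1 + be) = 1 + be := by rw [hab, one_mul]
    nlinarith

theorem hull_sub : convexHull ℝ (Set.range vtx) ⊆ Quad := by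
  apply convexHull_min _ quad_convex
  rintro x ⟨i, rfl⟩
  unfold Quad
  simp only [Set.mem_ofPred_eq, vtx_0, vtx_1]
  fin_cases i
  · simp only [Fin.zero_eta, dg0, XA, YA, al, be]; norm_num
  · simp only [Fin.mk_one, dg1, XB, YB, al, be]; norm_num
  · simp only [Fin.reduceFinMk, dg2, XD, YD, al, be]; norm_num
  · simp only [Fin.reduceFinMk, dg3, XC, YC, al, be]; norm_num

/-- A vertex determined by two tight constraints. -/
theorem extreme_of_tight (i : Fin 4) (a1 b1 c1 a2 b2 c2 : ℝ)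
    (h1 : ∀ x ∈ Quad, a1 * x 0 + b1 * x 1 ≤ c1) (h2 : ∀ x ∈ Quad, a2 * x 0 + b2 * x 1 ≤ c2)
    (e1 : a1 * vtx i 0 + b1 * vtx i 1 = c1) (e2 : a2 * vtx i 0 + b2 * vtx i 1 = c2)
    (hdet : a1 * b2 - a2 * b1 ≠ 0) :
    vtx i ∈ (convexHull ℝ (Set.range vtx)).extremePoints ℝ := by
  rw [mem_extremePoints]
  refine ⟨subset_convexHull ℝ _ ⟨i, rfl⟩, ?_⟩
  intro x hx y hy hxy
  have hx' := hull_sub hx
  have hy' := hull_sub hy
  obtain ⟨a, b, ha, hb, hab, hz⟩ := hxy
  have z0 : a * x 0 + b * y 0 = vtx i 0 := by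
    have := congrArg (fun w : EuclideanSpace ℝ (Fin 2) => w 0) hz
    simpa using this
  have z1 : a * x 1 + b * y 1 = vtx i 1 := by
    have := congrArg (fun w : EuclideanSpace ℝ (Fin 2) => w 1) hz
    simpa using this
  have t1 := tight ha hb hab (h1 x hx') (h1 y hy') (by
    rw [← e1, ← z0, ← z1]; ring)
  have t2 := tight ha hb hab (h2 x hx') (h2 y hy') (by
    rw [← e2, ← z0, ← z1]; ring)
  have fin : ∀ w : EuclideanSpace ℝ (Fin 2), a1 * w 0 + b1 * w 1 = c1 →
      a2 * w 0 + b2 * w 1 = c2 → w = vtx i := by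
    intro w w1 w2
    apply ext2
    · have : (a1 * b2 - a2 * b1) * (w 0 - vtx i 0) = 0 := by
        linear_combination b2 * (w1 - e1) - b1 * (w2 - e2)
      rcases mul_eq_zero.mp this with h | h
      · exact absurd h hdet
      · linarith
    · have : (a1 * b2 - a2 * b1) * (w 1 - vtx i 1) = 0 := by
        linear_combination a1 * (w2 - e2) - a2 * (w1 - e1)
      rcases mul_eq_zero.mp this with h | h
      · exact absurd h hdet
      · linarith
  exact ⟨fin x t1.1 t2.1, fin y t1.2 t2.2⟩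

theorem vtx_extreme (i : Fin 4) : vtx i ∈ (convexHull ℝ (Set.range vtx)).extremePoints ℝ := by
  fin_cases i
  · refine extreme_of_tight 0 (-1) 0 0 0 (-1) 0 ?_ ?_ ?_ ?_ (by norm_num)
    · intro x hx; have := hx.1; linarith
    · intro x hx; have := hx.2.1; linarith
    · simp only [vtx_0, vtx_1, dg0, XA, YA]; norm_num
    · simp only [vtx_0, vtx_1, dg0, XA, YA]; norm_num
  · refine extreme_of_tight 1 (1 + be) 1 (1 + be) 0 (-1) 0 ?_ ?_ ?_ ?_ ?_
    · intro x hx; have := hx.2.2.2; linarith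
    · intro x hx; have := hx.2.1; linarith
    · simp only [vtx_0, vtx_1, dg1, XB, YB]; norm_num
    · simp only [vtx_0, vtx_1, dg1, XB, YB]; norm_num
    · unfold be; norm_num
  · refine extreme_of_tight 2 (1 - al) 1 1 (1 + be) 1 (1 + be) ?_ ?_ ?_ ?_ ?_
    · intro x hx; have := hx.2.2.1; linarith
    · intro x hx; have := hx.2.2.2; linarith
    · simp only [vtx_0, vtx_1, dg2, XD, YD, al]; norm_num
    · simp only [vtx_0, vtx_1, dg2, XD, YD, be]; norm_num
    · unfold al be; norm_num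
  · refine extreme_of_tight 3 (1 - al) 1 1 (-1) 0 0 ?_ ?_ ?_ ?_ ?_
    · intro x hx; have := hx.2.2.1; linarith
    · intro x hx; have := hx.1; linarith
    · simp only [vtx_0, vtx_1, dg3, XC, YC]; norm_num
    · simp only [vtx_0, vtx_1, dg3, XC, YC]; norm_num
    · unfold al; norm_num

theorem vtx_inj : Function.Injective vtx := by
  intro i j h
  have h0 : X (dg i) = X (dg j) := by rw [← vtx_0, ← vtx_0, h]
  have h1 : Y (dg i) = Y (dg j) := by rw [← vtx_1, ← vtx_1, h]
  have hd : dg i = dg j := by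
    cases hi : dg i <;> cases hj : dg j <;> rw [hi, hj] at h0 h1 <;>
      first | rfl | (exfalso; revert h0 h1; norm_num [X, Y, wx, wy])
  rw [← ix_dg i, ← ix_dg j, hd]

theorem vtx_vertices : IsVertices vtx := by
  refine ⟨vtx_inj, Set.Subset.antisymm extremePoints_convexHull_subset ?_⟩
  rintro x ⟨i, rfl⟩
  exact vtx_extreme i

/-- At the ratio `19/30` no point except the vertices has exactly one address. -/
theorem low {x : EuclideanSpace ℝ (Fin 2)} (h : ∃! e, IsAddress vtx (19 / 30) e x) :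
    x ∈ Set.range vtx := by
  have l0 : (0 : ℝ) < 19 / 30 := by norm_num
  have l1 : (19 / 30 : ℝ) < 1 := by norm_num
  obtain ⟨e, he, hu⟩ := h
  have hx := (isAddress_iff l0 l1).mp he
  have hU : Uq (19 / 30) (fun n => dg (e n)) := by
    intro e' he'
    have h2 : co (pnt vtx (19 / 30) (un e')) = co x := by
      rw [co_pnt_un l0 l1, he', ← co_pnt l0 l1, hx]
    have h3 := hu (un e') ((isAddress_iff l0 l1).mpr (co_inj h2))
    funext n
    rw [← h3]
    exact (dg_ix _).symm
  have hc := uq_const hU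
  have hp : co x = co (vtx (e 0)) := by
    rw [← hx, co_pnt l0 l1]
    have h4 : (fun n => dg (e n)) = fun _ => dg (e 0) := by
      funext n
      exact hc n
    rw [h4]
    unfold co pt
    refine Prod.ext ?_ ?_
    · change val (19 / 30) X (fun _ => dg (e 0)) = X (dg (e 0))
      exact val_const l0.le l1 (X (dg (e 0))) (fun _ => dg (e 0))
    · change val (19 / 30) Y (fun _ => dg (e 0)) = Y (dg (e 0))
      exact val_const l0.le l1 (Y (dg (e 0))) (fun _ => dg (e 0))
  exact ⟨e 0, (co_inj hp).symm⟩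

/-- The point with the periodic address. -/
noncomputable def xs : EuclideanSpace ℝ (Fin 2) := !₂[11718 / 36061, 3773 / 36061]

theorem co_xs : co xs = zz 0 := rfl

theorem xs_not_vtx : xs ∉ Set.range vtx := by
  rintro ⟨i, hi⟩
  have h0 : X (dg i) = 11718 / 36061 := by rw [← vtx_0, hi]; rfl
  cases hd : dg i <;> rw [hd] at h0 <;> revert h0 <;> norm_num [X, wx]

/-- At the ratio `7/11` this point has exactly one address. -/
theorem high : ∃! e, IsAddress vtx (7 / 11) e xs := by
  have l0 : (0 : ℝ) < 7 / 11 := by norm_num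
  have l1 : (7 / 11 : ℝ) < 1 := by norm_num
  refine ⟨un w0, ?_, ?_⟩
  · refine (isAddress_iff l0 l1).mpr (co_inj ?_)
    rw [co_pnt_un l0 l1, pt_w0, co_xs]
  · intro e he
    have h1 := (isAddress_iff l0 l1).mp he
    have h2 : pt (7 / 11) (fun n => dg (e n)) = pt (7 / 11) w0 := by
      rw [← co_pnt l0 l1, h1, co_xs, pt_w0]
    have h3 := uniq_w0 _ h2
    funext n
    have h4 : dg (e n) = w0 n := congrFun h3 n
    change e n = ix (w0 n)
    rw [← h4, ix_dg]

/-- The final statement. -/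
theorem final_all : ∃ p : Fin 4 → EuclideanSpace ℝ (Fin 2), IsVertices p ∧
    (∀ lam, 0 < lam → lam < 1 → ∃! S, IsAttractor p lam S) ∧
    (∀ S, IsAttractor p (19 / 30) S → ∀ x ∈ S, x ∉ Set.range p →
      ¬ ∃! e, IsAddress p (19 / 30) e x) ∧
    (∀ S, IsAttractor p (7 / 11) S → ∃ x ∈ S, x ∉ Set.range p ∧
      ∃! e, IsAddress p (7 / 11) e x) ∧
    ¬ ∃ ls, 0 < ls ∧ ls < 1 ∧ IsThreshold p ls := by
  have hin : xs ∈ Set.range (pnt vtx (7 / 11)) := by
    obtain ⟨e, he, _⟩ := high
    exact ⟨e, (isAddress_iff (by norm_num) (by norm_num)).mp he⟩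
  refine ⟨vtx, vtx_vertices, fun lam h0 h1 => existsUnique_attractor (by norm_num) h0 h1,
    fun S _ x _ hx hu => hx (low hu), ?_, ?_⟩
  · intro S hS
    rw [attractor_eq (by norm_num) (by norm_num) hS]
    exact ⟨xs, hin, xs_not_vtx, high⟩
  rintro ⟨ls, _, _, hup, hlow⟩
  rcases lt_or_ge (19 / 30 : ℝ) ls with h | h
  · have hA := isAttractor_range (p := vtx) (lam := 19 / 30) (by norm_num) (by norm_num)
      (by norm_num)
    obtain ⟨x, _, hx2, hx3⟩ := hlow (19 / 30) (by norm_num) h _ hA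
    exact hx2 (low hx3)
  · have hA := isAttractor_range (p := vtx) (lam := 7 / 11) (by norm_num) (by norm_num)
      (by norm_num)
    obtain ⟨e, he, hu⟩ := high
    refine hup (7 / 11) (by linarith) (by norm_num) _ hA xs hin xs_not_vtx ?_
    refine (Set.countable_singleton e).mono ?_
    intro e' he'
    exact hu e' he'

end H429P
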