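import Pool.Agent.H429P.Rooms

/-!
Soundness of the killed words and of the search: for the ratio `19/30` a word which is the only
address of its point is constant.
-/

namespace H429P

/-- The point `z0` is the image of `z` under the affine map `t` (five functionals, cleared of
denominators). -/
structure At (t : St) (z0 z : ℝ × ℝ) : Prop where
  pl : (0 : ℝ) < t.pl
  pb : (0 : ℝ) < t.pb
  hx : (t.pb : ℝ) * (500000000000 * z0.1) = t.pl * (500000000000 * z.1) + t.x
  hy : (t.pb : ℝ) * (500000000000 * z0.2) = t.pl * (500000000000 * z.2) + t.y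
  hs : (t.pb : ℝ) * (500000000000 * (z0.1 + z0.2)) =
    t.pl * (500000000000 * (z.1 + z.2)) + t.s
  ha : (t.pb : ℝ) * (500000000000 * (z0.1 + z0.2 - al * z0.1)) =
    t.pl * (500000000000 * (z.1 + z.2 - al * z.1)) + t.a
  hb : (t.pb : ℝ) * (500000000000 * (z0.1 + z0.2 + be * z0.1)) =
    t.pl * (500000000000 * (z.1 + z.2 + be * z.1)) + t.b

theorem At.zero (z : ℝ × ℝ) : At st0 z z := by
  refine ⟨?_, ?_, ?_, ?_, ?_, ?_, ?_⟩ <;> simp [st0]

theorem At.step {t : St} {z0 z z' : ℝ × ℝ} (h : At t z0 z) {g : Dg}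
    (hz : z = f (19 / 30) g z') : At (step t g) z0 z' := by
  obtain ⟨hpl, hpb, hx, hy, hs, ha, hb⟩ := h
  have e1 : z.1 = 19 / 30 * z'.1 + (1 - 19 / 30) * X g := by rw [hz]; rfl
  have e2 : z.2 = 19 / 30 * z'.2 + (1 - 19 / 30) * Y g := by rw [hz]; rfl
  have s3 := s_eq g
  have s4 := a_eq g
  have s5 := b_eq g
  have s1 : (wx g : ℝ) = 500000000000 * X g := by unfold X; ring
  have s2 : (wy g : ℝ) = 500000000000 * Y g := by unfold Y; ring
  have s3' : (ws g : ℝ) = 500000000000 * (X g + Y g) := by rw [← s3]; ring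
  have s4' : (w1 g : ℝ) = 500000000000 * (X g + Y g - al * X g) := by rw [← s4]; ring
  have s5' : (w2 g : ℝ) = 500000000000 * (X g + Y g + be * X g) := by rw [← s5]; ring
  refine ⟨?_, ?_, ?_, ?_, ?_, ?_, ?_⟩
  · simp only [H429P.step]
    push_cast
    linarith
  · simp only [H429P.step]
    push_cast
    linarith
  · simp only [H429P.step]
    push_cast
    rw [s1]
    rw [e1] at hx
    linear_combination 30 * hx
  · simp only [H429P.step]
    push_cast
    rw [s2]
    rw [e2] at hy
    linear_combination 30 * hy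
  · simp only [H429P.step]
    push_cast
    rw [s3']
    rw [e1, e2] at hs
    linear_combination 30 * hs
  · simp only [H429P.step]
    push_cast
    rw [s4']
    rw [e1, e2] at ha
    linear_combination 30 * ha
  · simp only [H429P.step]
    push_cast
    rw [s5']
    rw [e1, e2] at hb
    linear_combination 30 * hb

theorem At.foldl : ∀ (v : List Dg) (t : St) (z0 z : ℝ × ℝ), At t z0 z →
    At (v.foldl H429P.step t) z0 (v.foldl (fun z g => fi g z) z) := by
  intro v
  induction v with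
  | nil => intro t z0 z h; exact h
  | cons g v ih =>
    intro t z0 z h
    exact ih _ _ _ (h.step (f_fi g z).symm)

theorem inS_foldl : ∀ (v : List Dg) (z : ℝ × ℝ), InS (19 / 30) (v.foldl (fun z g => fi g z) z) →
    InS (19 / 30) z := by
  intro v
  induction v with
  | nil => intro z h; exact h
  | cons g v ih =>
    intro z h
    have h1 := ih (fi g z) h
    have h2 := h1.f (by norm_num) (by norm_num) g
    rwa [f_fi] at h2

/-- The bounds of the hexagon-like region around the polygon. -/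
structure InP (z : ℝ × ℝ) : Prop where
  x : 0 ≤ z.1
  y : 0 ≤ z.2
  s : 500000000000 * (z.1 + z.2) ≤ 500002490279
  a : z.1 + z.2 - al * z.1 ≤ 1
  b : z.1 + z.2 + be * z.1 ≤ 1 + be

theorem pt_inP {lam : ℝ} (h0 : 0 ≤ lam) (h1 : lam < 1) (e : Word) : InP (pt lam e) := by
  have hadd : ∀ a b : ℝ, a * val lam X e + b * val lam Y e =
      val lam (fun g => a * X g + b * Y g) e := fun a b => (val_lin h0 h1 X Y a b e).symm
  refine ⟨?_, ?_, ?_, ?_, ?_⟩
  · refine le_val h0 h1 X 0 ?_ e
    intro g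
    unfold X
    positivity
  · refine le_val h0 h1 Y 0 ?_ e
    intro g
    unfold Y
    positivity
  · have h2 := hadd 500000000000 500000000000
    have h3 : val lam (fun g => 500000000000 * X g + 500000000000 * Y g) e ≤ 500002490279 := by
      refine val_le h0 h1 _ _ ?_ e
      intro g
      cases g <;> norm_num [X, Y, wx, wy]
    simp only [pt]
    linarith
  · have h2 := hadd (1 - al) 1
    have h3 : val lam (fun g => (1 - al) * X g + 1 * Y g) e ≤ 1 := by
      refine val_le h0 h1 _ _ ?_ e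
      intro g
      cases g <;> norm_num [X, Y, wx, wy, al]
    simp only [pt]
    linarith
  · have h2 := hadd (1 + be) 1
    have h3 : val lam (fun g => (1 + be) * X g + 1 * Y g) e ≤ 1 + be := by
      refine val_le h0 h1 _ _ ?_ e
      intro g
      cases g <;> norm_num [X, Y, wx, wy, be]
    simp only [pt]
    linarith

theorem lower {upb upl ux vpb vpl vx Z Q Q' A : ℝ} (h1 : 0 < upb) (h2 : 0 < upl) (h3 : 0 < vpb)
    (h4 : 0 < vpl) (hu : upb * Z = upl * Q + ux) (hv : vpb * Z = vpl * Q' + vx) (hQ : 0 ≤ Q)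
    (h : upb * (vpl * A + vx) ≤ vpb * ux) : A ≤ Q' := by
  have e1 : 0 ≤ vpb * (upl * Q) := by positivity
  have e2 : upb * (vpl * Q' + vx) = vpb * (upl * Q + ux) := by
    rw [← hu, ← hv]; ring
  have e3 : upb * (vpl * A + vx) ≤ upb * (vpl * Q' + vx) := by
    rw [e2]
    nlinarith
  have e4 := le_of_mul_le_mul_left e3 h1
  have e5 : vpl * A ≤ vpl * Q' := by linarith
  exact le_of_mul_le_mul_left e5 h4

theorem upper {upb upl ux vpb vpl vx Z Q Q' A M : ℝ} (h1 : 0 < upb) (h2 : 0 < upl) (h3 : 0 < vpb)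
    (h4 : 0 < vpl) (hu : upb * Z = upl * Q + ux) (hv : vpb * Z = vpl * Q' + vx) (hQ : Q ≤ M)
    (h : vpb * (ux + upl * M) ≤ upb * (vpl * A + vx)) : Q' ≤ A := by
  have e1 : vpb * (upl * Q) ≤ vpb * (upl * M) :=
    mul_le_mul_of_nonneg_left (mul_le_mul_of_nonneg_left hQ h2.le) h3.le
  have e2 : upb * (vpl * Q' + vx) = vpb * (upl * Q + ux) := by
    rw [← hu, ← hv]; ring
  have e3 : upb * (vpl * Q' + vx) ≤ upb * (vpl * A + vx) := by
    rw [e2]
    nlinarith
  have e4 := le_of_mul_le_mul_left e3 h1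
  have e5 : vpl * Q' ≤ vpl * A := by linarith
  exact le_of_mul_le_mul_left e5 h4

theorem okRoom_sound {u v : St} {q : Nat × Nat × Nat} {z0 z z' : ℝ × ℝ} (hu : At u z0 z)
    (hz : InP z) (hv : At v z0 z') (h : okRoom u v q = true) : inRoom q z' := by
  simp only [okRoom, Bool.and_eq_true] at h
  obtain ⟨c1, c2, c3⟩ := h
  have d1 : (u.pb : ℝ) * (v.pl * (q.1 * 50000000) + v.x) ≤ v.pb * u.x := by
    exact_mod_cast Nat.le_of_ble_eq_true c1
  have d2 : (u.pb : ℝ) * (v.pl * (q.2.1 * 50000000) + v.y) ≤ v.pb * u.y := by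
    exact_mod_cast Nat.le_of_ble_eq_true c2
  have d3 : (v.pb : ℝ) * (u.s + u.pl * 500002490279) ≤
      u.pb * (v.pl * (q.2.2 * 50000000) + v.s) := by
    exact_mod_cast Nat.le_of_ble_eq_true c3
  have r1 := lower hu.pb hu.pl hv.pb hv.pl hu.hx hv.hx (by have := hz.x; positivity) d1
  have r2 := lower hu.pb hu.pl hv.pb hv.pl hu.hy hv.hy (by have := hz.y; positivity) d2
  have r3 := upper hu.pb hu.pl hv.pb hv.pl hu.hs hv.hs hz.s d3
  refine ⟨?_, ?_, ?_⟩ <;> linarith

theorem okPlus_sound {u v : St} {q : Nat × Nat × Nat} {z0 z z' : ℝ × ℝ} (hu : At u z0 z)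
    (hz : InP z) (hv : At v z0 z') (h : okPlus u v q = true) : inPlus q z' := by
  simp only [okPlus, Bool.and_eq_true] at h
  obtain ⟨c1, c2, c3, c4⟩ := h
  have d1 : (u.pb : ℝ) * (v.pl * (q.1 * 50000000) + v.x) ≤ v.pb * u.x := by
    exact_mod_cast Nat.le_of_ble_eq_true c1
  have d2 : (u.pb : ℝ) * (v.pl * (q.2.1 * 50000000) + v.y) ≤ v.pb * u.y := by
    exact_mod_cast Nat.le_of_ble_eq_true c2
  have d3 : (v.pb : ℝ) * (u.a + u.pl * 500000000000) ≤
      u.pb * (v.pl * 500000000000 + v.a) := by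
    exact_mod_cast Nat.le_of_ble_eq_true c3
  have d4 : (v.pb : ℝ) * (u.b + u.pl * 500002805000) ≤
      u.pb * (v.pl * 500002805000 + v.b) := by
    exact_mod_cast Nat.le_of_ble_eq_true c4
  have r1 := lower hu.pb hu.pl hv.pb hv.pl hu.hx hv.hx (by have := hz.x; positivity) d1
  have r2 := lower hu.pb hu.pl hv.pb hv.pl hu.hy hv.hy (by have := hz.y; positivity) d2
  have r3 := upper hu.pb hu.pl hv.pb hv.pl hu.ha hv.ha (by have := hz.a; linarith) d3
  have r4 := upper hu.pb hu.pl hv.pb hv.pl hu.hb hv.hb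
    (by have := hz.b; unfold be at *; linarith) d4
  refine ⟨?_, ?_, ?_, ?_⟩
  · linarith
  · linarith
  · linarith
  · unfold be at *
    linarith

theorem okKill_sound {E : Word} (hE : Uq (19 / 30) E) {u : St} {z : ℝ × ℝ}
    (hu : At u (pt (19 / 30) E) z) (hz : InP z) {v : List Dg} {r : ℕ} (hr : r < 71)
    (h : okKill u (E 0) v r = true) : False := by
  cases v with
  | nil => simp [okKill] at h
  | cons g v =>
    simp only [okKill, Bool.and_eq_true, decide_eq_true_eq] at h
    obtain ⟨hg, h⟩ := h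
    have hv : At ((g :: v).foldl step st0) (pt (19 / 30) E)
        ((g :: v).foldl (fun z g => fi g z) (pt (19 / 30) E)) := At.foldl _ _ _ _ (At.zero _)
    have hin : InS (19 / 30) ((g :: v).foldl (fun z g => fi g z) (pt (19 / 30) E)) := by
      split_ifs at h with hc
      · exact room_inS hc (okRoom_sound hu hz hv h)
      · exact plus_inS (by omega) hr (okPlus_sound hu hz hv h)
    have h2 : InS (19 / 30) (fi g (pt (19 / 30) E)) := inS_foldl v _ hin
    exact hE.alt (by norm_num) (by norm_num) hg h2 (f_fi g _)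

end H429P
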