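import Pool.Agent.H429P.Basic

/-!
The rooms of the certificate lie in the attractor for the ratio `19/30`.
-/

namespace H429P

/-- Membership in a cell. -/
def Cell.mem (c : Cell) (z : ℝ × ℝ) : Prop :=
  (c.x0 : ℝ) ≤ 15000000000000 * z.1 ∧ 15000000000000 * z.1 ≤ c.x1 ∧
  (c.y0 : ℝ) ≤ 15000000000000 * z.2 ∧ 15000000000000 * z.2 ≤ c.y1 ∧
  (c.s0 : ℝ) ≤ 15000000000000 * (z.1 + z.2) ∧ 15000000000000 * (z.1 + z.2) ≤ c.s1

theorem mem_nx0 {c : Cell} {z : ℝ × ℝ} (h : c.mem z) : (nx0 c).mem z := by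
  obtain ⟨h1, h2, h3, h4, h5, h6⟩ := h
  refine ⟨?_, h2, h3, h4, h5, h6⟩
  simp only [nx0]
  push_cast
  exact max_le h1 (by linarith)

theorem mem_ny0 {c : Cell} {z : ℝ × ℝ} (h : c.mem z) : (ny0 c).mem z := by
  obtain ⟨h1, h2, h3, h4, h5, h6⟩ := h
  refine ⟨h1, h2, ?_, h4, h5, h6⟩
  simp only [ny0]
  push_cast
  exact max_le h3 (by linarith)

theorem mem_ns1 {c : Cell} {z : ℝ × ℝ} (h : c.mem z) : (ns1 c).mem z := by
  obtain ⟨h1, h2, h3, h4, h5, h6⟩ := h
  refine ⟨h1, h2, h3, h4, h5, ?_⟩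
  simp only [ns1]
  push_cast
  exact le_min h6 (by linarith)

theorem mem_nx1 {c : Cell} {z : ℝ × ℝ} (h : c.mem z) : (nx1 c).mem z := by
  obtain ⟨h1, h2, h3, h4, h5, h6⟩ := h
  refine ⟨h1, ?_, h3, h4, h5, h6⟩
  simp only [nx1]
  push_cast
  exact le_min h2 (by linarith)

theorem mem_ny1 {c : Cell} {z : ℝ × ℝ} (h : c.mem z) : (ny1 c).mem z := by
  obtain ⟨h1, h2, h3, h4, h5, h6⟩ := h
  refine ⟨h1, h2, h3, ?_, h5, h6⟩
  simp only [ny1]
  push_cast
  exact le_min h4 (by linarith)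

theorem mem_ns0 {c : Cell} {z : ℝ × ℝ} (h : c.mem z) : (ns0 c).mem z := by
  obtain ⟨h1, h2, h3, h4, h5, h6⟩ := h
  refine ⟨h1, h2, h3, h4, ?_, h6⟩
  simp only [ns0]
  push_cast
  exact max_le h5 (by linarith)

theorem mem_nrm {c : Cell} {z : ℝ × ℝ} (h : c.mem z) : (nrm c).mem z :=
  mem_ns0 (mem_ny1 (mem_nx1 (mem_ns1 (mem_ny0 (mem_nx0 h)))))

/-- Membership in a room. -/
def inRoom (q : Nat × Nat × Nat) (z : ℝ × ℝ) : Prop :=
  (q.1 : ℝ) ≤ 10000 * z.1 ∧ (q.2.1 : ℝ) ≤ 10000 * z.2 ∧ 10000 * (z.1 + z.2) ≤ q.2.2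

/-- The inverse of the map of a digit for the ratio `19/30`. -/
noncomputable def fi (g : Dg) (z : ℝ × ℝ) : ℝ × ℝ :=
  ((30 * z.1 - 11 * X g) / 19, (30 * z.2 - 11 * Y g) / 19)

theorem f_fi (g : Dg) (z : ℝ × ℝ) : f (19 / 30) g (fi g z) = z := by
  unfold f fi
  ext <;> simp <;> ring

theorem room_of_bounds {g : Dg} {r : ℕ} {z : ℝ × ℝ} (h1 : (la g r : ℝ) ≤ 15000000000000 * z.1)
    (h2 : (lb g r : ℝ) ≤ 15000000000000 * z.2)
    (h3 : 15000000000000 * (z.1 + z.2) ≤ (lc g r : ℝ)) : inRoom (room r) (fi g z) := by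
  have e3 := s_eq g
  simp only [la, lb, lc] at h1 h2 h3
  push_cast at h1 h2 h3
  unfold inRoom fi
  simp only [X, Y] at *
  refine ⟨?_, ?_, ?_⟩ <;> linarith

theorem chk_sound : ∀ (t : Ct) (c : Cell) (z : ℝ × ℝ), chk t c = true → c.mem z →
    ∃ g r, r < 68 ∧ inRoom (room r) (fi g z) := by
  intro t
  induction t with
  | e =>
    intro c z h hz
    exfalso
    have hm := mem_nrm (mem_nrm hz)
    obtain ⟨h1, h2, h3, h4, h5, h6⟩ := hm
    simp only [chk, Bool.or_eq_true, decide_eq_true_eq] at h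
    rcases h with h | h | h
    · have : ((nrm (nrm c)).x1 : ℝ) < ((nrm (nrm c)).x0 : ℝ) := by exact_mod_cast h
      linarith
    · have : ((nrm (nrm c)).y1 : ℝ) < ((nrm (nrm c)).y0 : ℝ) := by exact_mod_cast h
      linarith
    · have : ((nrm (nrm c)).s1 : ℝ) < ((nrm (nrm c)).s0 : ℝ) := by exact_mod_cast h
      linarith
  | l g r =>
    intro c z h hz
    have hm := mem_nrm (mem_nrm hz)
    obtain ⟨h1, h2, h3, h4, h5, h6⟩ := hm
    simp only [chk, Bool.and_eq_true, decide_eq_true_eq] at h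
    obtain ⟨hr, ha, hb, hc⟩ := h
    have ha' : (la g r : ℝ) ≤ ((nrm (nrm c)).x0 : ℝ) := by exact_mod_cast ha
    have hb' : (lb g r : ℝ) ≤ ((nrm (nrm c)).y0 : ℝ) := by exact_mod_cast hb
    have hc' : ((nrm (nrm c)).s1 : ℝ) ≤ (lc g r : ℝ) := by exact_mod_cast hc
    exact ⟨g, r, hr, room_of_bounds (by linarith) (by linarith) (by linarith)⟩
  | x g r l t ihl iht =>
    intro c z h hz
    simp only [chk, Bool.and_eq_true] at h
    obtain ⟨h1, h2, h3, h4, h5, h6⟩ := hz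
    rcases le_total (15000000000000 * z.1) (la g r : ℝ) with hh | hh
    · refine ihl _ z h.1 ⟨h1, ?_, h3, h4, h5, h6⟩
      push_cast
      exact le_min h2 hh
    · refine iht _ z h.2 ⟨?_, h2, h3, h4, h5, h6⟩
      push_cast
      exact max_le h1 hh
  | y g r l t ihl iht =>
    intro c z h hz
    simp only [chk, Bool.and_eq_true] at h
    obtain ⟨h1, h2, h3, h4, h5, h6⟩ := hz
    rcases le_total (15000000000000 * z.2) (lb g r : ℝ) with hh | hh
    · refine ihl _ z h.1 ⟨h1, h2, h3, ?_, h5, h6⟩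
      push_cast
      exact le_min h4 hh
    · refine iht _ z h.2 ⟨h1, h2, ?_, h4, h5, h6⟩
      push_cast
      exact max_le h3 hh
  | s g r l t ihl iht =>
    intro c z h hz
    simp only [chk, Bool.and_eq_true] at h
    obtain ⟨h1, h2, h3, h4, h5, h6⟩ := hz
    rcases le_total (lc g r : ℝ) (15000000000000 * (z.1 + z.2)) with hh | hh
    · refine ihl _ z h.1 ⟨h1, h2, h3, h4, ?_, h6⟩
      push_cast
      exact max_le h5 hh
    · refine iht _ z h.2 ⟨h1, h2, h3, h4, h5, ?_⟩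
      push_cast
      exact le_min h6 hh

theorem mem_cellOf {q : Nat × Nat × Nat} {z : ℝ × ℝ} (h : inRoom q z) : (cellOf q).mem z := by
  obtain ⟨h1, h2, h3⟩ := h
  have e1 : (0 : ℝ) ≤ q.1 := Nat.cast_nonneg _
  have e2 : (0 : ℝ) ≤ q.2.1 := Nat.cast_nonneg _
  unfold cellOf Cell.mem
  push_cast
  refine ⟨?_, ?_, ?_, ?_, ?_, ?_⟩ <;> linarith

theorem checkRooms_get : ∀ (n : ℕ), checkRooms n = true → ∀ r < n,
    chk (trees.getD r .e) (cellOf (room r)) = true := by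
  intro n
  induction n with
  | zero =>
    intro _ r hr
    omega
  | succ n ih =>
    intro h r hr
    simp only [checkRooms, Bool.and_eq_true] at h
    rcases Nat.lt_succ_iff_lt_or_eq.mp hr with h1 | h1
    · exact ih h.1 r h1
    · rw [h1]
      exact h.2

theorem room_covered {r : ℕ} (hr : r < 68) {z : ℝ × ℝ} (hz : inRoom (room r) z) :
    ∃ g r', r' < 68 ∧ inRoom (room r') (fi g z) :=
  chk_sound _ _ _ (checkRooms_get 68 checkRooms_true r hr) (mem_cellOf hz)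

/-- All rooms have `c ≤ 10000`. -/
def capAll : Nat → Bool
  | 0 => true
  | n + 1 => capAll n && Nat.ble (room n).2.2 10000

theorem capAll_true : capAll 68 = true := by decide +kernel

theorem capAll_get : ∀ (n : ℕ), capAll n = true → ∀ r < n, (room r).2.2 ≤ 10000 := by
  intro n
  induction n with
  | zero =>
    intro _ r hr
    omega
  | succ n ih =>
    intro h r hr
    simp only [capAll, Bool.and_eq_true] at h
    rcases Nat.lt_succ_iff_lt_or_eq.mp hr with h1 | h1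
    · exact ih h.1 r h1
    · rw [h1]
      exact Nat.le_of_ble_eq_true h.2

theorem room_cap {r : ℕ} (hr : r < 68) : (room r).2.2 ≤ 10000 := capAll_get 68 capAll_true r hr

/-- The thin region along the two slanted edges. -/
def Nr (z : ℝ × ℝ) : Prop :=
  1 ≤ z.1 + z.2 ∧ z.1 + z.2 - al * z.1 ≤ 1 ∧ z.1 + z.2 + be * z.1 ≤ 1 + be ∧ z.1 ≤ 9 / 10

/-- The invariant set. -/
def KK : Set (ℝ × ℝ) := {z | Nr z ∨ ∃ r, r < 68 ∧ inRoom (room r) z}

theorem room7 : room 7 = (0, 3258, 10000) := by decide +kernel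
theorem room36 : room 36 = (3669, 2064, 10000) := by decide +kernel
theorem room43 : room 43 = (5991, 1308, 10000) := by decide +kernel

theorem Nr_covered {z : ℝ × ℝ} (h : Nr z) : ∃ g, fi g z ∈ KK := by
  obtain ⟨h1, h2, h3, h4⟩ := h
  have hx : 0 ≤ z.1 := by
    unfold al at h2
    linarith
  rcases le_total z.1 (7 / 100) with c1 | c1
  · refine ⟨.C, Or.inl ?_⟩
    unfold Nr fi al be at *
    norm_num [X, Y, wx, wy] at *
    refine ⟨?_, ?_, ?_, ?_⟩ <;> linarith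
  rcases le_total (1 / 2) z.1 with c2 | c2
  · refine ⟨.B, Or.inl ?_⟩
    unfold Nr fi al be at *
    norm_num [X, Y, wx, wy] at *
    refine ⟨?_, ?_, ?_, ?_⟩ <;> linarith
  refine ⟨.D, ?_⟩
  rcases le_total 1 ((fi .D z).1 + (fi .D z).2) with c3 | c3
  · left
    unfold Nr fi al be at *
    norm_num [X, Y, wx, wy] at *
    refine ⟨?_, ?_, ?_, ?_⟩ <;> linarith
  · right
    rcases le_total (fi .D z).1 (66 / 100) with c4 | c4
    · refine ⟨7, by norm_num, ?_⟩
      rw [room7]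
      unfold inRoom fi al be at *
      norm_num [X, Y, wx, wy] at *
      refine ⟨?_, ?_, ?_⟩ <;> linarith
    · refine ⟨36, by norm_num, ?_⟩
      rw [room36]
      unfold inRoom fi al be at *
      norm_num [X, Y, wx, wy] at *
      refine ⟨?_, ?_, ?_⟩ <;> linarith

theorem KK_inS {z : ℝ × ℝ} (h : z ∈ KK) : InS (19 / 30) z := by
  refine inS_of_closed (by norm_num) (by norm_num) KK 3 ?_ ?_ z h
  · intro z hz
    rcases hz with hz | ⟨r, hr, hz⟩
    · obtain ⟨h1, h2, h3, h4⟩ := hz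
      unfold al be at *
      constructor <;> rw [abs_le] <;> constructor <;> linarith
    · have hc := room_cap hr
      obtain ⟨h1, h2, h3⟩ := hz
      have e1 : (0 : ℝ) ≤ (room r).1 := Nat.cast_nonneg _
      have e2 : (0 : ℝ) ≤ (room r).2.1 := Nat.cast_nonneg _
      have e3 : ((room r).2.2 : ℝ) ≤ 10000 := by exact_mod_cast hc
      constructor <;> rw [abs_le] <;> constructor <;> linarith
  · intro z hz
    rcases hz with hz | ⟨r, hr, hz⟩
    · obtain ⟨g, hg⟩ := Nr_covered hz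
      exact ⟨g, _, hg, (f_fi g z).symm⟩
    · obtain ⟨g, r', hr', hg⟩ := room_covered hr hz
      exact ⟨g, _, Or.inr ⟨r', hr', hg⟩, (f_fi g z).symm⟩

theorem room_inS {r : ℕ} (hr : r < 68) {z : ℝ × ℝ} (hz : inRoom (room r) z) :
    InS (19 / 30) z := KK_inS (Or.inr ⟨r, hr, hz⟩)

/-- Membership in an extended room. -/
def inPlus (q : Nat × Nat × Nat) (z : ℝ × ℝ) : Prop :=
  (q.1 : ℝ) ≤ 10000 * z.1 ∧ (q.2.1 : ℝ) ≤ 10000 * z.2 ∧ z.1 + z.2 - al * z.1 ≤ 1 ∧
    z.1 + z.2 + be * z.1 ≤ 1 + be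

theorem plus_inS {r : ℕ} (h68 : 68 ≤ r) (hr : r < 71) {z : ℝ × ℝ}
    (hz : inPlus (room (baseRoom r)) z) : InS (19 / 30) z := by
  have key : ∀ m, m < 68 → (room m).2.2 = 10000 → 1308 ≤ (room m).2.1 →
      inPlus (room m) z → InS (19 / 30) z := by
    intro m hm h1 h2 h3
    obtain ⟨a1, a2, a3, a4⟩ := h3
    rcases le_total (z.1 + z.2) 1 with hh | hh
    · refine room_inS hm ⟨a1, a2, ?_⟩
      rw [h1]
      norm_num
      linarith
    · refine KK_inS (Or.inl ⟨hh, a3, a4, ?_⟩)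
      have e1 : (0 : ℝ) ≤ (room m).1 := Nat.cast_nonneg _
      have e2 : (1308 : ℝ) ≤ (room m).2.1 := by exact_mod_cast h2
      unfold al be at *
      linarith
  have h3 : r = 68 ∨ r = 69 ∨ r = 70 := by omega
  rcases h3 with rfl | rfl | rfl
  · exact key 7 (by norm_num) (by rw [room7]) (by rw [room7]; norm_num) hz
  · exact key 36 (by norm_num) (by rw [room36]) (by rw [room36]; norm_num) hz
  · exact key 43 (by norm_num) (by rw [room43]) (by rw [room43]) hz

end H429P
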