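import Pool.Agent.H429P.Kill

/-!
Soundness of the search over words.
-/

namespace H429P

/-- The word starts with a killed word of the trie. -/
def hitT : T → Word → Prop
  | .z, _ => False
  | .k _ _, _ => True
  | .n a b d c, e => match e 0 with
    | .A => hitT a (tl e)
    | .B => hitT b (tl e)
    | .D => hitT d (tl e)
    | .C => hitT c (tl e)

theorem hit_child (a b d c : T) (e : Word) :
    hitT (.n a b d c) e ↔ hitT ((T.n a b d c).child (e 0)) (tl e) := by
  rw [hitT]
  cases e 0 <;> rfl

theorem root_node : ∃ a b d c, root = .n a b d c := ⟨_, _, _, _, rfl⟩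

/-- All regions of the trie have number less than `71`. -/
def capT : T → Bool
  | .z => true
  | .k _ r => Nat.blt r 71
  | .n a b d c => capT a && (capT b && (capT d && capT c))

theorem capT_true : capT root = true := by decide +kernel

theorem checkT_sound {E : Word} (hE : Uq (19 / 30) E) : ∀ (t : T) (u : St) (e : Word),
    checkT t (E 0) u = true → capT t = true → At u (pt (19 / 30) E) (pt (19 / 30) e) →
    ¬ hitT t e := by
  intro t
  induction t with
  | z =>
    intro u e _ _ _ h
    exact h
  | k v r =>
    intro u e h1 h2 h3 _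
    refine okKill_sound hE h3 (pt_inP (by norm_num) (by norm_num) e) ?_ h1
    simpa [capT] using h2
  | n a b d c iha ihb ihd ihc =>
    intro u e h1 h2 h3 h4
    simp only [checkT, capT, Bool.and_eq_true] at h1 h2
    have hp : pt (19 / 30) e = f (19 / 30) (e 0) (pt (19 / 30) (tl e)) := by
      rw [← pt_cons (by norm_num) (by norm_num), cons_tl]
    have h5 := h3.step hp
    rw [hitT] at h4
    generalize e 0 = g at h4 h5
    cases g with
    | A => exact iha _ _ h1.1 h2.1 h5 h4
    | B => exact ihb _ _ h1.2.1 h2.2.1 h5 h4
    | D => exact ihd _ _ h1.2.2.1 h2.2.2.1 h5 h4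
    | C => exact ihc _ _ h1.2.2.2 h2.2.2.2 h5 h4

theorem root_sound {E : Word} (hE : Uq (19 / 30) E) : ¬ hitT root E := by
  intro h
  obtain ⟨a, b, d, c, hr⟩ := root_node
  have h1 := checkRoot_true
  have h2 := capT_true
  unfold checkRoot at h1
  rw [hr] at h h1 h2
  simp only [T.child, capT, Bool.and_eq_true] at h1 h2
  have hp : pt (19 / 30) E = f (19 / 30) (E 0) (pt (19 / 30) (tl E)) := by
    rw [← pt_cons (by norm_num) (by norm_num), cons_tl]
  have h5 := (At.zero (pt (19 / 30) E)).step hp
  rw [hit_child] at h
  obtain ⟨i1, i2, i3, i4⟩ := h1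
  obtain ⟨j1, j2, j3, j4⟩ := h2
  cases hg : E 0 with
  | A =>
    rw [hg] at h h5
    exact checkT_sound hE a _ (tl E) (by rw [hg]; exact i1) j1 h5 h
  | B =>
    rw [hg] at h h5
    exact checkT_sound hE b _ (tl E) (by rw [hg]; exact i2) j2 h5 h
  | D =>
    rw [hg] at h h5
    exact checkT_sound hE d _ (tl E) (by rw [hg]; exact i3) j3 h5 h
  | C =>
    rw [hg] at h h5
    exact checkT_sound hE c _ (tl E) (by rw [hg]; exact i4) j4 h5 h

theorem move_none : ∀ (ts : List T) (e : Word), move (e 0) ts = none → ∃ t ∈ ts, hitT t e := by
  intro ts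
  induction ts with
  | nil =>
    intro e h
    simp [move] at h
  | cons t ts ih =>
    intro e h
    rw [move] at h
    cases t with
    | z =>
      simp only [T.child] at h
      obtain ⟨t', h1, h2⟩ := ih e h
      exact ⟨t', List.mem_cons_of_mem _ h1, h2⟩
    | k v r =>
      simp only [T.child] at h
      obtain ⟨t', h1, h2⟩ := ih e h
      exact ⟨t', List.mem_cons_of_mem _ h1, h2⟩
    | n a b d c =>
      cases hc : (T.n a b d c).child (e 0) with
      | z =>
        rw [hc] at h
        obtain ⟨t', h1, h2⟩ := ih e h
        exact ⟨t', List.mem_cons_of_mem _ h1, h2⟩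
      | k v r =>
        refine ⟨.n a b d c, List.mem_cons_self, ?_⟩
        rw [hit_child, hc]
        trivial
      | n a' b' d' c' =>
        rw [hc] at h
        cases hm : move (e 0) ts with
        | none =>
          obtain ⟨t', h1, h2⟩ := ih e hm
          exact ⟨t', List.mem_cons_of_mem _ h1, h2⟩
        | some q =>
          rw [hm] at h
          simp at h

theorem move_some : ∀ (ts qs : List T) (e : Word), move (e 0) ts = some qs →
    (∃ q ∈ qs, hitT q (tl e)) → ∃ t ∈ ts, hitT t e := by
  intro ts
  induction ts with
  | nil =>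
    intro qs e h
    simp only [move, Option.some.injEq] at h
    subst h
    simp
  | cons t ts ih =>
    intro qs e h hq
    rw [move] at h
    cases hc : t.child (e 0) with
    | z =>
      rw [hc] at h
      obtain ⟨t', h1, h2⟩ := ih qs e h hq
      exact ⟨t', List.mem_cons_of_mem _ h1, h2⟩
    | k v r =>
      rw [hc] at h
      simp at h
    | n a b d c =>
      rw [hc] at h
      cases hm : move (e 0) ts with
      | none =>
        rw [hm] at h
        simp at h
      | some r =>
        rw [hm] at h
        simp only [Option.some.injEq] at h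
        subst h
        obtain ⟨q, hq1, hq2⟩ := hq
        rcases List.mem_cons.mp hq1 with rfl | hq3
        · refine ⟨t, List.mem_cons_self, ?_⟩
          cases t with
          | z => simp [T.child] at hc
          | k v r => simp [T.child] at hc
          | n a' b' d' c' =>
            rw [hit_child, hc]
            exact hq2
        · obtain ⟨t', h1, h2⟩ := ih r e hm ⟨q, hq3, hq2⟩
          exact ⟨t', List.mem_cons_of_mem _ h1, h2⟩

/-- Some shift of the word starts with a killed word. -/
def HitAny (e : Word) : Prop := ∃ m, hitT root (sh m e)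

theorem HitAny.of_tl {e : Word} (h : HitAny (tl e)) : HitAny e := by
  obtain ⟨m, hm⟩ := h
  refine ⟨m + 1, ?_⟩
  rw [sh_succ]
  exact hm

theorem HitAny.of_root {e : Word} (h : hitT root e) : HitAny e := ⟨0, h⟩

theorem go_step {n : ℕ} {ps : List T} {e : Word}
    (ih : ∀ (qs : List T) (e : Word), go n qs = true → (∃ t ∈ qs, hitT t e) ∨ HitAny e)
    (h : (match move (e 0) (root :: ps) with | none => true | some q => go n q) = true) :
    (∃ t ∈ ps, hitT t e) ∨ HitAny e := by
  have aux : (∃ t ∈ root :: ps, hitT t e) → (∃ t ∈ ps, hitT t e) ∨ HitAny e := by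
    rintro ⟨t, h1, h2⟩
    rcases List.mem_cons.mp h1 with rfl | h3
    · exact Or.inr (HitAny.of_root h2)
    · exact Or.inl ⟨t, h3, h2⟩
  cases hm : move (e 0) (root :: ps) with
  | none => exact aux (move_none _ _ hm)
  | some q =>
    rw [hm] at h
    rcases ih q (tl e) h with h1 | h1
    · exact aux (move_some _ _ _ hm h1)
    · exact Or.inr h1.of_tl

theorem go_sound : ∀ (n : ℕ) (ps : List T) (e : Word), go n ps = true →
    (∃ t ∈ ps, hitT t e) ∨ HitAny e := by
  intro n
  induction n with
  | zero =>
    intro ps e h
    simp [go] at h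
  | succ n ih =>
    intro ps e h
    rw [go] at h
    simp only [Bool.and_eq_true] at h
    obtain ⟨h1, h2, h3, h4⟩ := h
    apply go_step ih
    cases e 0
    · exact h1
    · exact h2
    · exact h3
    · exact h4

theorem start_sound {e : Word} (h : start (e 0) (e 1) = true) : HitAny e := by
  have key1 : (∃ t ∈ [root], hitT t e) → HitAny e := by
    rintro ⟨t, h1, h2⟩
    rw [List.mem_singleton] at h1
    rw [h1] at h2
    exact HitAny.of_root h2
  unfold start at h
  cases hm : move (e 0) [root] with
  | none => exact key1 (move_none _ _ hm)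
  | some q =>
    rw [hm] at h
    simp only at h
    have key2 : (∃ t ∈ root :: q, hitT t (tl e)) → HitAny e := by
      rintro ⟨t, h1, h2⟩
      rcases List.mem_cons.mp h1 with rfl | h3
      · exact (HitAny.of_root h2).of_tl
      · exact key1 (move_some _ _ _ hm ⟨t, h3, h2⟩)
    have he : e 1 = (tl e) 0 := rfl
    rw [he] at h
    cases hm2 : move ((tl e) 0) (root :: q) with
    | none => exact key2 (move_none _ _ hm2)
    | some q' =>
      rw [hm2] at h
      simp only at h
      rcases go_sound 27 q' (tl (tl e)) h with h1 | h1
      · exact key2 (move_some _ _ _ hm2 h1)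
      · exact h1.of_tl.of_tl

theorem start_all {g h : Dg} (hgh : g ≠ h) : start g h = true := by
  have := startAll_true
  unfold startAll at this
  simp only [Bool.and_eq_true] at this
  obtain ⟨a1, a2, a3, a4, a5, a6, a7, a8, a9, a10, a11, a12⟩ := this
  cases g <;> cases h <;> first | exact absurd rfl hgh | assumption

/-- For the ratio `19/30` only constant words are unique addresses. -/
theorem uq_const {E : Word} (hE : Uq (19 / 30) E) : ∀ n, E n = E 0 := by
  have h1 : ∀ n, E (n + 1) = E n := by
    intro n
    by_contra hne
    have hU : Uq (19 / 30) (sh n E) := hE.sh (by norm_num) (by norm_num) n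
    have h2 : start ((sh n E) 0) ((sh n E) 1) = true := by
      apply start_all
      simp only [sh]
      intro h3
      apply hne
      rw [zero_add] at h3
      rw [h3, add_comm]
    obtain ⟨m, hm⟩ := start_sound h2
    exact root_sound (hU.sh (by norm_num) (by norm_num) m) hm
  intro n
  induction n with
  | zero => rfl
  | succ n ih => rw [h1, ih]

end H429P
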